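import Pool.Agent.Lib.MP_e62723_gt.TE.Ibp

/-!
# JOB Add: sums and differences; the polarised second integration by parts

`reg_add`, `reg_sub`: the structure `Reg` for `f ± g`, `F ± G`, constant `C + D`
(`map_add`/`map_sub` for `innerSL ℝ`, as in `Reg.exists_center` of `TD/Cen.lean`).
`ae_add`, `ae_sub`: `fderiv_add`/`fderiv_sub` at the points where both are differentiable
(`Reg.ae_diff`; note `fderiv_fun_add`/`fderiv_fun_sub` for `fun z => F z + G z`).
`hom0_ip`: measurable: `ip` is a finite sum of inner products of `fderiv ℝ F y (e i)`,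
`fderiv ℝ G y (e i)` (`measurable_fderiv_apply_const`), homogeneity by `Reg.A_smul`, bounded by
`Reg.A_norm` (`|⟪A e_i, B e_i⟫| ≤ C D / ‖y‖²`).
`tr_symm`: `ibpX` for `(f, g)` and for `(g, f)` (`real_inner_comm`, `mul_comm`).
`ibpY`: `Reg.ibpB` for the sum `(f + g, F + G)`, for `(f, F)` and for `(g, G)`, subtract:
`tr (A + B)² - hs (A + B) = (tr A² - hs A) + (tr B² - hs B) + 2 (tr A tr B - ip A B)` and
`(f + g) tr (A + B) = f tr A + g tr B + f tr B + g tr A`, then `tr_symm`.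
-/

open MeasureTheory Set

namespace Pool.Agent.Lib.MP_e62723_gt.TE

open Pool.Agent.Lib.MP_e62723_gt.TD

variable {C D : ℝ} {f g : V → ℝ} {F G : V → V}

theorem reg_add (h : Reg C f F) (k : Reg D g G) :
    Reg (C + D) (fun y => f y + g y) (fun y => F y + G y) := by
  refine ⟨add_nonneg h.nonneg k.nonneg, ?_, ?_, ?_, ?_⟩
  · intro t y ht
    show f (t • y) + g (t • y) = t * (f y + g y)
    rw [h.hom t y ht, k.hom t y ht]
    ring
  · intro t y ht
    show F (t • y) + G (t • y) = F y + G y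
    rw [h.homF t y ht, k.homF t y ht]
  · intro y hy
    have h1 := (h.grad y hy).add (k.grad y hy)
    rw [← map_add] at h1
    exact h1
  · intro u v hu hv
    show ‖F u + G u - (F v + G v)‖ ≤ (C + D) * ‖u - v‖
    rw [add_sub_add_comm, add_mul]
    exact (norm_add_le _ _).trans (add_le_add (h.lip u v hu hv) (k.lip u v hu hv))

theorem reg_sub (h : Reg C f F) (k : Reg D g G) :
    Reg (C + D) (fun y => f y - g y) (fun y => F y - G y) := by
  refine ⟨add_nonneg h.nonneg k.nonneg, ?_, ?_, ?_, ?_⟩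
  · intro t y ht
    show f (t • y) - g (t • y) = t * (f y - g y)
    rw [h.hom t y ht, k.hom t y ht]
    ring
  · intro t y ht
    show F (t • y) - G (t • y) = F y - G y
    rw [h.homF t y ht, k.homF t y ht]
  · intro y hy
    have h1 := (h.grad y hy).sub (k.grad y hy)
    rw [← map_sub] at h1
    exact h1
  · intro u v hu hv
    show ‖F u - G u - (F v - G v)‖ ≤ (C + D) * ‖u - v‖
    rw [sub_sub_sub_comm, add_mul]
    exact (norm_sub_le _ _).trans (add_le_add (h.lip u v hu hv) (k.lip u v hu hv))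

theorem ae_add (h : Reg C f F) (k : Reg D g G) :
    ∀ᵐ y : V, fderiv ℝ (fun z => F z + G z) y = fderiv ℝ F y + fderiv ℝ G y := by
  filter_upwards [h.ae_diff, k.ae_diff] with y hy hy'
  exact fderiv_fun_add hy.2 hy'.2

theorem ae_sub (h : Reg C f F) (k : Reg D g G) :
    ∀ᵐ y : V, fderiv ℝ (fun z => F z - G z) y = fderiv ℝ F y - fderiv ℝ G y := by
  filter_upwards [h.ae_diff, k.ae_diff] with y hy hy'
  exact fderiv_fun_sub hy.2 hy'.2

theorem tr_add (L M : V →L[ℝ] V) : tr (L + M) = tr L + tr M := by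
  unfold tr
  rw [← Finset.sum_add_distrib]
  exact Finset.sum_congr rfl fun i _ => rfl

theorem tr_sub (L M : V →L[ℝ] V) : tr (L - M) = tr L - tr M := by
  unfold tr
  rw [← Finset.sum_sub_distrib]
  exact Finset.sum_congr rfl fun i _ => rfl

theorem hs_add (L M : V →L[ℝ] V) : hs (L + M) = hs L + hs M + 2 * ip L M := by
  unfold hs ip
  rw [Finset.mul_sum, ← Finset.sum_add_distrib, ← Finset.sum_add_distrib]
  refine Finset.sum_congr rfl fun i _ => ?_
  rw [add_apply, norm_add_sq_real]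
  ring

private theorem Add_ip_smul (s : ℝ) (L M : V →L[ℝ] V) : ip (s • L) (s • M) = s ^ 2 * ip L M := by
  unfold ip
  rw [Finset.mul_sum]
  refine Finset.sum_congr rfl fun i _ => ?_
  rw [smul_apply, smul_apply, real_inner_smul_left,
    real_inner_smul_right]
  ring

private theorem Add_norm_e (i : Fin 3) : ‖e i‖ = 1 := by
  unfold e
  simp

theorem hom0_ip (h : Reg C f F) (k : Reg D g G) :
    Hom0 (fun y => ‖y‖ ^ 2 * ip (fderiv ℝ F y) (fderiv ℝ G y)) := by
  refine ⟨(measurable_norm.pow_const 2).mul ?_, fun t y ht => ?_, 3 * (C * D), fun y => ?_⟩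
  · show Measurable (fun y => ip (fderiv ℝ F y) (fderiv ℝ G y))
    unfold ip
    refine Finset.measurable_sum _ fun i _ => ?_
    exact (measurable_fderiv_apply_const ℝ F (e i)).inner (measurable_fderiv_apply_const ℝ G (e i))
  · show ‖t • y‖ ^ 2 * ip (fderiv ℝ F (t • y)) (fderiv ℝ G (t • y)) =
      ‖y‖ ^ 2 * ip (fderiv ℝ F y) (fderiv ℝ G y)
    rw [h.A_smul ht, k.A_smul ht, Add_ip_smul, norm_smul, Real.norm_eq_abs, abs_of_pos ht]
    have ht' := ht.ne'
    field_simp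
  · rw [abs_mul, abs_of_nonneg (by positivity : (0 : ℝ) ≤ ‖y‖ ^ 2)]
    rcases eq_or_ne y 0 with rfl | hy
    · rw [norm_zero]
      have h1 := h.nonneg
      have h2 := k.nonneg
      have h3 : (0 : ℝ) ^ 2 * |ip (fderiv ℝ F 0) (fderiv ℝ G 0)| = 0 := by ring
      rw [h3]
      positivity
    · have hy0 : 0 < ‖y‖ := norm_pos_iff.2 hy
      have key : ∀ i : Fin 3, |inner ℝ (fderiv ℝ F y (e i)) (fderiv ℝ G y (e i))| ≤
          C / ‖y‖ * (D / ‖y‖) := by
        intro i
        have h1 := h.A_norm hy (e i)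
        have h2 := k.A_norm hy (e i)
        rw [Add_norm_e, mul_one] at h1 h2
        exact (abs_real_inner_le_norm _ _).trans
          (mul_le_mul h1 h2 (norm_nonneg _) (div_nonneg h.nonneg hy0.le))
      have h4 : |ip (fderiv ℝ F y) (fderiv ℝ G y)| ≤ 3 * (C / ‖y‖ * (D / ‖y‖)) := by
        unfold ip
        refine (Finset.abs_sum_le_sum_abs _ _).trans ?_
        refine (Finset.sum_le_sum fun i _ => key i).trans ?_
        simp only [Finset.sum_const, Finset.card_univ, Fintype.card_fin, nsmul_eq_mul]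
        norm_num
      calc ‖y‖ ^ 2 * |ip (fderiv ℝ F y) (fderiv ℝ G y)| ≤ ‖y‖ ^ 2 * (3 * (C / ‖y‖ * (D / ‖y‖))) :=
            mul_le_mul_of_nonneg_left h4 (by positivity)
        _ = 3 * (C * D) := by
          field_simp

theorem tr_symm (h : Reg C f F) (k : Reg D g G) :
    bi (fun y => g y * tr (fderiv ℝ F y)) = bi (fun y => f y * tr (fderiv ℝ G y)) := by
  rw [ibpX h k, ibpX k h]
  have h1 : (fun y => g y / ‖y‖ * (f y / ‖y‖)) = fun y => f y / ‖y‖ * (g y / ‖y‖) :=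
    funext fun y => mul_comm _ _
  have h2 : (fun y => inner ℝ (G y) (F y)) = fun y => (inner ℝ (F y) (G y) : ℝ) :=
    funext fun y => real_inner_comm _ _
  rw [h1, h2]

private theorem Add_hom0_e (h : Reg C f F) :
    Hom0 (fun y => ‖y‖ ^ 2 * (tr (fderiv ℝ F y) ^ 2 - hs (fderiv ℝ F y))) := by
  have h1 := (h.hom0_tr.pow 2).sub h.hom0_hs
  have h2 : (fun y => ‖y‖ ^ 2 * (tr (fderiv ℝ F y) ^ 2 - hs (fderiv ℝ F y))) =
      fun y => (‖y‖ * tr (fderiv ℝ F y)) ^ 2 - ‖y‖ ^ 2 * hs (fderiv ℝ F y) := by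
    funext y
    ring
  rw [h2]
  exact h1

private theorem Add_hom0_x (h : Reg C f F) (k : Reg D g G) :
    Hom0 (fun y => ‖y‖ ^ 2 * (tr (fderiv ℝ F y) * tr (fderiv ℝ G y) -
      ip (fderiv ℝ F y) (fderiv ℝ G y))) := by
  have h1 := (h.hom0_tr.mul k.hom0_tr).sub (hom0_ip h k)
  have h2 : (fun y => ‖y‖ ^ 2 * (tr (fderiv ℝ F y) * tr (fderiv ℝ G y) -
      ip (fderiv ℝ F y) (fderiv ℝ G y))) =
      fun y => ‖y‖ * tr (fderiv ℝ F y) * (‖y‖ * tr (fderiv ℝ G y)) -
        ‖y‖ ^ 2 * ip (fderiv ℝ F y) (fderiv ℝ G y) := by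
    funext y
    ring
  rw [h2]
  exact h1

theorem ibpY (h : Reg C f F) (k : Reg D g G) :
    bi (fun y => ‖y‖ ^ 2 * (tr (fderiv ℝ F y) * tr (fderiv ℝ G y) -
      ip (fderiv ℝ F y) (fderiv ℝ G y))) = bi (fun y => f y * tr (fderiv ℝ G y)) := by
  have hB := (reg_add h k).ibpB
  have hBf := h.ibpB
  have hBg := k.ibpB
  have hsy := tr_symm h k
  have hae := ae_add h k
  have hae' := ae_restrict_of_ae (s := Metric.ball (0 : V) 1) hae
  have i1 : Hom0 (fun y => ‖y‖ ^ 2 * (tr (fderiv ℝ F y) ^ 2 - hs (fderiv ℝ F y))) := Add_hom0_e h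
  have i2 : Hom0 (fun y => ‖y‖ ^ 2 * (tr (fderiv ℝ G y) ^ 2 - hs (fderiv ℝ G y))) := Add_hom0_e k
  have i3 : Hom0 (fun y => ‖y‖ ^ 2 * (tr (fderiv ℝ F y) * tr (fderiv ℝ G y) -
      ip (fderiv ℝ F y) (fderiv ℝ G y))) := Add_hom0_x h k
  have j1 : Hom0 (fun y => f y * tr (fderiv ℝ F y)) := h.hom0_ftr
  have j2 : Hom0 (fun y => g y * tr (fderiv ℝ G y)) := k.hom0_ftr
  have j3 : Hom0 (fun y => f y * tr (fderiv ℝ G y)) := hom0_gtr k h
  have j4 : Hom0 (fun y => g y * tr (fderiv ℝ F y)) := hom0_gtr h k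
  have l1 : bi (fun y => ‖y‖ ^ 2 * (tr (fderiv ℝ (fun z => F z + G z) y) ^ 2 -
        hs (fderiv ℝ (fun z => F z + G z) y))) =
      bi (fun y => ‖y‖ ^ 2 * (tr (fderiv ℝ F y) ^ 2 - hs (fderiv ℝ F y))) +
        bi (fun y => ‖y‖ ^ 2 * (tr (fderiv ℝ G y) ^ 2 - hs (fderiv ℝ G y))) +
        2 * bi (fun y => ‖y‖ ^ 2 * (tr (fderiv ℝ F y) * tr (fderiv ℝ G y) -
          ip (fderiv ℝ F y) (fderiv ℝ G y))) := by
    rw [← bi_add i1 i2, ← bi_smul, ← bi_add (i1.add i2) (i3.smul 2)]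
    unfold bi
    refine integral_congr_ae ?_
    filter_upwards [hae'] with y hy
    rw [hy, tr_add, hs_add]
    ring
  have l2 : bi (fun y => (f y + g y) * tr (fderiv ℝ (fun z => F z + G z) y)) =
      bi (fun y => f y * tr (fderiv ℝ F y)) + bi (fun y => g y * tr (fderiv ℝ G y)) +
        (bi (fun y => f y * tr (fderiv ℝ G y)) + bi (fun y => g y * tr (fderiv ℝ F y))) := by
    rw [← bi_add j1 j2, ← bi_add j3 j4, ← bi_add (j1.add j2) (j3.add j4)]
    unfold bi
    refine integral_congr_ae ?_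
    filter_upwards [hae'] with y hy
    rw [hy, tr_add]
    ring
  rw [l1, l2] at hB
  linarith

end Pool.Agent.Lib.MP_e62723_gt.TE
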