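import Mathlib

/-!
# JOB Cer: the pointwise inequality

With `p = √(5(s + |t|))`, `v = 5(s - |t|)`, `w = p²` (so `0 ≤ v ≤ w`, `s = (w + v)/10`,
`|t| = (w - v)/10`) the claim is `100 p ≤ 100 q`,
`100 q = 89 + 31.8 (w + v) - 1.01 (w² + v²) - 5.78 w v + 0.016 (w³ + v³) + 0.22 w v (w + v)`.
Write `100 q - 100 p = φ(p) + α₁ v + α₂ v² + 0.016 v³` with
`φ(p) = 89 + 31.8 p² - 1.01 p⁴ + 0.016 p⁶ - 100 p`, `α₁ = 31.8 - 5.78 w + 0.22 w²`,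
`α₂ = -1.01 + 0.22 w`.
(1) `φ(p) ≥ 0` for all `p ≥ 0` (the minimum is about `0.97`, near `p = 2.1` and `p = 4.7`).
(2) If `α₁ ≥ 0`: if `α₂ ≥ 0` the claim is clear; otherwise `α₂ v ≥ α₂ w` and
`α₁ + α₂ w = 31.8 - 6.79 w + 0.44 w² > 0` (negative discriminant).
(3) If `α₁ < 0` then `7.8 ≤ w ≤ 18.5`, `2.79 ≤ p ≤ 4.31`; `v³ ≥ 6 v² - 9 v` (`v (v - 3)² ≥ 0`), so
`100 q - 100 p ≥ φ(p) + β₁ v + β₂ v²` with `β₁ = α₁ - 0.144`, `β₂ = α₂ + 0.096 > 0`, and this is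
`≥ φ(p) - β₁²/(4 β₂)`; so it suffices that `4 β₂ φ(p) ≥ β₁²` for `2.79 ≤ p ≤ 4.31`, a polynomial
inequality in one variable (the minimum of `φ - β₁²/(4 β₂)` is about `1`). These one variable
inequalities can be proved by cutting the interval into pieces `[a, b]` and writing
`p = a + (b - a) s`..., e.g. with Bernstein coefficients: on `[a, b]` a polynomial with positive
Bernstein coefficients is positive: it is a nonnegative combination of the `(p - a)^i (b - p)^j`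
(`nlinarith` with these products, or an explicit identity and `positivity`).
-/

namespace Pool.Agent.Lib.MP_e62723_gt.TE

private theorem Cer_phi1 {p : ℝ} (h0 : 0 ≤ p) (h1 : p ≤ 2) :
    0 ≤ 89 + 318 / 10 * p ^ 2 - 101 / 100 * p ^ 4 + 16 / 1000 * p ^ 6 - 100 * p := by
  obtain ⟨x, hx⟩ : ∃ x, x = p - 0 := ⟨_, rfl⟩
  obtain ⟨y, hy⟩ : ∃ y, y = 2 - p := ⟨_, rfl⟩
  have hx0 : 0 ≤ x := by rw [hx]; linarith
  have hy0 : 0 ≤ y := by rw [hy]; linarith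
  have h : 89 + 318 / 10 * p ^ 2 - 101 / 100 * p ^ 4 + 16 / 1000 * p ^ 6 - 100 * p =
      89 / 64 * (y ^ 6) + 167 / 32 * (x * y ^ 5) + 2311 / 320 * (x ^ 2 * y ^ 4) +
      361 / 80 * (x ^ 3 * y ^ 3) + 2051 / 1600 * (x ^ 4 * y ^ 2) + 131 / 800 * (x ^ 5 * y) +
      133 / 8000 * (x ^ 6) := by
    rw [hx, hy]
    ring
  rw [h]
  positivity

private theorem Cer_phi2 {p : ℝ} (h0 : 2 ≤ p) (h1 : p ≤ 4) :
    0 ≤ 89 + 318 / 10 * p ^ 2 - 101 / 100 * p ^ 4 + 16 / 1000 * p ^ 6 - 100 * p := by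
  obtain ⟨x, hx⟩ : ∃ x, x = p - 2 := ⟨_, rfl⟩
  obtain ⟨y, hy⟩ : ∃ y, y = 4 - p := ⟨_, rfl⟩
  have hx0 : 0 ≤ x := by rw [hx]; linarith
  have hy0 : 0 ≤ y := by rw [hy]; linarith
  have h : 89 + 318 / 10 * p ^ 2 - 101 / 100 * p ^ 4 + 16 / 1000 * p ^ 6 - 100 * p =
      133 / 8000 * (y ^ 6) + 143 / 4000 * (x * y ^ 5) + 1027 / 1600 * (x ^ 2 * y ^ 4) +
      741 / 400 * (x ^ 3 * y ^ 3) + 2883 / 1600 * (x ^ 4 * y ^ 2) + 2523 / 4000 * (x ^ 5 * y) +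
      597 / 8000 * (x ^ 6) := by
    rw [hx, hy]
    ring
  rw [h]
  positivity

private theorem Cer_phi3 {p : ℝ} (h0 : 4 ≤ p) (h1 : p ≤ 5) :
    0 ≤ 89 + 318 / 10 * p ^ 2 - 101 / 100 * p ^ 4 + 16 / 1000 * p ^ 6 - 100 * p := by
  obtain ⟨x, hx⟩ : ∃ x, x = p - 4 := ⟨_, rfl⟩
  obtain ⟨y, hy⟩ : ∃ y, y = 5 - p := ⟨_, rfl⟩
  have hx0 : 0 ≤ x := by rw [hx]; linarith
  have hy0 : 0 ≤ y := by rw [hy]; linarith
  have h : 89 + 318 / 10 * p ^ 2 - 101 / 100 * p ^ 4 + 16 / 1000 * p ^ 6 - 100 * p =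
      597 / 125 * (y ^ 6) + 114 / 5 * (x * y ^ 5) + 966 / 25 * (x ^ 2 * y ^ 4) +
      132 / 5 * (x ^ 3 * y ^ 3) + 131 / 20 * (x ^ 4 * y ^ 2) + 7 / 2 * (x ^ 5 * y) +
      11 / 4 * (x ^ 6) := by
    rw [hx, hy]
    ring
  rw [h]
  positivity

private theorem Cer_phi {p : ℝ} (h0 : 0 ≤ p) :
    0 ≤ 89 + 318 / 10 * p ^ 2 - 101 / 100 * p ^ 4 + 16 / 1000 * p ^ 6 - 100 * p := by
  rcases le_total p 2 with h | h
  · exact Cer_phi1 h0 h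
  rcases le_total p 4 with h2 | h2
  · exact Cer_phi2 h h2
  rcases le_total p 5 with h3 | h3
  · exact Cer_phi3 h2 h3
  obtain ⟨x, hx⟩ : ∃ x, x = p - 5 := ⟨_, rfl⟩
  have hx0 : 0 ≤ x := by rw [hx]; linarith
  have h : 89 + 318 / 10 * p ^ 2 - 101 / 100 * p ^ 4 + 16 / 1000 * p ^ 6 - 100 * p =
      11 / 4 + 13 * x + 303 / 10 * x ^ 2 + 198 / 10 * x ^ 3 + 499 / 100 * x ^ 4 +
      48 / 100 * x ^ 5 + 16 / 1000 * x ^ 6 := by
    rw [hx]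
    ring
  rw [h]
  positivity

private theorem Cer_G1 {p : ℝ} (h0 : 11 / 4 ≤ p) (h1 : p ≤ 7 / 2) :
    0 ≤ 4 * (-914 / 1000 + 22 / 100 * p ^ 2) * (89 + 318 / 10 * p ^ 2 - 101 / 100 * p ^ 4 +
        16 / 1000 * p ^ 6 - 100 * p) - (31656 / 1000 - 578 / 100 * p ^ 2 + 22 / 100 * p ^ 4) ^ 2 := by
  obtain ⟨x, hx⟩ : ∃ x, x = p - 11 / 4 := ⟨_, rfl⟩
  obtain ⟨y, hy⟩ : ∃ y, y = 7 / 2 - p := ⟨_, rfl⟩
  have hx0 : 0 ≤ x := by rw [hx]; linarith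
  have hy0 : 0 ≤ y := by rw [hy]; linarith
  have h : 4 * (-914 / 1000 + 22 / 100 * p ^ 2) * (89 + 318 / 10 * p ^ 2 - 101 / 100 * p ^ 4 +
        16 / 1000 * p ^ 6 - 100 * p) - (31656 / 1000 - 578 / 100 * p ^ 2 + 22 / 100 * p ^ 4) ^ 2 =
      14543249941 / 136687500 * (y ^ 8) + 13943687116 / 11390625 * (x * y ^ 7) +
      161228447084 / 34171875 * (x ^ 2 * y ^ 6) + 61421021872 / 6834375 * (x ^ 3 * y ^ 5) +
      21980050952 / 2278125 * (x ^ 4 * y ^ 4) + 42146923712 / 6834375 * (x ^ 5 * y ^ 3) +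
      82928661184 / 34171875 * (x ^ 6 * y ^ 2) + 2281814272 / 3796875 * (x ^ 7 * y) +
      2712259904 / 34171875 * (x ^ 8) := by
    rw [hx, hy]
    ring
  rw [h]
  positivity

private theorem Cer_G2 {p : ℝ} (h0 : 7 / 2 ≤ p) (h1 : p ≤ 9 / 2) :
    0 ≤ 4 * (-914 / 1000 + 22 / 100 * p ^ 2) * (89 + 318 / 10 * p ^ 2 - 101 / 100 * p ^ 4 +
        16 / 1000 * p ^ 6 - 100 * p) - (31656 / 1000 - 578 / 100 * p ^ 2 + 22 / 100 * p ^ 4) ^ 2 := by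
  obtain ⟨x, hx⟩ : ∃ x, x = p - 7 / 2 := ⟨_, rfl⟩
  obtain ⟨y, hy⟩ : ∃ y, y = 9 / 2 - p := ⟨_, rfl⟩
  have hx0 : 0 ≤ x := by rw [hx]; linarith
  have hy0 : 0 ≤ y := by rw [hy]; linarith
  have h : 4 * (-914 / 1000 + 22 / 100 * p ^ 2) * (89 + 318 / 10 * p ^ 2 - 101 / 100 * p ^ 4 +
        16 / 1000 * p ^ 6 - 100 * p) - (31656 / 1000 - 578 / 100 * p ^ 2 + 22 / 100 * p ^ 4) ^ 2 =
      127137183 / 16000000 * (y ^ 8) + 136213361 / 2000000 * (x * y ^ 7) +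
      1331977593 / 4000000 * (x ^ 2 * y ^ 6) + 2129037559 / 2000000 * (x ^ 3 * y ^ 5) +
      3315621273 / 1600000 * (x ^ 4 * y ^ 4) + 4632222679 / 2000000 * (x ^ 5 * y ^ 3) +
      5450401721 / 4000000 * (x ^ 6 * y ^ 2) + 654306769 / 2000000 * (x ^ 7 * y) +
      165331 / 3200000 * (x ^ 8) := by
    rw [hx, hy]
    ring
  rw [h]
  positivity

private theorem Cer_main {p v : ℝ} (hp : 0 ≤ p) (hv : 0 ≤ v) (hvp : v ≤ p ^ 2) :
    0 ≤ (89 + 318 / 10 * p ^ 2 - 101 / 100 * p ^ 4 + 16 / 1000 * p ^ 6 - 100 * p) +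
      (318 / 10 - 578 / 100 * p ^ 2 + 22 / 100 * p ^ 4) * v +
      (-101 / 100 + 22 / 100 * p ^ 2) * v ^ 2 + 16 / 1000 * v ^ 3 := by
  have h1 := Cer_phi hp
  have hv3 : 0 ≤ 16 / 1000 * v ^ 3 := by positivity
  rcases le_or_gt 0 (318 / 10 - 578 / 100 * p ^ 2 + 22 / 100 * p ^ 4) with h2 | h2
  · rcases le_or_gt 0 (-101 / 100 + 22 / 100 * p ^ 2) with h3 | h3
    · have h4 := mul_nonneg h2 hv
      have h5 := mul_nonneg h3 (sq_nonneg v)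
      linarith
    · have h4 : (-101 / 100 + 22 / 100 * p ^ 2) * p ^ 2 ≤ (-101 / 100 + 22 / 100 * p ^ 2) * v :=
        mul_le_mul_of_nonpos_left hvp h3.le
      have h5 : 0 ≤ 318 / 10 - 679 / 100 * p ^ 2 + 44 / 100 * p ^ 4 := by
        nlinarith [sq_nonneg (p ^ 2 - 679 / 88)]
      have h6 : 0 ≤ ((318 / 10 - 578 / 100 * p ^ 2 + 22 / 100 * p ^ 4) +
          (-101 / 100 + 22 / 100 * p ^ 2) * v) * v := by
        refine mul_nonneg ?_ hv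
        linarith
      linarith
  · have h3 : 78 / 10 ≤ p ^ 2 := by
      by_contra h
      nlinarith [sq_nonneg p]
    have h4 : p ^ 2 ≤ 185 / 10 := by
      by_contra h
      nlinarith [sq_nonneg p]
    have h5 : 11 / 4 ≤ p := by
      by_contra h
      nlinarith
    have h6 : p ≤ 9 / 2 := by
      by_contra h
      nlinarith
    have h7 : 0 ≤ 4 * (-914 / 1000 + 22 / 100 * p ^ 2) * (89 + 318 / 10 * p ^ 2 - 101 / 100 * p ^ 4 +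
        16 / 1000 * p ^ 6 - 100 * p) - (31656 / 1000 - 578 / 100 * p ^ 2 + 22 / 100 * p ^ 4) ^ 2 := by
      rcases le_total p (7 / 2) with h | h
      · exact Cer_G1 h5 h
      · exact Cer_G2 h h6
    have h8 : 0 ≤ v * (v - 3) ^ 2 := by positivity
    have h9 : 0 < -914 / 1000 + 22 / 100 * p ^ 2 := by linarith
    have h10 : 0 ≤ 4 * (-914 / 1000 + 22 / 100 * p ^ 2) *
        ((89 + 318 / 10 * p ^ 2 - 101 / 100 * p ^ 4 + 16 / 1000 * p ^ 6 - 100 * p) +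
        (31656 / 1000 - 578 / 100 * p ^ 2 + 22 / 100 * p ^ 4) * v +
        (-914 / 1000 + 22 / 100 * p ^ 2) * v ^ 2) := by
      have h11 := sq_nonneg (2 * (-914 / 1000 + 22 / 100 * p ^ 2) * v +
        (31656 / 1000 - 578 / 100 * p ^ 2 + 22 / 100 * p ^ 4))
      linarith
    have h12 := nonneg_of_mul_nonneg_right h10 (by linarith)
    linarith

theorem cert {s t : ℝ} (h : |t| ≤ s) :
    √(5 * (s + |t|)) ≤ 89 / 100 + 318 / 100 * s - 195 / 100 * s ^ 2 + 94 / 100 * t ^ 2 +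
      59 / 100 * s ^ 3 - 43 / 100 * (s * t ^ 2) := by
  have h0 : 0 ≤ |t| := abs_nonneg t
  have h1 : 0 ≤ 5 * (s + |t|) := by linarith
  have h2 := Real.sq_sqrt h1
  have h3 := Cer_main (Real.sqrt_nonneg (5 * (s + |t|))) (v := 5 * (s - |t|)) (by linarith)
    (by rw [h2]; linarith)
  have h4 : √(5 * (s + |t|)) ^ 4 = (5 * (s + |t|)) ^ 2 := by
    have h5 : √(5 * (s + |t|)) ^ 4 = (√(5 * (s + |t|)) ^ 2) ^ 2 := by ring
    rw [h5, h2]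
  have h6 : √(5 * (s + |t|)) ^ 6 = (5 * (s + |t|)) ^ 3 := by
    have h5 : √(5 * (s + |t|)) ^ 6 = (√(5 * (s + |t|)) ^ 2) ^ 3 := by ring
    rw [h5, h2]
  rw [h4, h6, h2] at h3
  rw [← sq_abs t]
  generalize √(5 * (s + |t|)) = P at h3 ⊢
  generalize |t| = T at h3 ⊢
  linarith

end Pool.Agent.Lib.MP_e62723_gt.TE
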