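import Pool.Agent.Lib.MP_e62723_gt.TE.Ref

/-!
# The moments of `S` and `D` (helper48)
-/

open MeasureTheory Set

namespace Pool.Agent.Lib.MP_e62723_gt.TE

open Pool.Agent.Lib.MP_e62723_gt.TD

/-- `S / 4`. -/
def lS : OP :=
    [((2, 0, 0, 0), [((4, 0, 2), 225), ((2, 2, 2), 450), ((2, 0, 4), -150), ((0, 4, 2), 225),
      ((0, 2, 4), -150), ((0, 0, 6), 50)]),
    ((1, 1, 0, 0), [((4, 0, 2), -90), ((2, 0, 4), 80), ((0, 4, 2), 90), ((0, 2, 4), -80)]),
    ((1, 0, 1, 0), [((5, 0, 1), -30), ((3, 2, 1), 60), ((3, 0, 3), 140), ((1, 4, 1), 90),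
      ((1, 2, 3), -420)]),
    ((1, 0, 0, 1), [((4, 1, 1), -90), ((2, 3, 1), -60), ((2, 1, 3), 420), ((0, 5, 1), 30),
      ((0, 3, 3), -140)]),
    ((0, 2, 0, 0), [((4, 2, 0), 8), ((4, 0, 2), 13), ((2, 4, 0), 8), ((2, 2, 2), -34),
      ((2, 0, 4), -2), ((0, 4, 2), 13), ((0, 2, 4), -2), ((0, 0, 6), 2)]),
    ((0, 1, 1, 0), [((5, 0, 1), 22), ((3, 2, 1), -160), ((1, 4, 1), 90), ((1, 0, 5), 12)]),
    ((0, 1, 0, 1), [((4, 1, 1), 90), ((2, 3, 1), -160), ((0, 5, 1), 22), ((0, 1, 5), 12)]),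
    ((0, 0, 2, 0), [((6, 0, 0), 17), ((4, 2, 0), -102), ((4, 0, 2), 18), ((2, 4, 0), 153),
      ((2, 2, 2), 36), ((2, 0, 4), 18), ((0, 4, 2), 18), ((0, 2, 4), 18)]),
    ((0, 0, 1, 1), [((5, 1, 0), 102), ((3, 3, 0), -340), ((1, 5, 0), 102)]),
    ((0, 0, 0, 2), [((4, 2, 0), 153), ((4, 0, 2), 18), ((2, 4, 0), -102), ((2, 2, 2), 36),
      ((2, 0, 4), 18), ((0, 6, 0), 17), ((0, 4, 2), 18), ((0, 2, 4), 18)])]

/-- `D / 4`. -/
def lD : OP :=
    [((2, 0, 0, 0), [((2, 0, 4), -75), ((0, 2, 4), -75), ((0, 0, 6), 25)]),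
    ((1, 1, 0, 0), [((4, 0, 2), -30), ((2, 0, 4), 10), ((0, 4, 2), 30), ((0, 2, 4), -10)]),
    ((1, 0, 1, 0), [((5, 0, 1), -60), ((3, 2, 1), 120), ((3, 0, 3), -20), ((1, 4, 1), 180),
      ((1, 2, 3), 60)]),
    ((1, 0, 0, 1), [((4, 1, 1), -180), ((2, 3, 1), -120), ((2, 1, 3), -60), ((0, 5, 1), 60),
      ((0, 3, 3), 20)]),
    ((0, 2, 0, 0), [((4, 2, 0), -4), ((4, 0, 2), 6), ((2, 4, 0), -4), ((2, 2, 2), -8),
      ((2, 0, 4), 1), ((0, 4, 2), 6), ((0, 2, 4), 1), ((0, 0, 6), -1)]),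
    ((0, 1, 1, 0), [((5, 0, 1), 14), ((3, 2, 1), -20), ((1, 4, 1), 30), ((1, 0, 5), -6)]),
    ((0, 1, 0, 1), [((4, 1, 1), 30), ((2, 3, 1), -20), ((0, 5, 1), 14), ((0, 1, 5), -6)]),
    ((0, 0, 2, 0), [((6, 0, 0), 4), ((4, 2, 0), -24), ((4, 0, 2), -9), ((2, 4, 0), 36),
      ((2, 2, 2), -18), ((2, 0, 4), -9), ((0, 4, 2), -9), ((0, 2, 4), -9)]),
    ((0, 0, 1, 1), [((5, 1, 0), 24), ((3, 3, 0), -80), ((1, 5, 0), 24)]),
    ((0, 0, 0, 2), [((4, 2, 0), 36), ((4, 0, 2), -9), ((2, 4, 0), -24), ((2, 2, 2), -18),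
      ((2, 0, 4), -9), ((0, 6, 0), 4), ((0, 4, 2), -9), ((0, 2, 4), -9)])]

/-- The constant `1`. -/
def l1 : OP := [((0, 0, 0, 0), [((0, 0, 0), 1)])]

/-- Delete the zero coefficients. -/
def clean : CP → CP
  | [] => []
  | (k, r) :: l => bif decide (r = 0) then clean l else (k, r) :: clean l

private theorem evC_clean (a b c d : ℝ) (l : CP) : evC a b c d (clean l) = evC a b c d l := by
  induction l with
  | nil => rfl
  | cons t l ih =>
    obtain ⟨k, r⟩ := t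
    simp only [clean]
    by_cases h : r = 0
    · subst h
      simp [evC, ih]
    · simp [h, evC, ih]

private theorem bi_cl (a b c d : ℝ) {n n' : ℕ} {P Q : OP} (hP : degO n P = true)
    (hQ : degO n' Q = true) {R : CP} (hR : clean (parO P Q []) = R) :
    bi (fun y => evO a b c d (y 0) (y 1) (y 2) P / ‖y‖ ^ n *
      (evO a b c d (y 0) (y 1) (y 2) Q / ‖y‖ ^ n')) * (nu (n + n') : ℝ) =
        kappa 3 * evC a b c d R := by
  rw [bi_OO a b c d hP hQ rfl, ← hR, evC_clean]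

private theorem dS : degO 6 lS = true := by decide +kernel

private theorem dD : degO 6 lD = true := by decide +kernel

private theorem d1 : degO 0 l1 = true := by decide +kernel

private theorem dS2 : degO 12 (mulO lS lS []) = true := by decide +kernel

private theorem dD2 : degO 12 (mulO lD lD []) = true := by decide +kernel

private theorem ev_1 (a b c d x y z : ℝ) : evO a b c d x y z l1 = 1 := by
  simp [l1, evO, evI, ev3, ev4]

private theorem ev_S (a b c d x y z : ℝ) : cS a b c d x y z = 4 * evO a b c d x y z lS := by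
  simp only [lS, evO, evI, ev3, ev4, cS, cP, cX, cY, cZ, cXX, cYY, cZZ, cXY, cXZ, cYZ]
  push_cast
  ring

private theorem ev_D (a b c d x y z : ℝ) : cD a b c d x y z = 4 * evO a b c d x y z lD := by
  simp only [lD, evO, evI, ev3, ev4, cD, cS, cP, cX, cY, cZ, cXX, cYY, cZZ, cXY, cXZ, cYZ]
  push_cast
  ring

private theorem gS_eq (a b c d : ℝ) (y : V) :
    gS a b c d y = 4 * evO a b c d (y 0) (y 1) (y 2) lS := ev_S a b c d (y 0) (y 1) (y 2)

private theorem gD_eq (a b c d : ℝ) (y : V) :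
    gD a b c d y = 4 * evO a b c d (y 0) (y 1) (y 2) lD := ev_D a b c d (y 0) (y 1) (y 2)

def rS : CP :=
  [((2, 0, 0, 0), 1650),
    ((0, 2, 0, 0), 110),
    ((0, 0, 2, 0), 660),
    ((0, 0, 0, 2), 660)]

private theorem rS_eq : clean (parO lS l1 []) = rS := by decide +kernel

def rS2 : CP :=
  [((4, 0, 0, 0), 45157500),
    ((2, 2, 0, 0), 6928200),
    ((2, 0, 2, 0), 27961200),
    ((2, 0, 0, 2), 27961200),
    ((0, 4, 0, 0), 180540),
    ((0, 2, 2, 0), 2544480),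
    ((0, 2, 0, 2), 2544480),
    ((0, 0, 4, 0), 7633440),
    ((0, 0, 2, 2), 15266880),
    ((0, 0, 0, 4), 7633440)]

private theorem rS2_eq : clean (parO lS lS []) = rS2 := by decide +kernel

def rD2 : CP :=
  [((4, 0, 0, 0), 4134375),
    ((2, 2, 0, 0), -85950),
    ((2, 0, 2, 0), 9042300),
    ((2, 0, 0, 2), 9042300),
    ((0, 4, 0, 0), 32535),
    ((0, 2, 2, 0), 124920),
    ((0, 2, 0, 2), 124920),
    ((0, 0, 4, 0), 374760),
    ((0, 0, 2, 2), 749520),
    ((0, 0, 0, 4), 374760)]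

private theorem rD2_eq : clean (parO lD lD []) = rD2 := by decide +kernel

def rS3 : CP :=
  [((6, 0, 0, 0), 5438289375000),
    ((4, 2, 0, 0), 1429704675000),
    ((4, 0, 2, 0), 4220849250000),
    ((4, 0, 0, 2), 4220849250000),
    ((2, 4, 0, 0), 85421277000),
    ((2, 2, 2, 0), 829824264000),
    ((2, 2, 0, 2), 829824264000),
    ((2, 0, 4, 0), 1733995512000),
    ((2, 0, 2, 2), 3467991024000),
    ((2, 0, 0, 4), 1733995512000),
    ((1, 3, 2, 0), 7160400000),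
    ((1, 3, 0, 2), -7160400000),
    ((0, 6, 0, 0), 1223418600),
    ((0, 4, 2, 0), 29613394800),
    ((0, 4, 0, 2), 29613394800),
    ((0, 2, 4, 0), 204036148800),
    ((0, 2, 2, 2), 408072297600),
    ((0, 2, 0, 4), 204036148800),
    ((0, 0, 6, 0), 408072297600),
    ((0, 0, 4, 2), 1224216892800),
    ((0, 0, 2, 4), 1224216892800),
    ((0, 0, 0, 6), 408072297600)]

private theorem rS3_eq : clean (parO lS (mulO lS lS []) []) = rS3 := by decide +kernel

def rSD2 : CP :=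
  [((6, 0, 0, 0), 618118593750),
    ((4, 2, 0, 0), -14100581250),
    ((4, 0, 2, 0), 1002359812500),
    ((4, 0, 0, 2), 1002359812500),
    ((2, 4, 0, 0), 5020949250),
    ((2, 2, 2, 0), 135152226000),
    ((2, 2, 0, 2), 135152226000),
    ((2, 0, 4, 0), 476014158000),
    ((2, 0, 2, 2), 952028316000),
    ((2, 0, 0, 4), 476014158000),
    ((1, 3, 2, 0), -9063900000),
    ((1, 3, 0, 2), 9063900000),
    ((0, 6, 0, 0), 236788650),
    ((0, 4, 2, 0), 2853560700),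
    ((0, 4, 0, 2), 2853560700),
    ((0, 2, 4, 0), 8363509200),
    ((0, 2, 2, 2), 16727018400),
    ((0, 2, 0, 4), 8363509200),
    ((0, 0, 6, 0), 16727018400),
    ((0, 0, 4, 2), 50181055200),
    ((0, 0, 2, 4), 50181055200),
    ((0, 0, 0, 6), 16727018400)]

private theorem rSD2_eq : clean (parO lS (mulO lD lD []) []) = rSD2 := by decide +kernel

theorem hom0_S (a b c d : ℝ) : Hom0 (fun y => gS a b c d y / ‖y‖ ^ 6) := by
  have h := (hom0_O a b c d dS).smul 4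
  have e : (fun y : V => gS a b c d y / ‖y‖ ^ 6) =
      fun y : V => 4 * (evO a b c d (y 0) (y 1) (y 2) lS / ‖y‖ ^ 6) := by
    funext y
    rw [gS_eq]
    ring
  rw [e]
  exact h

theorem hom0_D (a b c d : ℝ) : Hom0 (fun y => gD a b c d y / ‖y‖ ^ 6) := by
  have h := (hom0_O a b c d dD).smul 4
  have e : (fun y : V => gD a b c d y / ‖y‖ ^ 6) =
      fun y : V => 4 * (evO a b c d (y 0) (y 1) (y 2) lD / ‖y‖ ^ 6) := by
    funext y
    rw [gD_eq]
    ring
  rw [e]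
  exact h

private theorem nu6 : nu (6 + 0) = 105 := by decide +kernel

private theorem nu12 : nu (6 + 6) = 135135 := by decide +kernel

private theorem nu18 : nu (6 + 12) = 654729075 := by decide +kernel

theorem bi_S (a b c d : ℝ) :
    bi (fun y => gS a b c d y / ‖y‖ ^ 6) = kappa 3 * (110 * al a b c d) := by
  have h := bi_cl a b c d dS d1 rS_eq
  rw [nu6] at h
  have e : (fun y : V => gS a b c d y / ‖y‖ ^ 6) =
      fun y : V => 4 * (evO a b c d (y 0) (y 1) (y 2) lS / ‖y‖ ^ 6 *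
        (evO a b c d (y 0) (y 1) (y 2) l1 / ‖y‖ ^ 0)) := by
    funext y
    rw [gS_eq, ev_1]
    ring
  rw [e, bi_smul]
  have h2 : evC a b c d rS = 105 * (110 * al a b c d) / 4 := by
    simp only [rS, evC, ev4, al]
    push_cast
    ring
  rw [h2] at h
  push_cast at h
  linarith

theorem bi_S2 (a b c d : ℝ) :
    bi (fun y => (gS a b c d y / ‖y‖ ^ 6) ^ 2) = kappa 3 * mS2 a b c d := by
  have h := bi_cl a b c d dS dS rS2_eq
  rw [nu12] at h
  have e : (fun y : V => (gS a b c d y / ‖y‖ ^ 6) ^ 2) =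
      fun y : V => 16 * (evO a b c d (y 0) (y 1) (y 2) lS / ‖y‖ ^ 6 *
        (evO a b c d (y 0) (y 1) (y 2) lS / ‖y‖ ^ 6)) := by
    funext y
    rw [gS_eq]
    ring
  rw [e, bi_smul]
  have h2 : evC a b c d rS2 = 135135 * mS2 a b c d / 16 := by
    simp only [rS2, evC, ev4, mS2]
    push_cast
    ring
  rw [h2] at h
  push_cast at h
  linarith

theorem bi_D2 (a b c d : ℝ) :
    bi (fun y => (gD a b c d y / ‖y‖ ^ 6) ^ 2) = kappa 3 * mD2 a b c d := by
  have h := bi_cl a b c d dD dD rD2_eq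
  rw [nu12] at h
  have e : (fun y : V => (gD a b c d y / ‖y‖ ^ 6) ^ 2) =
      fun y : V => 16 * (evO a b c d (y 0) (y 1) (y 2) lD / ‖y‖ ^ 6 *
        (evO a b c d (y 0) (y 1) (y 2) lD / ‖y‖ ^ 6)) := by
    funext y
    rw [gD_eq]
    ring
  rw [e, bi_smul]
  have h2 : evC a b c d rD2 = 135135 * mD2 a b c d / 16 := by
    simp only [rD2, evC, ev4, mD2]
    push_cast
    ring
  rw [h2] at h
  push_cast at h
  linarith

theorem bi_S3 (a b c d : ℝ) :
    bi (fun y => (gS a b c d y / ‖y‖ ^ 6) ^ 3) = kappa 3 * mS3 a b c d := by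
  have h := bi_cl a b c d dS dS2 rS3_eq
  rw [nu18] at h
  have e : (fun y : V => (gS a b c d y / ‖y‖ ^ 6) ^ 3) =
      fun y : V => 64 * (evO a b c d (y 0) (y 1) (y 2) lS / ‖y‖ ^ 6 *
        (evO a b c d (y 0) (y 1) (y 2) (mulO lS lS []) / ‖y‖ ^ 12)) := by
    funext y
    rw [gS_eq, evO_mulO]
    simp only [evO]
    ring
  rw [e, bi_smul]
  have h2 : evC a b c d rS3 = 654729075 * mS3 a b c d / 64 := by
    simp only [rS3, evC, ev4, mS3]
    push_cast
    ring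
  rw [h2] at h
  push_cast at h
  linarith

theorem bi_SD2 (a b c d : ℝ) :
    bi (fun y => gS a b c d y / ‖y‖ ^ 6 * (gD a b c d y / ‖y‖ ^ 6) ^ 2) =
      kappa 3 * mSD2 a b c d := by
  have h := bi_cl a b c d dS dD2 rSD2_eq
  rw [nu18] at h
  have e : (fun y : V => gS a b c d y / ‖y‖ ^ 6 * (gD a b c d y / ‖y‖ ^ 6) ^ 2) =
      fun y : V => 64 * (evO a b c d (y 0) (y 1) (y 2) lS / ‖y‖ ^ 6 *
        (evO a b c d (y 0) (y 1) (y 2) (mulO lD lD []) / ‖y‖ ^ 12)) := by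
    funext y
    rw [gS_eq, gD_eq, evO_mulO]
    simp only [evO]
    ring
  rw [e, bi_smul]
  have h2 : evC a b c d rSD2 = 654729075 * mSD2 a b c d / 64 := by
    simp only [rSD2, evC, ev4, mSD2]
    push_cast
    ring
  rw [h2] at h
  push_cast at h
  linarith

end Pool.Agent.Lib.MP_e62723_gt.TE
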