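import Pool.Agent.Lib.MP_e62723_gt.TD.Main

/-!
# Bodies of constant width in `ℝ³`, second part: basic notions

`V = ℝ³`, `bi Ψ = ∫ Ψ` over the unit ball, `Reg`, `Hom0`, `tr`, `hs`, `e2` are those of the folder
`TD`. The cubic harmonic polynomials in normal form:
`P = a z (2z² - 3x² - 3y²) + b z (x² - y²) + c (x³ - 3xy²) + d (3x²y - y³)`.
-/

open MeasureTheory

namespace Pool.Agent.Lib.MP_e62723_gt.TE

open Pool.Agent.Lib.MP_e62723_gt.TD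

/-- The Hilbert-Schmidt inner product. -/
noncomputable def ip (L M : V →L[ℝ] V) : ℝ := ∑ i, inner ℝ (L (e i)) (M (e i))

/-- The harmonic cubic in normal form. -/
noncomputable def cP (a b c d x y z : ℝ) : ℝ :=
  a * (z * (2 * z ^ 2 - 3 * x ^ 2 - 3 * y ^ 2)) + b * (z * (x ^ 2 - y ^ 2)) +
    c * (x ^ 3 - 3 * x * y ^ 2) + d * (3 * x ^ 2 * y - y ^ 3)

/-- `∂P/∂x`. -/
noncomputable def cX (a b c d x y z : ℝ) : ℝ :=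
  -6 * a * x * z + 2 * b * x * z + 3 * c * (x ^ 2 - y ^ 2) + 6 * d * x * y

/-- `∂P/∂y`. -/
noncomputable def cY (a b c d x y z : ℝ) : ℝ :=
  -6 * a * y * z - 2 * b * y * z - 6 * c * x * y + 3 * d * (x ^ 2 - y ^ 2)

/-- `∂P/∂z`. -/
noncomputable def cZ (a b x y z : ℝ) : ℝ :=
  a * (6 * z ^ 2 - 3 * x ^ 2 - 3 * y ^ 2) + b * (x ^ 2 - y ^ 2)

/-- `∂²P/∂x²`. -/
noncomputable def cXX (a b c d x y z : ℝ) : ℝ := -6 * a * z + 2 * b * z + 6 * c * x + 6 * d * y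

/-- `∂²P/∂y²`. -/
noncomputable def cYY (a b c d x y z : ℝ) : ℝ := -6 * a * z - 2 * b * z - 6 * c * x - 6 * d * y

/-- `∂²P/∂z²`. -/
noncomputable def cZZ (a z : ℝ) : ℝ := 12 * a * z

/-- `∂²P/∂x∂y`. -/
noncomputable def cXY (c d x y : ℝ) : ℝ := -6 * c * y + 6 * d * x

/-- `∂²P/∂x∂z`. -/
noncomputable def cXZ (a b x : ℝ) : ℝ := -6 * a * x + 2 * b * x

/-- `∂²P/∂y∂z`. -/
noncomputable def cYZ (a b y : ℝ) : ℝ := -6 * a * y - 2 * b * y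

/-- `S = |H|² u² - 8 |∇P|² u + 68 P²`, `u = x² + y² + z²`. -/
noncomputable def cS (a b c d x y z : ℝ) : ℝ :=
  (cXX a b c d x y z ^ 2 + cYY a b c d x y z ^ 2 + cZZ a z ^ 2 + 2 * cXY c d x y ^ 2 +
      2 * cXZ a b x ^ 2 + 2 * cYZ a b y ^ 2) * (x ^ 2 + y ^ 2 + z ^ 2) ^ 2 -
    8 * (cX a b c d x y z ^ 2 + cY a b c d x y z ^ 2 + cZ a b x y z ^ 2) *
      (x ^ 2 + y ^ 2 + z ^ 2) + 68 * cP a b c d x y z ^ 2

/-- `D = (100 P² - S) / 2`. -/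
noncomputable def cD (a b c d x y z : ℝ) : ℝ := 50 * cP a b c d x y z ^ 2 - cS a b c d x y z / 2

/-- `P` as a function on `V`. -/
noncomputable def gP (a b c d : ℝ) (y : V) : ℝ := cP a b c d (y 0) (y 1) (y 2)

/-- `S` as a function on `V`. -/
noncomputable def gS (a b c d : ℝ) (y : V) : ℝ := cS a b c d (y 0) (y 1) (y 2)

/-- `D` as a function on `V`. -/
noncomputable def gD (a b c d : ℝ) (y : V) : ℝ := cD a b c d (y 0) (y 1) (y 2)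

/-- The gradient of `P` as a vector. -/
noncomputable def gN (a b c d : ℝ) (y : V) : V :=
  WithLp.toLp 2 ![cX a b c d (y 0) (y 1) (y 2), cY a b c d (y 0) (y 1) (y 2),
    cZ a b (y 0) (y 1) (y 2)]

/-- The positively homogeneous function `P / ‖y‖²` of degree one. -/
noncomputable def gf (a b c d : ℝ) (y : V) : ℝ := gP a b c d y / ‖y‖ ^ 2

/-- The gradient of `gf`. -/
noncomputable def gF (a b c d : ℝ) (y : V) : V :=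
  (‖y‖ ^ 2)⁻¹ • gN a b c d y - (2 * gP a b c d y / ‖y‖ ^ 4) • y

/-- `⟨P²⟩` on the sphere: `4/7 a² + 4/105 b² + 8/35 (c² + d²)`. -/
noncomputable def al (a b c d : ℝ) : ℝ := 4 / 7 * a ^ 2 + 4 / 105 * b ^ 2 + 8 / 35 * (c ^ 2 + d ^ 2)

/-- The moments of order three of `f` are those of `gf a b c d`. -/
structure Nf (f : V → ℝ) (a b c d : ℝ) : Prop where
  m300 : bi (fun y => f y / ‖y‖ * (y 0 ^ 3 / ‖y‖ ^ 3)) = 2 / 35 * kappa 3 * c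
  m210 : bi (fun y => f y / ‖y‖ * (y 0 ^ 2 * y 1 / ‖y‖ ^ 3)) = 2 / 35 * kappa 3 * d
  m120 : bi (fun y => f y / ‖y‖ * (y 0 * y 1 ^ 2 / ‖y‖ ^ 3)) = 2 / 35 * kappa 3 * (-c)
  m030 : bi (fun y => f y / ‖y‖ * (y 1 ^ 3 / ‖y‖ ^ 3)) = 2 / 35 * kappa 3 * (-d)
  m201 : bi (fun y => f y / ‖y‖ * (y 0 ^ 2 * y 2 / ‖y‖ ^ 3)) = 2 / 35 * kappa 3 * (-a + b / 3)
  m111 : bi (fun y => f y / ‖y‖ * (y 0 * y 1 * y 2 / ‖y‖ ^ 3)) = 0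
  m021 : bi (fun y => f y / ‖y‖ * (y 1 ^ 2 * y 2 / ‖y‖ ^ 3)) = 2 / 35 * kappa 3 * (-a - b / 3)
  m102 : bi (fun y => f y / ‖y‖ * (y 0 * y 2 ^ 2 / ‖y‖ ^ 3)) = 0
  m012 : bi (fun y => f y / ‖y‖ * (y 1 * y 2 ^ 2 / ‖y‖ ^ 3)) = 0
  m003 : bi (fun y => f y / ‖y‖ * (y 2 ^ 3 / ‖y‖ ^ 3)) = 2 / 35 * kappa 3 * (2 * a)

/-- The moments of the standard Gaussian law. -/
def mu : ℕ → ℕ
  | 0 => 1
  | 1 => 0
  | n + 2 => (n + 1) * mu n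

/-- `(n + 1)!!` for even `n`. -/
def nu : ℕ → ℕ
  | 0 => 1
  | 1 => 1
  | n + 2 => (n + 3) * nu n

/-- `⟨S²⟩`. -/
noncomputable def mS2 (a b c d : ℝ) : ℝ :=
  5352000 / 1001 * a ^ 4 + 821120 / 1001 * a ^ 2 * b ^ 2 +
    3313920 / 1001 * a ^ 2 * (c ^ 2 + d ^ 2) + 64192 / 3003 * b ^ 4 +
    301568 / 1001 * b ^ 2 * (c ^ 2 + d ^ 2) + 904704 / 1001 * (c ^ 2 + d ^ 2) ^ 2

/-- `⟨D²⟩`. -/
noncomputable def mD2 (a b c d : ℝ) : ℝ :=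
  70000 / 143 * a ^ 4 - 30560 / 3003 * a ^ 2 * b ^ 2 +
    1071680 / 1001 * a ^ 2 * (c ^ 2 + d ^ 2) + 3856 / 1001 * b ^ 4 +
    44416 / 3003 * b ^ 2 * (c ^ 2 + d ^ 2) + 44416 / 1001 * (c ^ 2 + d ^ 2) ^ 2

/-- `⟨S³⟩`. -/
noncomputable def mS3 (a b c d : ℝ) : ℝ :=
  10110400000 / 19019 * a ^ 6 + 379712000 / 2717 * a ^ 4 * b ^ 2 +
    7847040000 / 19019 * a ^ 4 * (c ^ 2 + d ^ 2) + 476423680 / 57057 * a ^ 2 * b ^ 4 +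
    1542737920 / 19019 * a ^ 2 * b ^ 2 * (c ^ 2 + d ^ 2) +
    3223695360 / 19019 * a ^ 2 * (c ^ 2 + d ^ 2) ^ 2 +
    1024000 / 1463 * a * b ^ 3 * (c ^ 2 - d ^ 2) + 6823424 / 57057 * b ^ 6 +
    15014912 / 5187 * b ^ 4 * (c ^ 2 + d ^ 2) + 34484224 / 1729 * b ^ 2 * (c ^ 2 + d ^ 2) ^ 2 +
    68968448 / 1729 * (c ^ 2 + d ^ 2) ^ 3

/-- `⟨S D²⟩`. -/
noncomputable def mSD2 (a b c d : ℝ) : ℝ :=
  2790800000 / 46189 * a ^ 6 - 63664000 / 46189 * a ^ 4 * b ^ 2 +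
    31679520000 / 323323 * a ^ 4 * (c ^ 2 + d ^ 2) + 1428181120 / 2909907 * a ^ 2 * b ^ 4 +
    388316160 / 29393 * a ^ 2 * b ^ 2 * (c ^ 2 + d ^ 2) +
    15044398080 / 323323 * a ^ 2 * (c ^ 2 + d ^ 2) ^ 2 -
    286464000 / 323323 * a * b ^ 3 * (c ^ 2 - d ^ 2) + 3207296 / 138567 * b ^ 6 +
    811679488 / 2909907 * b ^ 4 * (c ^ 2 + d ^ 2) +
    264328192 / 323323 * b ^ 2 * (c ^ 2 + d ^ 2) ^ 2 + 528656384 / 323323 * (c ^ 2 + d ^ 2) ^ 3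

/-- The symmetric trilinear form of `f`. -/
noncomputable def tri (f : V → ℝ) (x x' x'' : V) : ℝ :=
  bi (fun y => f y / ‖y‖ * (inner ℝ x y / ‖y‖ * (inner ℝ x' y / ‖y‖) * (inner ℝ x'' y / ‖y‖)))

end Pool.Agent.Lib.MP_e62723_gt.TE
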