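import Pool.Agent.Lib.MP_e62723_gt.TE.Defs

/-!
# JOB Fra: an adapted frame for a symmetric trilinear form on `ℝ³`

(1) Let `w` be a unit vector where `x ↦ T x x x` attains its maximum on the unit sphere (compact:
`isCompact_sphere`; the function is continuous: linear maps on finite dimensional spaces are
continuous, e.g. expand `T x x x = ∑ i j k, x i * x j * x k * T (e i) (e j) (e k)`; the sphere is
nonempty: `e 0`).
(2) If `v` is a unit vector orthogonal to `w` then `T w w v = 0`: the function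
`θ ↦ T p p p`, `p = cos θ • w + sin θ • v` (a unit vector), is
`cos³ θ T w w w + 3 cos² θ sin θ T w w v + 3 cos θ sin² θ T w v v + sin³ θ T v v v`, has a maximum
at `θ = 0` and derivative `3 T w w v` there (`IsLocalMax.hasDerivAt_eq_zero`).
(3) Let `u, v` be unit vectors with `u, v, w` orthonormal (complete `w` to an orthonormal basis:
`Orthonormal.exists_orthonormalBasis_extension_of_card_eq`, or with the orthogonal complement of
`ℝ w`, of dimension `2`). For real `θ` let `p = cos θ • u + sin θ • v`, `q = -sin θ • u + cos θ • v`;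
`ψ(θ) = T w p q = (cos² θ - sin² θ) T w u v + cos θ sin θ (T w v v - T w u u)` is continuous with
`ψ(0) = T w u v = -ψ(π/2)`; so `ψ(θ) = 0` for some `θ` (`intermediate_value_Icc` or similar).
(4) `(p, q, w)` is an orthonormal basis; let `U` be the linear isometry with `U (e 0) = p`,
`U (e 1) = q`, `U (e 2) = w` (`OrthonormalBasis.equiv`, or `(b.repr).symm`:
`OrthonormalBasis.repr_symm_single`; `e i = EuclideanSpace.single i 1`).
-/

open MeasureTheory Set

namespace Pool.Agent.Lib.MP_e62723_gt.TE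

open Pool.Agent.Lib.MP_e62723_gt.TD

private theorem Fra_cont (T : V →ₗ[ℝ] V →ₗ[ℝ] V →ₗ[ℝ] ℝ) : Continuous fun x : V => T x x x := by
  have hx : ∀ x : V, x = ∑ i, x i • e i := by
    intro x
    ext j
    simp [e, Finset.sum_apply, Pi.single_apply]
  have hT : ∀ x : V, T x x x = ∑ i, ∑ j, ∑ k, x i * (x j * (x k * T (e i) (e j) (e k))) := by
    intro x
    have h1 : T x = ∑ i, x i • T (e i) := by
      conv_lhs => rw [hx x]
      rw [map_sum]
      exact Finset.sum_congr rfl fun i _ => map_smul T _ _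
    have h2 : ∀ L : V →ₗ[ℝ] V →ₗ[ℝ] ℝ, L x x = ∑ j, ∑ k, x j * (x k * L (e j) (e k)) := by
      intro L
      have h3 : L x = ∑ j, x j • L (e j) := by
        conv_lhs => rw [hx x]
        rw [map_sum]
        exact Finset.sum_congr rfl fun i _ => map_smul L _ _
      have h4 : ∀ M : V →ₗ[ℝ] ℝ, M x = ∑ k, x k * M (e k) := by
        intro M
        conv_lhs => rw [hx x]
        rw [map_sum]
        exact Finset.sum_congr rfl fun i _ => map_smul M _ _
      rw [h3, LinearMap.sum_apply]
      refine Finset.sum_congr rfl fun j _ => ?_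
      rw [LinearMap.smul_apply, h4, smul_eq_mul, Finset.mul_sum]
    rw [h1, LinearMap.sum_apply, LinearMap.sum_apply]
    refine Finset.sum_congr rfl fun i _ => ?_
    rw [LinearMap.smul_apply, LinearMap.smul_apply, h2, smul_eq_mul, Finset.mul_sum]
    refine Finset.sum_congr rfl fun j _ => ?_
    rw [Finset.mul_sum]
  have hc : ∀ i : Fin 3, Continuous fun x : V => x i := fun i => by fun_prop
  simp only [hT]
  refine continuous_finsetSum _ fun i _ => continuous_finsetSum _ fun j _ =>
    continuous_finsetSum _ fun k _ => ?_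
  exact (hc i).mul ((hc j).mul ((hc k).mul continuous_const))

private theorem Fra_deriv (A B C D : ℝ)
    (h : ∀ θ : ℝ, Real.cos θ ^ 3 * A + 3 * (Real.cos θ ^ 2 * Real.sin θ) * B +
      3 * (Real.cos θ * Real.sin θ ^ 2) * C + Real.sin θ ^ 3 * D ≤ A) : B = 0 := by
  have hd : HasDerivAt (fun θ : ℝ => Real.cos θ ^ 3 * A +
      3 * (Real.cos θ ^ 2 * Real.sin θ) * B + 3 * (Real.cos θ * Real.sin θ ^ 2) * C +
      Real.sin θ ^ 3 * D) (3 * B) 0 := by
    have hc := Real.hasDerivAt_cos 0
    have hs := Real.hasDerivAt_sin 0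
    have h1 := ((((hc.fun_pow 3).mul_const A).add
      (((((hc.fun_pow 2).mul hs).const_mul 3)).mul_const B)).add
      ((((hc.mul (hs.fun_pow 2)).const_mul 3)).mul_const C)).add ((hs.fun_pow 3).mul_const D)
    refine h1.congr_deriv ?_
    simp
  have hm : IsLocalMax (fun θ : ℝ => Real.cos θ ^ 3 * A +
      3 * (Real.cos θ ^ 2 * Real.sin θ) * B + 3 * (Real.cos θ * Real.sin θ ^ 2) * C +
      Real.sin θ ^ 3 * D) 0 := by
    refine Filter.Eventually.of_forall fun θ => ?_
    have h0 := h θ
    simpa using h0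
  have h3 := hm.hasDerivAt_eq_zero hd
  linarith

private theorem Fra_combo (T : V →ₗ[ℝ] V →ₗ[ℝ] V →ₗ[ℝ] ℝ) (h1 : ∀ x y z, T x y z = T y x z)
    (h2 : ∀ x y z, T x y z = T x z y) (w v : V) (c s : ℝ) :
    T (c • w + s • v) (c • w + s • v) (c • w + s • v) =
      c ^ 3 * T w w w + 3 * (c ^ 2 * s) * T w w v + 3 * (c * s ^ 2) * T w v v +
        s ^ 3 * T v v v := by
  have e1 : T v w w = T w w v := by rw [h1, h2]
  have e2 : T w v w = T w w v := by rw [h2]
  have e3 : T v v w = T w v v := by rw [h2, h1]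
  have e4 : T v w v = T w v v := by rw [h1]
  simp only [map_add, map_smul, LinearMap.add_apply, LinearMap.smul_apply, smul_eq_mul, e1, e2,
    e3, e4]
  ring

theorem exists_frame (T : V →ₗ[ℝ] V →ₗ[ℝ] V →ₗ[ℝ] ℝ) (h1 : ∀ x y z, T x y z = T y x z)
    (h2 : ∀ x y z, T x y z = T x z y) :
    ∃ U : V ≃ₗᵢ[ℝ] V, T (U (e 2)) (U (e 2)) (U (e 0)) = 0 ∧
      T (U (e 2)) (U (e 2)) (U (e 1)) = 0 ∧ T (U (e 2)) (U (e 0)) (U (e 1)) = 0 := by
  have hne : (Metric.sphere (0 : V) 1).Nonempty := ⟨e 0, by simp [e]⟩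
  obtain ⟨w, hw, hmax⟩ := (isCompact_sphere (0 : V) 1).exists_isMaxOn hne (Fra_cont T).continuousOn
  have hw1 : ‖w‖ = 1 := by simpa using hw
  have key : ∀ v : V, ‖v‖ = 1 → inner ℝ w v = 0 → T w w v = 0 := by
    intro v hv hwv
    refine Fra_deriv (T w w w) (T w w v) (T w v v) (T v v v) fun θ => ?_
    rw [← Fra_combo T h1 h2]
    refine hmax ?_
    have h3 : ‖Real.cos θ • w + Real.sin θ • v‖ ^ 2 = 1 := by
      rw [norm_add_sq_real, norm_smul, norm_smul, hw1, hv, inner_smul_left, inner_smul_right, hwv]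
      simp
    rw [mem_sphere_zero_iff_norm]
    have h4 : 0 ≤ ‖Real.cos θ • w + Real.sin θ • v‖ := norm_nonneg _
    nlinarith
  obtain ⟨b, hb⟩ := Orthonormal.exists_orthonormalBasis_extension_of_card_eq (𝕜 := ℝ) (E := V)
    (ι := Fin 3) (by simp) (v := fun _ => w) (s := {2}) (by
      refine ⟨fun i => hw1, fun i j hij => ?_⟩
      exact absurd (Subsingleton.elim i j) hij)
  have hb2 : b 2 = w := hb 2 rfl
  have hin : ∀ i j, inner ℝ (b i) (b j) = if i = j then (1 : ℝ) else 0 :=
    orthonormal_iff_ite.1 b.orthonormal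
  obtain ⟨θ, hθ⟩ : (0 : ℝ) ∈ Set.range (fun θ : ℝ => T w (Real.cos θ • b 0 + Real.sin θ • b 1)
      (-Real.sin θ • b 0 + Real.cos θ • b 1)) := by
    have hexp : ∀ θ : ℝ, T w (Real.cos θ • b 0 + Real.sin θ • b 1)
        (-Real.sin θ • b 0 + Real.cos θ • b 1) =
        (Real.cos θ ^ 2 - Real.sin θ ^ 2) * T w (b 0) (b 1) +
          Real.cos θ * Real.sin θ * (T w (b 1) (b 1) - T w (b 0) (b 0)) := by
      intro θ
      have e1 : T w (b 1) (b 0) = T w (b 0) (b 1) := h2 _ _ _
      simp only [map_add, map_smul, LinearMap.add_apply, LinearMap.smul_apply, smul_eq_mul, e1]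
      ring
    simp only [hexp]
    have hc : Continuous fun θ : ℝ => (Real.cos θ ^ 2 - Real.sin θ ^ 2) * T w (b 0) (b 1) +
        Real.cos θ * Real.sin θ * (T w (b 1) (b 1) - T w (b 0) (b 0)) := by fun_prop
    rcases le_total 0 (T w (b 0) (b 1)) with h | h
    · exact mem_range_of_exists_le_of_exists_ge hc ⟨Real.pi / 2, by simp [h]⟩ ⟨0, by simp [h]⟩
    · exact mem_range_of_exists_le_of_exists_ge hc ⟨0, by simp [h]⟩ ⟨Real.pi / 2, by simp [h]⟩
  set p := Real.cos θ • b 0 + Real.sin θ • b 1 with hp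
  set q := -Real.sin θ • b 0 + Real.cos θ • b 1 with hq
  have hcs := Real.cos_sq_add_sin_sq θ
  have hpp : inner ℝ p p = (1 : ℝ) := by
    rw [hp]
    simp only [inner_add_left, inner_add_right, inner_smul_left, inner_smul_right, hin]
    simp
    nlinarith
  have hqq : inner ℝ q q = (1 : ℝ) := by
    rw [hq]
    simp only [inner_add_left, inner_add_right, inner_smul_left, inner_smul_right, hin]
    simp
    nlinarith
  have hpq : inner ℝ p q = (0 : ℝ) := by
    rw [hp, hq]
    simp only [inner_add_left, inner_add_right, inner_smul_left, inner_smul_right, hin]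
    simp
    ring
  have hwp : inner ℝ w p = (0 : ℝ) := by
    rw [hp, ← hb2]
    simp only [inner_add_right, inner_smul_right, hin]
    simp
  have hwq : inner ℝ w q = (0 : ℝ) := by
    rw [hq, ← hb2]
    simp only [inner_add_right, inner_smul_right, hin]
    simp
  have hww : inner ℝ w w = (1 : ℝ) := by rw [real_inner_self_eq_norm_sq, hw1, one_pow]
  have hpn : ‖p‖ = 1 := by
    have h3 := real_inner_self_eq_norm_sq p
    rw [hpp] at h3
    have h4 := norm_nonneg p
    nlinarith
  have hqn : ‖q‖ = 1 := by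
    have h3 := real_inner_self_eq_norm_sq q
    rw [hqq] at h3
    have h4 := norm_nonneg q
    nlinarith
  have hort : Orthonormal ℝ (![p, q, w] : Fin 3 → V) := by
    refine ⟨fun i => ?_, fun i j hij => ?_⟩
    · fin_cases i
      · exact hpn
      · exact hqn
      · exact hw1
    · fin_cases i <;> fin_cases j
      · exact absurd rfl hij
      · exact hpq
      · exact (real_inner_comm _ _).trans hwp
      · exact (real_inner_comm _ _).trans hpq
      · exact absurd rfl hij
      · exact (real_inner_comm _ _).trans hwq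
      · exact hwp
      · exact hwq
      · exact absurd rfl hij
  obtain ⟨b', hb'⟩ := Orthonormal.exists_orthonormalBasis_extension_of_card_eq (𝕜 := ℝ) (E := V)
    (ι := Fin 3) (by simp) (v := ![p, q, w]) (s := Set.univ)
    (hort.comp _ Subtype.val_injective)
  refine ⟨b'.repr.symm, ?_⟩
  have hU : ∀ i, b'.repr.symm (e i) = ![p, q, w] i := by
    intro i
    rw [← hb' i (Set.mem_univ i)]
    exact b'.repr_symm_single i
  have hU0 : b'.repr.symm (e 0) = p := hU 0
  have hU1 : b'.repr.symm (e 1) = q := hU 1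
  have hU2 : b'.repr.symm (e 2) = w := hU 2
  refine ⟨?_, ?_, ?_⟩
  · rw [hU0, hU2]
    exact key p hpn hwp
  · rw [hU1, hU2]
    exact key q hqn hwq
  · rw [hU0, hU1, hU2]
    exact hθ

end Pool.Agent.Lib.MP_e62723_gt.TE
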