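import Pool.Agent.Lib.MP_e62723_gt.TE.Defs

/-!
# JOB HarA: the homogeneous function `P / ‖y‖²` and its gradient

`gP` is a polynomial in the coordinates, with gradient `gN` (`hasFDerivAt_gP`: the coordinate
`y ↦ y i` has derivative `EuclideanSpace.proj i`; after `ext`, compare on `v` by `ring`:
`⟪gN y, v⟫ = cX v 0 + cY v 1 + cZ v 2`).
Euler: `⟪gN y, y⟫ = 3 P y` (`ring`). `hasFDerivAt_gf`: the quotient rule, `‖y‖²` has derivative
`2 • innerSL ℝ y` (`hasStrictFDerivAt_norm_sq`).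
`gf_abs`, `gF_smul` etc: homogeneity and parity: `P` has degree `3`, `gN` degree `2`.
`gF_lip`: on the unit sphere `gF u = gN u - (2 P u) • u =: Q u`, where `Q` is a polynomial map
(`ContDiff ℝ 1`), so Lipschitz on the closed unit ball (compact and convex: e.g.
`ContDiff.locallyLipschitz`.. or `Convex.norm_image_sub_le_of_norm_fderiv_le` with a bound of the
continuous function `‖fderiv ℝ Q y‖` on the compact ball).
-/

open MeasureTheory Set

namespace Pool.Agent.Lib.MP_e62723_gt.TE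

open Pool.Agent.Lib.MP_e62723_gt.TD

private theorem harA_inner (x y : V) : inner ℝ x y = x 0 * y 0 + x 1 * y 1 + x 2 * y 2 := by
  rw [PiLp.inner_apply, Fin.sum_univ_three]
  simp only [RCLike.inner_apply, conj_trivial]
  ring

theorem hasFDerivAt_gP (a b c d : ℝ) (y : V) :
    HasFDerivAt (gP a b c d) (innerSL ℝ (gN a b c d y)) y := by
  have hc : ∀ i : Fin 3, HasFDerivAt (fun y : V => y i) (EuclideanSpace.proj i : V →L[ℝ] ℝ) y :=
    fun i => (EuclideanSpace.proj i : V →L[ℝ] ℝ).hasFDerivAt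
  have h0 := hc 0
  have h1 := hc 1
  have h2 := hc 2
  have h := ((((h2.mul ((((h2.pow 2).const_mul 2).sub ((h0.pow 2).const_mul 3)).sub
    ((h1.pow 2).const_mul 3))).const_mul a).add ((h2.mul ((h0.pow 2).sub (h1.pow 2))).const_mul b)).add
    (((h0.pow 3).sub ((h0.const_mul 3).mul (h1.pow 2))).const_mul c)).add
    (((((h0.pow 2).const_mul 3).mul h1).sub (h1.pow 3)).const_mul d)
  refine h.congr_fderiv ?_
  ext v
  rw [innerSL_apply_apply, harA_inner]
  simp only [gN, cX, cY, cZ]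
  simp
  ring

theorem gN_inner (a b c d : ℝ) (y : V) : inner ℝ (gN a b c d y) y = 3 * gP a b c d y := by
  rw [harA_inner]
  simp only [gN, gP, cP, cX, cY, cZ]
  simp
  ring

theorem gP_smul (a b c d t : ℝ) (y : V) : gP a b c d (t • y) = t ^ 3 * gP a b c d y := by
  simp only [gP, cP, PiLp.smul_apply, smul_eq_mul]
  ring

theorem gN_smul (a b c d t : ℝ) (y : V) : gN a b c d (t • y) = t ^ 2 • gN a b c d y := by
  ext i
  fin_cases i
  · simp [gN, cX, cY, cZ]
    ring
  · simp [gN, cX, cY, cZ]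
    ring
  · simp [gN, cX, cY, cZ]
    ring

theorem hasFDerivAt_gf (a b c d : ℝ) {y : V} (hy : y ≠ 0) :
    HasFDerivAt (gf a b c d) (innerSL ℝ (gF a b c d y)) y := by
  have hn : ‖y‖ ≠ 0 := norm_ne_zero_iff.2 hy
  have h1 : HasFDerivAt (fun x : V => ‖x‖ ^ 2) (2 • innerSL ℝ y) y :=
    (hasStrictFDerivAt_norm_sq y).hasFDerivAt
  have h2 := (hasDerivAt_inv (pow_ne_zero 2 hn)).comp_hasFDerivAt y h1
  have h3 := (hasFDerivAt_gP a b c d y).mul h2
  have h4 : HasFDerivAt (gf a b c d) _ y := h3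
  refine h4.congr_fderiv ?_
  ext v
  rw [innerSL_apply_apply]
  simp only [gF, inner_sub_left, real_inner_smul_left]
  simp
  field_simp
  ring

private noncomputable def harA_Q (a b c d : ℝ) (y : V) : V := gN a b c d y - (2 * gP a b c d y) • y

private theorem harA_cd (a b c d : ℝ) : ContDiff ℝ 1 (harA_Q a b c d) := by
  have hc : ∀ i : Fin 3, ContDiff ℝ 1 (fun y : V => y i) :=
    fun i => (EuclideanSpace.proj i : V →L[ℝ] ℝ).contDiff
  have hP : ContDiff ℝ 1 (gP a b c d) := by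
    unfold gP cP
    have h0 := hc 0
    have h1 := hc 1
    have h2 := hc 2
    fun_prop
  have hN : ContDiff ℝ 1 (gN a b c d) := by
    rw [contDiff_euclidean]
    intro i
    have h0 := hc 0
    have h1 := hc 1
    have h2 := hc 2
    fin_cases i
    · simp only [gN, cX, cY, cZ]
      simp
      fun_prop
    · simp only [gN, cX, cY, cZ]
      simp
      fun_prop
    · simp only [gN, cX, cY, cZ]
      simp
      fun_prop
  unfold harA_Q
  fun_prop

theorem gF_lip (a b c d : ℝ) : ∃ C : ℝ, 0 ≤ C ∧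
    ∀ u v : V, ‖u‖ = 1 → ‖v‖ = 1 → ‖gF a b c d u - gF a b c d v‖ ≤ C * ‖u - v‖ := by
  obtain ⟨K, hK⟩ := ((harA_cd a b c d).contDiffOn (s := Metric.closedBall (0 : V) 1)).exists_lipschitzOnWith
    one_ne_zero (convex_closedBall 0 1) (isCompact_closedBall 0 1)
  refine ⟨K, K.2, ?_⟩
  intro u v hu hv
  have h1 : ∀ u : V, ‖u‖ = 1 → gF a b c d u = harA_Q a b c d u := by
    intro u hu
    simp [gF, harA_Q, hu]
  rw [h1 u hu, h1 v hv, ← dist_eq_norm, ← dist_eq_norm]
  exact hK.dist_le_mul u (by rw [mem_closedBall_zero_iff, hu]) v (by rw [mem_closedBall_zero_iff, hv])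

theorem reg_g (a b c d : ℝ) : ∃ C : ℝ, Reg C (gf a b c d) (gF a b c d) := by
  obtain ⟨C, hC, hl⟩ := gF_lip a b c d
  refine ⟨C, hC, ?_, ?_, fun y hy => hasFDerivAt_gf a b c d hy, hl⟩
  · intro t y ht
    unfold gf
    rw [gP_smul, norm_smul, Real.norm_eq_abs, abs_of_pos ht, mul_pow]
    rcases eq_or_ne y 0 with rfl | hy
    · simp [gP, cP]
    · have hn : ‖y‖ ≠ 0 := norm_ne_zero_iff.2 hy
      field_simp
  · intro t y ht
    unfold gF
    rw [gP_smul, gN_smul, norm_smul, Real.norm_eq_abs, abs_of_pos ht, mul_pow, mul_pow, smul_smul,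
      smul_smul]
    rcases eq_or_ne y 0 with rfl | hy
    · simp [gP, cP]
    · have hn : ‖y‖ ≠ 0 := norm_ne_zero_iff.2 hy
      congr 2
      · field_simp
      · field_simp

theorem gf_odd (a b c d : ℝ) (y : V) : gf a b c d (-y) = -gf a b c d y := by
  have h := gP_smul a b c d (-1) y
  rw [neg_one_smul] at h
  unfold gf
  rw [h, norm_neg]
  ring

theorem gF_even (a b c d : ℝ) (y : V) : gF a b c d (-y) = gF a b c d y := by
  have h := gP_smul a b c d (-1) y
  have h' := gN_smul a b c d (-1) y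
  rw [neg_one_smul] at h h'
  unfold gF
  rw [h, h', norm_neg]
  have e1 : ((-1 : ℝ) ^ 2) • gN a b c d y = gN a b c d y := by norm_num
  have e2 : 2 * ((-1 : ℝ) ^ 3 * gP a b c d y) / ‖y‖ ^ 4 = -(2 * gP a b c d y / ‖y‖ ^ 4) := by ring
  rw [e1, e2, neg_smul_neg]

end Pool.Agent.Lib.MP_e62723_gt.TE
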