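import Pool.Agent.Lib.MP_e62723_gt.TE.HarA

/-!
# JOB HarB: the second derivative of `P / ‖y‖²`

`gH y v` is the Hessian of `P` applied to `v`. `gN` has derivative `gH y` (componentwise; e.g.
`hasFDerivAt_euclidean`/`hasFDerivAt_piLp`, or write `gN y = ∑ i, (gN y i) • e i`).
`gH_self`: Euler for the gradient, `H y y = 2 ∇P`.
`hasFDerivAt_gF` (product rule for `(‖y‖²)⁻¹ • gN y - (2 P y / ‖y‖⁴) • y`):
`A v = (‖y‖²)⁻¹ • H v - (2 ⟪y,v⟫ / ‖y‖⁴) • ∇P - (2 ⟪∇P,v⟫/‖y‖⁴ - 8 P ⟪y,v⟫/‖y‖⁶) • y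
        - (2 P/‖y‖⁴) • v`.
Then with `u = ‖y‖² = y 0² + y 1² + y 2²` (`EuclideanSpace.norm_sq_eq`/`real_norm_sq_eq`) the
entries are `A_ij = H_ij/u - 2 (g_i y_j + y_i g_j)/u² - 2 P δ_ij/u² + 8 P y_i y_j/u³`
(`A_ij = (A e_j) i`) and
`tr A = -10 P/u²` (`tr H = 0`, `y·g = 3P`), `hs A = ∑ A_ij² = S/u⁴`. Here
`|H|² u² - 8 |g|² u + 68 P²` comes from `H y = 2 g`, `g·y = 3 P`, `tr H = 0`: it may be convenient
to prove first a lemma for arbitrary numbers `h11, h12, ..., g1, g2, g3, p, y1, y2, y3` with these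
relations (`linear_combination`), or to use `field_simp; ring` directly.
-/

open MeasureTheory Set

namespace Pool.Agent.Lib.MP_e62723_gt.TE

open Pool.Agent.Lib.MP_e62723_gt.TD

private theorem harB_inner (x y : V) : inner ℝ x y = x 0 * y 0 + x 1 * y 1 + x 2 * y 2 := by
  rw [PiLp.inner_apply, Fin.sum_univ_three]
  simp only [RCLike.inner_apply, conj_trivial]
  ring

/-- the rows of the Hessian of `P` -/
private noncomputable def harB_R (a b c d : ℝ) (y : V) : Fin 3 → V :=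
  ![WithLp.toLp 2 ![cXX a b c d (y 0) (y 1) (y 2), cXY c d (y 0) (y 1), cXZ a b (y 0)],
    WithLp.toLp 2 ![cXY c d (y 0) (y 1), cYY a b c d (y 0) (y 1) (y 2), cYZ a b (y 1)],
    WithLp.toLp 2 ![cXZ a b (y 0), cYZ a b (y 1), cZZ a (y 2)]]

private theorem harB_N (a b c d : ℝ) (y : V) (j : Fin 3) :
    HasFDerivAt (fun x => gN a b c d x j) (innerSL ℝ (harB_R a b c d y j)) y := by
  have hc : ∀ i : Fin 3, HasFDerivAt (fun y : V => y i) (EuclideanSpace.proj i : V →L[ℝ] ℝ) y :=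
    fun i => (EuclideanSpace.proj i : V →L[ℝ] ℝ).hasFDerivAt
  have h0 := hc 0
  have h1 := hc 1
  have h2 := hc 2
  fin_cases j
  · have h := (((h0.const_mul (-6 * a)).mul h2).add ((h0.const_mul (2 * b)).mul h2)).add
      ((((h0.pow 2).sub (h1.pow 2)).const_mul (3 * c))) |>.add ((h0.const_mul (6 * d)).mul h1)
    refine h.congr_fderiv ?_
    ext v
    rw [innerSL_apply_apply, harB_inner]
    simp only [harB_R, cXX, cXY, cXZ]
    simp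
    ring
  · have h := ((((h1.const_mul (-6 * a)).mul h2).sub ((h1.const_mul (2 * b)).mul h2)).sub
      ((h0.const_mul (6 * c)).mul h1)).add (((h0.pow 2).sub (h1.pow 2)).const_mul (3 * d))
    refine h.congr_fderiv ?_
    ext v
    rw [innerSL_apply_apply, harB_inner]
    simp only [harB_R, cYY, cXY, cYZ]
    simp
    ring
  · have h := (((((h2.pow 2).const_mul 6).sub ((h0.pow 2).const_mul 3)).sub
      ((h1.pow 2).const_mul 3)).const_mul a).add (((h0.pow 2).sub (h1.pow 2)).const_mul b)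
    refine h.congr_fderiv ?_
    ext v
    rw [innerSL_apply_apply, harB_inner]
    simp only [harB_R, cXZ, cZZ, cYZ]
    simp
    ring

/-- the components of the derivative of `gF` -/
private noncomputable def harB_A (a b c d : ℝ) (y : V) (j : Fin 3) (v : V) : ℝ :=
  (‖y‖ ^ 2)⁻¹ * inner ℝ (harB_R a b c d y j) v - 2 * inner ℝ y v / ‖y‖ ^ 4 * gN a b c d y j -
    (2 * inner ℝ (gN a b c d y) v / ‖y‖ ^ 4 - 8 * gP a b c d y * inner ℝ y v / ‖y‖ ^ 6) * y j -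
    2 * gP a b c d y / ‖y‖ ^ 4 * v j

private theorem harB_F (a b c d : ℝ) {y : V} (hy : y ≠ 0) (v : V) (j : Fin 3) :
    (fderiv ℝ (gF a b c d) y v) j = harB_A a b c d y j v := by
  have hn : ‖y‖ ≠ 0 := norm_ne_zero_iff.2 hy
  have h1 : HasFDerivAt (fun x : V => ‖x‖ ^ 2) (2 • innerSL ℝ y) y :=
    (hasStrictFDerivAt_norm_sq y).hasFDerivAt
  have h2 := (hasDerivAt_inv (pow_ne_zero 2 hn)).comp_hasFDerivAt y h1
  have h3 : ∀ j : Fin 3, ∃ L : V →L[ℝ] ℝ, HasFDerivAt (fun x => gF a b c d x j) L y ∧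
      ∀ v, L v = harB_A a b c d y j v := by
    intro j
    have hc : HasFDerivAt (fun y : V => y j) (EuclideanSpace.proj j : V →L[ℝ] ℝ) y :=
      (EuclideanSpace.proj j : V →L[ℝ] ℝ).hasFDerivAt
    have h4 := (h2.mul (harB_N a b c d y j)).sub
      ((((hasFDerivAt_gP a b c d y).const_mul 2).mul (h2.pow 2)).mul hc)
    refine ⟨_, h4.congr_of_eventuallyEq ?_, ?_⟩
    · refine Filter.Eventually.of_forall fun x => ?_
      simp only [gF]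
      simp
      left
      rw [div_eq_mul_inv, ← inv_pow, ← inv_pow]
      ring
    · intro v
      simp only [harB_A]
      simp
      field_simp
      ring
  have h5 : DifferentiableAt ℝ (gF a b c d) y := by
    rw [differentiableAt_euclidean]
    intro i
    obtain ⟨L, hL, -⟩ := h3 i
    exact hL.differentiableAt
  obtain ⟨L, hL, hLv⟩ := h3 j
  have h6 : HasFDerivAt (fun x => gF a b c d x j)
      ((EuclideanSpace.proj j : V →L[ℝ] ℝ) ∘L (fderiv ℝ (gF a b c d) y)) y :=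
    (EuclideanSpace.proj j : V →L[ℝ] ℝ).hasFDerivAt.comp y h5.hasFDerivAt
  have h7 := h6.unique hL
  rw [← hLv, ← h7]
  rfl

private theorem harB_e (a b c d : ℝ) {y : V} (hy : y ≠ 0) (i j : Fin 3) :
    (fderiv ℝ (gF a b c d) y (e i)) j = (harB_R a b c d y j i * (‖y‖ ^ 2) ^ 2 -
      2 * (y i * gN a b c d y j + gN a b c d y i * y j) * ‖y‖ ^ 2 + 8 * gP a b c d y * (y i * y j) -
      2 * gP a b c d y * (if j = i then 1 else 0) * ‖y‖ ^ 2) / (‖y‖ ^ 2) ^ 3 := by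
  have hn : ‖y‖ ≠ 0 := norm_ne_zero_iff.2 hy
  rw [harB_F a b c d hy]
  unfold harB_A
  have h1 : ∀ w : V, inner ℝ w (e i) = w i := by
    intro w
    unfold e
    rw [EuclideanSpace.inner_single_right]
    simp
  have h2 : (e i) j = if j = i then 1 else 0 := by
    unfold e
    rw [PiLp.single_apply]
  rw [h1, h1, h1, h2]
  field_simp
  ring

private theorem harB_n (y : V) : ‖y‖ ^ 2 = y 0 ^ 2 + y 1 ^ 2 + y 2 ^ 2 := by
  rw [EuclideanSpace.real_norm_sq_eq, Fin.sum_univ_three]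

theorem tr_g (a b c d : ℝ) {y : V} (hy : y ≠ 0) :
    tr (fderiv ℝ (gF a b c d) y) = -10 * gP a b c d y / ‖y‖ ^ 4 := by
  have hn : ‖y‖ ^ 2 ≠ 0 := pow_ne_zero 2 (norm_ne_zero_iff.2 hy)
  have h4 : ‖y‖ ^ 4 = (‖y‖ ^ 2) ^ 2 := by ring
  unfold tr
  rw [Fin.sum_univ_three, harB_e a b c d hy, harB_e a b c d hy, harB_e a b c d hy, h4]
  rw [harB_n] at hn ⊢
  simp only [harB_R, gN, gP, cP, cX, cY, cZ, cXX, cYY, cZZ, cXY, cXZ, cYZ]
  simp
  field_simp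
  ring

private theorem harB_id (h11 h12 h13 h22 h23 h33 g1 g2 g3 p x y z u : ℝ)
    (e1 : h11 * x + h12 * y + h13 * z = 2 * g1) (e2 : h12 * x + h22 * y + h23 * z = 2 * g2)
    (e3 : h13 * x + h23 * y + h33 * z = 2 * g3) (e4 : g1 * x + g2 * y + g3 * z = 3 * p)
    (e5 : h11 + h22 + h33 = 0) (e6 : x ^ 2 + y ^ 2 + z ^ 2 = u) :
    (h11 * u ^ 2 - 2 * (x * g1 + g1 * x) * u + 8 * p * (x * x) - 2 * p * u) ^ 2 +
    (h12 * u ^ 2 - 2 * (x * g2 + g1 * y) * u + 8 * p * (x * y)) ^ 2 +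
    (h13 * u ^ 2 - 2 * (x * g3 + g1 * z) * u + 8 * p * (x * z)) ^ 2 +
    ((h12 * u ^ 2 - 2 * (y * g1 + g2 * x) * u + 8 * p * (y * x)) ^ 2 +
    (h22 * u ^ 2 - 2 * (y * g2 + g2 * y) * u + 8 * p * (y * y) - 2 * p * u) ^ 2 +
    (h23 * u ^ 2 - 2 * (y * g3 + g2 * z) * u + 8 * p * (y * z)) ^ 2) +
    ((h13 * u ^ 2 - 2 * (z * g1 + g3 * x) * u + 8 * p * (z * x)) ^ 2 +
    (h23 * u ^ 2 - 2 * (z * g2 + g3 * y) * u + 8 * p * (z * y)) ^ 2 +
    (h33 * u ^ 2 - 2 * (z * g3 + g3 * z) * u + 8 * p * (z * z) - 2 * p * u) ^ 2) =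
    u ^ 2 * ((h11 ^ 2 + h22 ^ 2 + h33 ^ 2 + 2 * h12 ^ 2 + 2 * h13 ^ 2 + 2 * h23 ^ 2) * u ^ 2 -
      8 * (g1 ^ 2 + g2 ^ 2 + g3 ^ 2) * u + 68 * p ^ 2) := by
  have q1 : g1 = (h11 * x + h12 * y + h13 * z) / 2 := by rw [e1]; ring
  have q2 : g2 = (h12 * x + h22 * y + h23 * z) / 2 := by rw [e2]; ring
  have q3 : g3 = (h13 * x + h23 * y + h33 * z) / 2 := by rw [e3]; ring
  have q4 : p = (g1 * x + g2 * y + g3 * z) / 3 := by rw [e4]; ring
  have q5 : h33 = -h11 - h22 := by linarith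
  rw [q4, q1, q2, q3, q5, ← e6]
  ring

theorem hs_g (a b c d : ℝ) {y : V} (hy : y ≠ 0) :
    ‖y‖ ^ 2 * hs (fderiv ℝ (gF a b c d) y) = gS a b c d y / ‖y‖ ^ 6 := by
  have hn : ‖y‖ ^ 2 ≠ 0 := pow_ne_zero 2 (norm_ne_zero_iff.2 hy)
  have h6 : ‖y‖ ^ 6 = (‖y‖ ^ 2) ^ 3 := by ring
  have hr := harB_n y
  have key := harB_id (cXX a b c d (y 0) (y 1) (y 2)) (cXY c d (y 0) (y 1)) (cXZ a b (y 0))
    (cYY a b c d (y 0) (y 1) (y 2)) (cYZ a b (y 1)) (cZZ a (y 2)) (cX a b c d (y 0) (y 1) (y 2))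
    (cY a b c d (y 0) (y 1) (y 2)) (cZ a b (y 0) (y 1) (y 2)) (cP a b c d (y 0) (y 1) (y 2))
    (y 0) (y 1) (y 2) (‖y‖ ^ 2) (by unfold cXX cXY cXZ cX; ring) (by unfold cXY cYY cYZ cY; ring)
    (by unfold cXZ cYZ cZZ cZ; ring) (by unfold cX cY cZ cP; ring) (by unfold cXX cYY cZZ; ring)
    hr.symm
  have hS : gS a b c d y = (cXX a b c d (y 0) (y 1) (y 2) ^ 2 + cYY a b c d (y 0) (y 1) (y 2) ^ 2 +
      cZZ a (y 2) ^ 2 + 2 * cXY c d (y 0) (y 1) ^ 2 + 2 * cXZ a b (y 0) ^ 2 +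
      2 * cYZ a b (y 1) ^ 2) * (‖y‖ ^ 2) ^ 2 -
      8 * (cX a b c d (y 0) (y 1) (y 2) ^ 2 + cY a b c d (y 0) (y 1) (y 2) ^ 2 +
        cZ a b (y 0) (y 1) (y 2) ^ 2) * ‖y‖ ^ 2 + 68 * cP a b c d (y 0) (y 1) (y 2) ^ 2 := by
    unfold gS cS
    rw [hr]
  have hh : hs (fderiv ℝ (gF a b c d) y) = ((‖y‖ ^ 2) ^ 2 * gS a b c d y) / ((‖y‖ ^ 2) ^ 3) ^ 2 := by
    unfold hs
    rw [Fin.sum_univ_three, harB_n (fderiv ℝ (gF a b c d) y (e 0)),
      harB_n (fderiv ℝ (gF a b c d) y (e 1)), harB_n (fderiv ℝ (gF a b c d) y (e 2)), hS, ← key]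
    simp only [harB_e a b c d hy, div_pow]
    simp only [harB_R, gN, gP]
    simp
    ring
  rw [hh, h6]
  field_simp

/-- From `tr_g` and `hs_g`. -/
theorem e2_g (a b c d : ℝ) {y : V} (hy : y ≠ 0) :
    ‖y‖ ^ 2 * e2 (fderiv ℝ (gF a b c d) y) = gD a b c d y / ‖y‖ ^ 6 := by
  have hn : ‖y‖ ≠ 0 := norm_ne_zero_iff.2 hy
  have h1 := tr_g a b c d hy
  have h2 := hs_g a b c d hy
  have h3 : ‖y‖ ^ 2 * e2 (fderiv ℝ (gF a b c d) y) = (‖y‖ ^ 2 * (tr (fderiv ℝ (gF a b c d) y)) ^ 2 -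
      ‖y‖ ^ 2 * hs (fderiv ℝ (gF a b c d) y)) / 2 := by
    unfold e2
    ring
  rw [h3, h2, h1]
  have h4 : gD a b c d y = 50 * gP a b c d y ^ 2 - gS a b c d y / 2 := rfl
  rw [h4]
  field_simp
  ring

end Pool.Agent.Lib.MP_e62723_gt.TE
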