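import Pool.Agent.Lib.MP_e62723_gt.TE.Defs

/-!
# JOB Ibp: the bilinear first integration by parts

Copy of the proof of `Reg.ibpA` (`TD/IbpA.lean`; its private lemmas have to be copied with new
names) with two functions: `F̃` comes from `(f, F)` and the scalar factor is `η g`.
For each `i` `LipschitzWith.integral_lineDeriv_mul_eq` for `F̃_i` and `η g` gives (sum over `i`,
`∑ y_i F_i = f` (`Reg.euler`), `∑ F_i G_i = ⟪F, G⟫`)
`∫ η g tr A = -∫ (deriv eta ‖y‖ / ‖y‖) f g - ∫ η ⟪F, G⟫`, and then polar coordinates as in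
`Reg.ibpA`. (`Hom0` of `⟪F, G⟫`: bounded by `‖F‖ ‖G‖`, measurable by `Reg.measF`, homogeneous of
degree `0` by `homF`; `Hom0` of `g tr A`: `(g/‖y‖) (‖y‖ tr A)` with `k.hom0_f`, `h.hom0_tr`.)
-/

open MeasureTheory Set

namespace Pool.Agent.Lib.MP_e62723_gt.TE

open Pool.Agent.Lib.MP_e62723_gt.TD

variable {C D : ℝ} {f g : V → ℝ} {F G : V → V}

private theorem ibp_int {Φ : V → ℝ} (hm : Measurable Φ) (M : ℝ)
    (hM : ∀ y, ‖y‖ ≤ 3 → |Φ y| ≤ M) (h0 : ∀ y, 3 ≤ ‖y‖ → Φ y = 0) : Integrable Φ := by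
  have hs : Function.support Φ ⊆ Metric.closedBall (0 : V) 3 := by
    intro y hy
    rw [Metric.mem_closedBall, dist_zero_right]
    by_contra h
    exact hy (h0 y (not_le.1 h).le)
  rw [← integrableOn_iff_integrable_of_support_subset hs]
  refine Measure.integrableOn_of_bounded (M := M)
    (isCompact_closedBall (0 : V) 3).measure_lt_top.ne hm.aestronglyMeasurable ?_
  refine (ae_restrict_iff' measurableSet_closedBall).2 (Filter.Eventually.of_forall ?_)
  intro y hy
  rw [Metric.mem_closedBall, dist_zero_right] at hy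
  rw [Real.norm_eq_abs]
  exact hM y hy

private theorem ibp_le_one (r : ℝ) : |eta r| ≤ 1 := by
  rw [abs_of_nonneg (eta_nonneg r)]
  exact bump.le_one

private theorem ibp_dbound : ∃ D : ℝ, 0 ≤ D ∧ ∀ r, |deriv eta r| ≤ D := by
  have hc : Continuous (deriv eta) := eta_smooth.continuous_deriv (by norm_num)
  have hs : HasCompactSupport (deriv eta) := by
    refine HasCompactSupport.intro (isCompact_Icc : IsCompact (Icc (1 : ℝ) 3)) fun r hr => ?_
    apply deriv_eta_zero
    by_contra h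
    rw [not_or, not_le, not_le] at h
    exact hr ⟨h.1.le, h.2.le⟩
  obtain ⟨D, hD⟩ := hc.bounded_above_of_compact_support hs
  exact ⟨D, (norm_nonneg _).trans (hD 0), hD⟩

private theorem ibp_inner (x : V) (i : Fin 3) : inner ℝ x (e i) = x i := by
  rw [e, EuclideanSpace.inner_single_right]
  simp

private theorem ibp_coord (x : V) (i : Fin 3) : |x i| ≤ ‖x‖ := by
  have := PiLp.norm_apply_le x i
  rwa [Real.norm_eq_abs] at this

private theorem ibp_meas {G : V → V} (hG : Measurable G) (i : Fin 3) :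
    Measurable (fun y => G y i) :=
  (EuclideanSpace.proj i : V →L[ℝ] ℝ).continuous.measurable.comp hG

/-- The derivative of `eta ‖y‖ * f y`. -/
private theorem ibp_grad (h : Reg C f F) (y : V) : HasFDerivAt (fun z : V => eta ‖z‖ * f z)
    (eta ‖y‖ • innerSL ℝ (F y) + f y • ((deriv eta ‖y‖ / ‖y‖) • innerSL ℝ y)) y := by
  by_cases hy : y = 0
  · subst hy
    have h1 : (fun z : V => eta ‖z‖ * f z) =ᶠ[nhds (0 : V)] fun _ => (0 : ℝ) := by
      filter_upwards [Metric.ball_mem_nhds (0 : V) one_pos] with z hz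
      rw [Metric.mem_ball, dist_zero_right] at hz
      rw [eta_zero (Or.inl hz.le), zero_mul]
    have h2 : eta ‖(0 : V)‖ • innerSL ℝ (F 0) +
        f 0 • ((deriv eta ‖(0 : V)‖ / ‖(0 : V)‖) • innerSL ℝ (0 : V)) = 0 := by
      rw [norm_zero, eta_zero (Or.inl zero_le_one), div_zero, zero_smul, zero_smul, smul_zero,
        add_zero]
    rw [h2]
    exact (hasFDerivAt_const (0 : ℝ) (0 : V)).congr_of_eventuallyEq h1
  · exact (hasFDerivAt_eta y).mul (h.grad y hy)

private theorem ibp_gle (h : Reg C f F) {B D : ℝ} (hB : ∀ y, ‖F y‖ ≤ B)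
    (hD : ∀ r, |deriv eta r| ≤ D) (y : V) :
    ‖eta ‖y‖ • innerSL ℝ (F y) + f y • ((deriv eta ‖y‖ / ‖y‖) • innerSL ℝ y)‖ ≤
      B + B * 3 * D := by
  have hB0 : 0 ≤ B := (norm_nonneg _).trans (hB 0)
  have hD0 : 0 ≤ D := (abs_nonneg _).trans (hD 0)
  refine (norm_add_le _ _).trans (add_le_add ?_ ?_)
  · rw [norm_smul, innerSL_apply_norm, Real.norm_eq_abs]
    calc |eta ‖y‖| * ‖F y‖ ≤ 1 * B :=
          mul_le_mul (ibp_le_one _) (hB y) (norm_nonneg _) zero_le_one
      _ = B := one_mul B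
  · rw [norm_smul, norm_smul, innerSL_apply_norm, Real.norm_eq_abs, Real.norm_eq_abs, abs_div,
      abs_norm]
    by_cases h3 : 3 ≤ ‖y‖
    · rw [deriv_eta_zero (Or.inr h3), abs_zero, zero_div, zero_mul, mul_zero]
      positivity
    · have h4 : |deriv eta ‖y‖| / ‖y‖ * ‖y‖ ≤ D := by
        by_cases h0 : ‖y‖ = 0
        · rw [h0, mul_zero]
          exact hD0
        · rw [div_mul_cancel₀ _ h0]
          exact hD _
      have h5 : |f y| ≤ B * 3 :=
        (h.abs_le hB y).trans (mul_le_mul_of_nonneg_left (not_le.1 h3).le hB0)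
      exact mul_le_mul h5 h4 (by positivity) (by positivity)

private theorem ibp_lip (h : Reg C f F) :
    ∃ D : NNReal, LipschitzWith D (fun z : V => eta ‖z‖ * f z) := by
  obtain ⟨B, -, hB⟩ := h.bound
  obtain ⟨D, -, hD⟩ := ibp_dbound
  have hB0 : 0 ≤ B := (norm_nonneg _).trans (hB 0)
  have hD0 : 0 ≤ D := (abs_nonneg _).trans (hD 0)
  have hM : 0 ≤ B + B * 3 * D := by positivity
  refine ⟨⟨B + B * 3 * D, hM⟩, lipschitzWith_of_nnnorm_fderiv_le (𝕜 := ℝ)
    (fun y => (ibp_grad h y).differentiableAt) fun y => ?_⟩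
  rw [(ibp_grad h y).fderiv]
  exact ibp_gle h hB hD y

private theorem ibp_cpt (f : V → ℝ) : HasCompactSupport (fun z : V => eta ‖z‖ * f z) :=
  cpt_eta.mul_right

/-- One coordinate of the integration by parts. -/
private theorem ibp_one (h : Reg C f F) (k : Reg D g G) (i : Fin 3) :
    ∫ y : V, (fderiv ℝ F y (e i)) i * (eta ‖y‖ * g y) =
      ∫ y : V, -(eta ‖y‖ * (F y i * G y i) + g y * (deriv eta ‖y‖ / ‖y‖ * y i) * F y i) := by
  obtain ⟨D, hD⟩ := h.lipT
  obtain ⟨D', hD'⟩ := ibp_lip k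
  have hFi : LipschitzWith D (fun y : V => ((min ‖y‖ 1) • F y) i) := by
    refine LipschitzWith.of_dist_le_mul fun y z => ?_
    refine le_trans ?_ (hD.dist_le_mul y z)
    rw [dist_eq_norm, dist_eq_norm, Real.norm_eq_abs]
    exact ibp_coord ((min ‖y‖ 1) • F y - (min ‖z‖ 1) • F z) i
  have key := hFi.integral_lineDeriv_mul_eq (μ := volume) hD' (ibp_cpt g) (e i)
  have h1 : (fun y : V => lineDeriv ℝ (fun y : V => ((min ‖y‖ 1) • F y) i) y (e i) *
      (eta ‖y‖ * g y)) =ᵐ[volume] fun y => (fderiv ℝ F y (e i)) i * (eta ‖y‖ * g y) := by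
    filter_upwards [h.ae_diff] with y hy
    by_cases hy1 : ‖y‖ ≤ 1
    · rw [eta_zero (Or.inl hy1), zero_mul, mul_zero, mul_zero]
    · have h2 : (fun y : V => ((min ‖y‖ 1) • F y) i) =ᶠ[nhds y] fun z => F z i := by
        have h3 : ∀ᶠ z in nhds y, 1 < ‖z‖ :=
          continuous_norm.continuousAt.eventually (lt_mem_nhds (not_le.1 hy1))
        filter_upwards [h3] with z hz
        rw [min_eq_right hz.le, one_smul]
      rw [h2.lineDeriv_eq]
      have h4 : HasFDerivAt (fun z => F z i)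
          ((EuclideanSpace.proj i : V →L[ℝ] ℝ).comp (fderiv ℝ F y)) y :=
        (EuclideanSpace.proj i : V →L[ℝ] ℝ).hasFDerivAt.comp y
          hy.2.hasFDerivAt
      rw [(h4.hasLineDerivAt (e i)).lineDeriv]
      rfl
  have h5 : (fun y : V => lineDeriv ℝ (fun z : V => eta ‖z‖ * g z) y (-(e i)) *
      ((min ‖y‖ 1) • F y) i) = fun y =>
        -(eta ‖y‖ * (F y i * G y i) + g y * (deriv eta ‖y‖ / ‖y‖ * y i) * F y i) := by
    funext y
    rw [((ibp_grad k y).hasLineDerivAt (-(e i))).lineDeriv, map_neg]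
    have h6 : (eta ‖y‖ • innerSL ℝ (G y) + g y • ((deriv eta ‖y‖ / ‖y‖) • innerSL ℝ y)) (e i) =
        eta ‖y‖ * G y i + g y * (deriv eta ‖y‖ / ‖y‖ * y i) := by
      rw [_root_.add_apply, _root_.smul_apply,
        _root_.smul_apply, _root_.smul_apply, innerSL_apply_apply,
        innerSL_apply_apply, ibp_inner, ibp_inner]
      simp only [smul_eq_mul]
    have h7 : ((min ‖y‖ 1) • F y) i = min ‖y‖ 1 * F y i := rfl
    rw [h6, h7]
    by_cases hy1 : ‖y‖ ≤ 1
    · rw [eta_zero (Or.inl hy1), deriv_eta_zero (Or.inl hy1)]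
      ring
    · rw [min_eq_right (not_le.1 hy1).le]
      ring
  rw [integral_congr_ae h1, h5] at key
  exact key

private theorem ibp_intA (h : Reg C f F) (k : Reg D g G) (i : Fin 3) :
    Integrable (fun y : V => (fderiv ℝ F y (e i)) i * (eta ‖y‖ * g y)) := by
  obtain ⟨B, hB0, hB⟩ := k.bound
  have hm : Measurable (fun y : V => (fderiv ℝ F y (e i)) i * (eta ‖y‖ * g y)) :=
    (ibp_meas (measurable_fderiv_apply_const ℝ F (e i)) i).mul
      ((eta_smooth.continuous.comp continuous_norm).measurable.mul k.cont.measurable)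
  refine ibp_int hm (C * (1 * (B * 3))) ?_ ?_
  · intro y hy
    by_cases hy1 : ‖y‖ ≤ 1
    · rw [eta_zero (Or.inl hy1), zero_mul, mul_zero, abs_zero]
      exact mul_nonneg h.nonneg (by positivity)
    · have hy1' : 1 < ‖y‖ := not_le.1 hy1
      have hy0 : y ≠ 0 := by
        rintro rfl
        rw [norm_zero] at hy1'
        linarith
      rw [abs_mul, abs_mul]
      have h1 : |(fderiv ℝ F y (e i)) i| ≤ C := by
        refine (ibp_coord _ i).trans ((h.A_norm hy0 (e i)).trans ?_)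
        have h2 : ‖e i‖ = 1 := by
          rw [e]
          simp
        rw [h2, mul_one]
        exact div_le_self h.nonneg hy1'.le
      have h3 : |g y| ≤ B * 3 := (k.abs_le hB y).trans (mul_le_mul_of_nonneg_left hy hB0)
      exact mul_le_mul h1 (mul_le_mul (ibp_le_one _) h3 (abs_nonneg _) zero_le_one)
        (by positivity) h.nonneg
  · intro y hy
    rw [eta_zero (Or.inr hy), zero_mul, mul_zero]

private theorem ibp_intB (h : Reg C f F) (k : Reg D g G) (i : Fin 3) :
    Integrable (fun y : V =>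
      -(eta ‖y‖ * (F y i * G y i) + g y * (deriv eta ‖y‖ / ‖y‖ * y i) * F y i)) := by
  obtain ⟨B, hB0, hB⟩ := h.bound
  obtain ⟨B', hB0', hB'⟩ := k.bound
  obtain ⟨D, hD0, hD⟩ := ibp_dbound
  have hFi := ibp_meas h.measF i
  have hGi := ibp_meas k.measF i
  have hn : Measurable (fun y : V => ‖y‖) := continuous_norm.measurable
  have hd : Measurable (fun y : V => deriv eta ‖y‖) := (measurable_deriv eta).comp hn
  have hm : Measurable (fun y : V =>
      -(eta ‖y‖ * (F y i * G y i) + g y * (deriv eta ‖y‖ / ‖y‖ * y i) * F y i)) :=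
    (((eta_smooth.continuous.measurable.comp hn).mul (hFi.mul hGi)).add
      ((k.cont.measurable.mul ((hd.div hn).mul (ibp_meas measurable_id i))).mul hFi)).neg
  refine ibp_int hm (1 * (B * B') + B' * 3 * D * B) ?_ ?_
  · intro y hy
    rw [abs_neg]
    have hFy : |F y i| ≤ B := (ibp_coord _ i).trans (hB y)
    have hGy : |G y i| ≤ B' := (ibp_coord _ i).trans (hB' y)
    refine (abs_add_le _ _).trans (add_le_add ?_ ?_)
    · rw [abs_mul, abs_mul]
      exact mul_le_mul (ibp_le_one _) (mul_le_mul hFy hGy (abs_nonneg _) hB0) (by positivity)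
        zero_le_one
    · rw [abs_mul, abs_mul, abs_mul, abs_div, abs_norm]
      have h3 : |g y| ≤ B' * 3 := (k.abs_le hB' y).trans (mul_le_mul_of_nonneg_left hy hB0')
      have h4 : |deriv eta ‖y‖| / ‖y‖ * |y i| ≤ D := by
        by_cases h0 : ‖y‖ = 0
        · rw [h0, div_zero, zero_mul]
          exact hD0
        · calc |deriv eta ‖y‖| / ‖y‖ * |y i| ≤ |deriv eta ‖y‖| / ‖y‖ * ‖y‖ :=
                mul_le_mul_of_nonneg_left (ibp_coord y i) (by positivity)
            _ = |deriv eta ‖y‖| := div_mul_cancel₀ _ h0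
            _ ≤ D := hD _
      exact mul_le_mul (mul_le_mul h3 h4 (by positivity) (by positivity)) hFy (abs_nonneg _)
        (by positivity)
  · intro y hy
    rw [eta_zero (Or.inr hy), deriv_eta_zero (Or.inr hy)]
    ring

private theorem ibp_w (k : ℕ) : IntegrableOn (fun r => eta r * r ^ k) (Ioi 0) := by
  have hs : HasCompactSupport (fun r : ℝ => eta r * r ^ k) := by
    refine HasCompactSupport.intro (isCompact_Icc : IsCompact (Icc (1 : ℝ) 3)) fun r hr => ?_
    have h1 : eta r = 0 := by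
      apply eta_zero
      by_contra h
      rw [not_or, not_le, not_le] at h
      exact hr ⟨h.1.le, h.2.le⟩
    rw [h1, zero_mul]
  exact ((eta_smooth.continuous.mul (continuous_pow k)).integrable_of_hasCompactSupport
    hs).integrableOn

private theorem ibp_w' : IntegrableOn (fun r => deriv eta r * r * r ^ 2) (Ioi 0) := by
  have hs : HasCompactSupport (fun r : ℝ => deriv eta r * r * r ^ 2) := by
    refine HasCompactSupport.intro (isCompact_Icc : IsCompact (Icc (1 : ℝ) 3)) fun r hr => ?_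
    have h1 : deriv eta r = 0 := by
      apply deriv_eta_zero
      by_contra h
      rw [not_or, not_le, not_le] at h
      exact hr ⟨h.1.le, h.2.le⟩
    rw [h1, zero_mul, zero_mul]
  have hc : Continuous (deriv eta) := eta_smooth.continuous_deriv (by norm_num)
  exact (((hc.mul continuous_id).mul (continuous_pow 2)).integrable_of_hasCompactSupport
    hs).integrableOn

theorem hom0_FG (h : Reg C f F) (k : Reg D g G) : Hom0 (fun y => inner ℝ (F y) (G y)) := by
  obtain ⟨B, hB0, hB⟩ := h.bound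
  obtain ⟨B', hB0', hB'⟩ := k.bound
  refine ⟨h.measF.inner k.measF, fun t y ht => ?_, B * B', fun y => ?_⟩
  · rw [h.homF t y ht, k.homF t y ht]
  · exact (abs_real_inner_le_norm _ _).trans
      (mul_le_mul (hB y) (hB' y) (norm_nonneg _) hB0)

theorem hom0_gtr (h : Reg C f F) (k : Reg D g G) : Hom0 (fun y => g y * tr (fderiv ℝ F y)) := by
  have h1 := k.hom0_f.mul h.hom0_tr
  have h2 : (fun y => g y * tr (fderiv ℝ F y)) =
      fun y => g y / ‖y‖ * (‖y‖ * tr (fderiv ℝ F y)) := by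
    funext y
    rcases eq_or_ne y 0 with rfl | hy
    · rw [k.f_zero]
      ring
    · have hy' : ‖y‖ ≠ 0 := norm_ne_zero_iff.2 hy
      field_simp
  rw [h2]
  exact h1

theorem ibpX (h : Reg C f F) (k : Reg D g G) :
    bi (fun y => g y * tr (fderiv ℝ F y)) =
      3 * bi (fun y => f y / ‖y‖ * (g y / ‖y‖)) - bi (fun y => inner ℝ (F y) (G y)) := by
  obtain ⟨-, h1⟩ := (hom0_gtr h k).polar eta_smooth.continuous.measurable (ibp_w 2)
  obtain ⟨i2, h2⟩ := (hom0_FG h k).polar eta_smooth.continuous.measurable (ibp_w 2)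
  obtain ⟨i3, h3⟩ := (h.hom0_f.mul k.hom0_f).polar (w := fun r => deriv eta r * r)
    ((measurable_deriv eta).mul measurable_id) ibp_w'
  have h4 : ∫ r in Ioi (0 : ℝ), deriv eta r * r * r ^ 2 =
      -(3 * ∫ r in Ioi (0 : ℝ), eta r * r ^ 2) := by
    rw [← int_deriv3]
    refine integral_congr_ae (Filter.Eventually.of_forall fun r => ?_)
    change deriv eta r * r * r ^ 2 = deriv eta r * r ^ 3
    ring
  rw [h4] at h3
  have h5 : ∫ y : V, g y * tr (fderiv ℝ F y) * eta ‖y‖ =
      ∑ i, ∫ y : V, (fderiv ℝ F y (e i)) i * (eta ‖y‖ * g y) := by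
    rw [← integral_finsetSum _ fun i _ => ibp_intA h k i]
    refine integral_congr_ae (Filter.Eventually.of_forall fun y => ?_)
    change g y * tr (fderiv ℝ F y) * eta ‖y‖ = ∑ i, (fderiv ℝ F y (e i)) i * (eta ‖y‖ * g y)
    rw [← Finset.sum_mul, tr]
    ring
  have h6 : ∑ i, ∫ y : V,
      -(eta ‖y‖ * (F y i * G y i) + g y * (deriv eta ‖y‖ / ‖y‖ * y i) * F y i) =
      -(∫ y : V, inner ℝ (F y) (G y) * eta ‖y‖) -
        ∫ y : V, f y / ‖y‖ * (g y / ‖y‖) * (deriv eta ‖y‖ * ‖y‖) := by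
    have i2' : Integrable (fun y : V => -(inner ℝ (F y) (G y) * eta ‖y‖)) := i2.neg
    rw [← integral_finsetSum _ fun i _ => ibp_intB h k i, ← integral_neg,
      ← integral_sub i2' i3]
    refine integral_congr_ae (Filter.Eventually.of_forall fun y => ?_)
    change ∑ i, -(eta ‖y‖ * (F y i * G y i) + g y * (deriv eta ‖y‖ / ‖y‖ * y i) * F y i) =
      -(inner ℝ (F y) (G y) * eta ‖y‖) - f y / ‖y‖ * (g y / ‖y‖) * (deriv eta ‖y‖ * ‖y‖)
    have e1 : ∑ i, F y i * G y i = inner ℝ (F y) (G y) := by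
      rw [PiLp.inner_apply]
      refine Finset.sum_congr rfl fun i _ => ?_
      simp [mul_comm]
    have e2 : ∑ i, y i * F y i = f y := by
      rw [← h.euler y, PiLp.inner_apply]
      refine Finset.sum_congr rfl fun i _ => ?_
      simp
    have e3 : ∑ i, -(eta ‖y‖ * (F y i * G y i) + g y * (deriv eta ‖y‖ / ‖y‖ * y i) * F y i) =
        -(eta ‖y‖ * ∑ i, F y i * G y i) - g y * (deriv eta ‖y‖ / ‖y‖) * ∑ i, y i * F y i := by
      rw [Finset.mul_sum, Finset.mul_sum, ← Finset.sum_neg_distrib, ← Finset.sum_sub_distrib]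
      refine Finset.sum_congr rfl fun i _ => ?_
      ring
    rw [e3, e1, e2]
    by_cases h0 : ‖y‖ = 0
    · rw [h0, deriv_eta_zero (Or.inl zero_le_one)]
      ring
    · field_simp
  have h7 : ∫ y : V, g y * tr (fderiv ℝ F y) * eta ‖y‖ =
      -(∫ y : V, inner ℝ (F y) (G y) * eta ‖y‖) -
        ∫ y : V, f y / ‖y‖ * (g y / ‖y‖) * (deriv eta ‖y‖ * ‖y‖) := by
    rw [h5, ← h6]
    exact Finset.sum_congr rfl fun i _ => ibp_one h k i
  rw [h1, h2, h3] at h7
  have h8 := int_pos2
  have h9 : (3 * ∫ r in Ioi (0 : ℝ), eta r * r ^ 2) ≠ 0 := by positivity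
  apply mul_left_cancel₀ h9
  rw [h7]
  ring

end Pool.Agent.Lib.MP_e62723_gt.TE
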