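import Pool.Agent.Lib.MP_e62723_gt.TE.Defs

/-!
# JOB Lin: linear algebra

Let `M` be symmetric with a nonzero kernel vector `u`. Let `b` be an orthonormal basis of
eigenvectors of `M` (`LinearMap.IsSymmetric.eigenvectorBasis`, `n = 3`), `M (b i) = m i • b i`.
`ip L M`, `hs M = ip M M` and `tr M = ∑ ⟪M (e i), e i⟫` can be computed in the basis `b`:
`ip L M = ∑ i, ⟪L (b i), M (b i)⟫` (expand: `∑ i, ⟪L e_i, M e_i⟫ = ∑ i, ⟪M L e_i, e_i⟫ =
trace (M ∘ L)`, for symmetric `M`, and the trace of a linear map is `∑ ⟪b i, T (b i)⟫` for every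
orthonormal basis: `LinearMap.trace_eq_sum_inner`; the standard basis is
`EuclideanSpace.basisFun`). So `hs M = ∑ m i²`, `tr M = ∑ m i`.
One `m i` is zero: `0 = ⟪M u, b i⟫ = m i ⟪u, b i⟫` and `⟪u, b i⟫ ≠ 0` for some `i`.
So if (say) `m 2 = 0`: `e2 M = m 0 * m 1`, `|e2 M| ≤ (m 0² + m 1²)/2`, and
`ip L M = ∑ m i ⟪L (b i), b i⟫ ≤ C (|m 0| + |m 1|)`,
`(|m 0| + |m 1|)² = m 0² + m 1² + 2 |m 0 m 1| = hs M + 2 |e2 M|`.
-/

open MeasureTheory Set

namespace Pool.Agent.Lib.MP_e62723_gt.TE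

open Pool.Agent.Lib.MP_e62723_gt.TD

private theorem lin_sum (L M : V →L[ℝ] V)
    (hM : ∀ v w : V, inner ℝ (M v) w = inner ℝ (M w) v) (b : OrthonormalBasis (Fin 3) ℝ V) :
    ∑ i, inner ℝ (L (b i)) (M (b i)) =
      LinearMap.trace ℝ V ((M : V →ₗ[ℝ] V) ∘ₗ (L : V →ₗ[ℝ] V)) := by
  rw [LinearMap.trace_eq_sum_inner _ b]
  refine Finset.sum_congr rfl fun i _ => ?_
  rw [real_inner_comm, hM, real_inner_comm]
  rfl

private theorem lin_e (i : Fin 3) : e i = EuclideanSpace.basisFun (Fin 3) ℝ i := by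
  rw [EuclideanSpace.basisFun_apply]
  rfl

private theorem lin_ip (L M : V →L[ℝ] V)
    (hM : ∀ v w : V, inner ℝ (M v) w = inner ℝ (M w) v) (b : OrthonormalBasis (Fin 3) ℝ V) :
    ip L M = ∑ i, inner ℝ (L (b i)) (M (b i)) := by
  rw [lin_sum L M hM b, ← lin_sum L M hM (EuclideanSpace.basisFun (Fin 3) ℝ)]
  unfold ip
  refine Finset.sum_congr rfl fun i _ => ?_
  rw [lin_e]

private theorem lin_tr (M : V →L[ℝ] V) (b : OrthonormalBasis (Fin 3) ℝ V) :
    tr M = ∑ i, inner ℝ (b i) (M (b i)) := by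
  have h1 := LinearMap.trace_eq_sum_inner (M : V →ₗ[ℝ] V) b
  have h2 := LinearMap.trace_eq_sum_inner (M : V →ₗ[ℝ] V) (EuclideanSpace.basisFun (Fin 3) ℝ)
  rw [h2] at h1
  have h3 : tr M = ∑ i, inner ℝ ((EuclideanSpace.basisFun (Fin 3) ℝ) i)
      ((M : V →ₗ[ℝ] V) ((EuclideanSpace.basisFun (Fin 3) ℝ) i)) := by
    unfold tr
    refine Finset.sum_congr rfl fun i _ => ?_
    rw [← lin_e]
    unfold e
    rw [EuclideanSpace.inner_single_left]
    simp
  rw [h3, h1]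
  rfl

private theorem lin_hs (M : V →L[ℝ] V) : hs M = ip M M := by
  unfold hs ip
  refine Finset.sum_congr rfl fun i _ => ?_
  rw [real_inner_self_eq_norm_sq]

/-- the eigenvalues -/
private theorem lin_main {M : V →L[ℝ] V}
    (hM : ∀ v w : V, inner ℝ (M v) w = inner ℝ (M w) v) {u : V} (hu : u ≠ 0) (hMu : M u = 0) :
    ∃ (b : OrthonormalBasis (Fin 3) ℝ V) (m : Fin 3 → ℝ), (∀ i, M (b i) = m i • b i) ∧
      tr M = m 0 + m 1 + m 2 ∧ hs M = m 0 ^ 2 + m 1 ^ 2 + m 2 ^ 2 ∧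
      (m 0 = 0 ∨ m 1 = 0 ∨ m 2 = 0) := by
  have hsym : (M : V →ₗ[ℝ] V).IsSymmetric := by
    intro v w
    show inner ℝ (M v) w = inner ℝ v (M w)
    rw [hM, real_inner_comm]
  have hn : Module.finrank ℝ V = 3 := by simp [V]
  refine ⟨hsym.eigenvectorBasis hn, hsym.eigenvalues hn, ?_, ?_, ?_, ?_⟩
  · intro i
    exact hsym.apply_eigenvectorBasis hn i
  · rw [lin_tr M (hsym.eigenvectorBasis hn), Fin.sum_univ_three]
    have h : ∀ i, M (hsym.eigenvectorBasis hn i) =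
        (hsym.eigenvalues hn i : ℝ) • hsym.eigenvectorBasis hn i :=
      fun i => hsym.apply_eigenvectorBasis hn i
    simp only [h, real_inner_smul_right, real_inner_self_eq_norm_sq, OrthonormalBasis.norm_eq_one,
      one_pow, mul_one]
  · rw [lin_hs, lin_ip M M hM (hsym.eigenvectorBasis hn), Fin.sum_univ_three]
    have h : ∀ i, M (hsym.eigenvectorBasis hn i) =
        (hsym.eigenvalues hn i : ℝ) • hsym.eigenvectorBasis hn i :=
      fun i => hsym.apply_eigenvectorBasis hn i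
    simp only [h, real_inner_self_eq_norm_sq, norm_smul, OrthonormalBasis.norm_eq_one, mul_one,
      Real.norm_eq_abs, sq_abs]
  · by_contra hcon
    push Not at hcon
    obtain ⟨h0, h1, h2⟩ := hcon
    have hne : ∀ i, hsym.eigenvalues hn i ≠ 0 := by
      intro i
      fin_cases i
      · exact h0
      · exact h1
      · exact h2
    apply hu
    have hz : ∀ i, inner ℝ (hsym.eigenvectorBasis hn i) u = 0 := by
      intro i
      have h : M (hsym.eigenvectorBasis hn i) =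
        (hsym.eigenvalues hn i : ℝ) • hsym.eigenvectorBasis hn i :=
        hsym.apply_eigenvectorBasis hn i
      have h3 := hM (hsym.eigenvectorBasis hn i) u
      rw [h, hMu, inner_zero_left, real_inner_smul_left] at h3
      exact (mul_eq_zero.1 h3).resolve_left (hne i)
    rw [← (hsym.eigenvectorBasis hn).sum_repr' u]
    simp [hz]

private theorem lin_abs {x y z : ℝ} (h : x = 0 ∨ y = 0 ∨ z = 0) :
    (|x| + |y| + |z|) ^ 2 = x ^ 2 + y ^ 2 + z ^ 2 +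
      2 * |((x + y + z) ^ 2 - (x ^ 2 + y ^ 2 + z ^ 2)) / 2| := by
  have key : ∀ p q : ℝ, (|p| + |q|) ^ 2 = p ^ 2 + q ^ 2 + 2 * |p * q| := by
    intro p q
    rw [abs_mul, add_sq, sq_abs, sq_abs]
    ring
  rcases h with rfl | rfl | rfl
  · have h1 : ((0 + y + z) ^ 2 - (0 ^ 2 + y ^ 2 + z ^ 2)) / 2 = y * z := by ring
    rw [h1, abs_zero, zero_add, key y z]
    ring
  · have h1 : ((x + 0 + z) ^ 2 - (x ^ 2 + 0 ^ 2 + z ^ 2)) / 2 = x * z := by ring
    rw [h1, abs_zero, add_zero, key x z]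
    ring
  · have h1 : ((x + y + 0) ^ 2 - (x ^ 2 + y ^ 2 + 0 ^ 2)) / 2 = x * y := by ring
    rw [h1, abs_zero, add_zero, key x y]
    ring

theorem ip_le {L M : V →L[ℝ] V} (hM : ∀ v w : V, inner ℝ (M v) w = inner ℝ (M w) v)
    {C : ℝ} (hC : ∀ v : V, ‖L v‖ ≤ C * ‖v‖) {u : V} (hu : u ≠ 0) (hMu : M u = 0) :
    ip L M ≤ C * √(hs M + 2 * |e2 M|) := by
  obtain ⟨b, m, hb, htr, hhs, h0⟩ := lin_main hM hu hMu
  have hsq : √(hs M + 2 * |e2 M|) = |m 0| + |m 1| + |m 2| := by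
    unfold e2
    rw [htr, hhs, ← lin_abs h0]
    exact Real.sqrt_sq (by positivity)
  rw [hsq, lin_ip L M hM b, Fin.sum_univ_three]
  have hi : ∀ i, inner ℝ (L (b i)) (M (b i)) ≤ C * |m i| := by
    intro i
    rw [hb, real_inner_smul_right]
    have h1 : |inner ℝ (L (b i)) (b i)| ≤ C := by
      refine (abs_real_inner_le_norm _ _).trans ?_
      have h2 := hC (b i)
      rw [b.norm_eq_one, mul_one] at h2 ⊢
      exact h2
    calc m i * inner ℝ (L (b i)) (b i) ≤ |m i * inner ℝ (L (b i)) (b i)| := le_abs_self _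
      _ = |m i| * |inner ℝ (L (b i)) (b i)| := abs_mul _ _
      _ ≤ |m i| * C := mul_le_mul_of_nonneg_left h1 (abs_nonneg _)
      _ = C * |m i| := mul_comm _ _
  have h0' := hi 0
  have h1' := hi 1
  have h2' := hi 2
  linarith

theorem e2_le {M : V →L[ℝ] V} (hM : ∀ v w : V, inner ℝ (M v) w = inner ℝ (M w) v)
    {u : V} (hu : u ≠ 0) (hMu : M u = 0) : 2 * |e2 M| ≤ hs M := by
  obtain ⟨b, m, hb, htr, hhs, h0⟩ := lin_main hM hu hMu
  have key : ∀ p q : ℝ, 2 * |p * q| ≤ p ^ 2 + q ^ 2 := by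
    intro p q
    rw [abs_mul]
    nlinarith [sq_nonneg (|p| - |q|), sq_abs p, sq_abs q]
  unfold e2
  rw [htr, hhs]
  rcases h0 with h | h | h
  · have h1 : ((m 0 + m 1 + m 2) ^ 2 - (m 0 ^ 2 + m 1 ^ 2 + m 2 ^ 2)) / 2 = m 1 * m 2 := by
      rw [h]; ring
    rw [h1, h]
    have h2 := key (m 1) (m 2)
    linarith
  · have h1 : ((m 0 + m 1 + m 2) ^ 2 - (m 0 ^ 2 + m 1 ^ 2 + m 2 ^ 2)) / 2 = m 0 * m 2 := by
      rw [h]; ring
    rw [h1, h]
    have h2 := key (m 0) (m 2)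
    linarith
  · have h1 : ((m 0 + m 1 + m 2) ^ 2 - (m 0 ^ 2 + m 1 ^ 2 + m 2 ^ 2)) / 2 = m 0 * m 1 := by
      rw [h]; ring
    rw [h1, h]
    have h2 := key (m 0) (m 1)
    linarith

end Pool.Agent.Lib.MP_e62723_gt.TE
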