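import Pool.Agent.Lib.MP_e62723_gt.TE.Defs

/-!
# JOB Tri: the trilinear form of `f`

`tri_lin`: additivity and homogeneity in each variable (integrability of
`f/‖y‖ * (⟪x,y⟫/‖y‖ * (⟪x',y⟫/‖y‖) * (⟪x'',y⟫/‖y‖))`: `Hom0.intBall` of products of `h.hom0_f` and
`hom0_inner`), as in `TD/Cen.lean` (`cenL`, `cenT`). One can build the linear maps by
`LinearMap.mk₂` in the two last variables and `LinearMap` in the first, or use
`{toFun, map_add', map_smul'}` three times (with the symmetries `tri_swap`, `tri_swap'` only one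
additivity has to be computed).
`tri_trace`: `∑ i, ⟪U (e i), y⟫² = ‖y‖²` (`U (e i)` is an orthonormal basis:
`⟪U (e i), y⟫ = ⟪e i, U.symm y⟫ = (U.symm y) i`, `EuclideanSpace.real_norm_sq_eq`), so the sum is
`bi (f/‖y‖ * (⟪v,y⟫/‖y‖)) = 0` (pull the finite sum inside the integral, `integral_finsetSum`; at
`y = 0` the integrands vanish as `f 0 = 0`).
-/

open MeasureTheory Set

namespace Pool.Agent.Lib.MP_e62723_gt.TE

open Pool.Agent.Lib.MP_e62723_gt.TD

variable {C : ℝ} {f : V → ℝ} {F : V → V}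

private theorem triInt {Ψ : V → ℝ} (h : Hom0 Ψ) (x : V) :
    Hom0 (fun y : V => Ψ y * (inner ℝ x y / ‖y‖)) :=
  h.mul (hom0_inner x)

private noncomputable def triL (Ψ : V → ℝ) (h : Hom0 Ψ) : V →ₗ[ℝ] ℝ where
  toFun x := bi (fun y => Ψ y * (inner ℝ x y / ‖y‖))
  map_add' x x' := by
    show bi (fun y => Ψ y * (inner ℝ (x + x') y / ‖y‖)) =
      bi (fun y => Ψ y * (inner ℝ x y / ‖y‖)) + bi (fun y => Ψ y * (inner ℝ x' y / ‖y‖))
    unfold bi
    rw [← integral_add (triInt h x).intBall (triInt h x').intBall]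
    refine integral_congr_ae (Filter.Eventually.of_forall fun y => ?_)
    show Ψ y * (inner ℝ (x + x') y / ‖y‖) =
      Ψ y * (inner ℝ x y / ‖y‖) + Ψ y * (inner ℝ x' y / ‖y‖)
    rw [inner_add_left, add_div, mul_add]
  map_smul' a x := by
    show bi (fun y => Ψ y * (inner ℝ (a • x) y / ‖y‖)) =
      a * bi (fun y => Ψ y * (inner ℝ x y / ‖y‖))
    unfold bi
    rw [← integral_const_mul]
    refine integral_congr_ae (Filter.Eventually.of_forall fun y => ?_)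
    show Ψ y * (inner ℝ (a • x) y / ‖y‖) = a * (Ψ y * (inner ℝ x y / ‖y‖))
    rw [real_inner_smul_left]
    ring

private theorem triL_apply (Ψ : V → ℝ) (h : Hom0 Ψ) (x : V) :
    triL Ψ h x = bi (fun y => Ψ y * (inner ℝ x y / ‖y‖)) := rfl

private theorem triL_swap (Ψ : V → ℝ) (h : Hom0 Ψ) (x x' : V) :
    triL _ (triInt h x) x' = triL _ (triInt h x') x := by
  rw [triL_apply, triL_apply]
  unfold bi
  refine integral_congr_ae (Filter.Eventually.of_forall fun y => ?_)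
  exact mul_right_comm _ _ _

private noncomputable def triM (Ψ : V → ℝ) (h : Hom0 Ψ) : V →ₗ[ℝ] V →ₗ[ℝ] ℝ where
  toFun x := triL _ (triInt h x)
  map_add' x x' := by
    refine LinearMap.ext fun x'' => ?_
    rw [LinearMap.add_apply, triL_swap Ψ h (x + x'), triL_swap Ψ h x, triL_swap Ψ h x', map_add]
  map_smul' a x := by
    refine LinearMap.ext fun x'' => ?_
    rw [LinearMap.smul_apply, triL_swap Ψ h (a • x), triL_swap Ψ h x, map_smul]
    rfl

private theorem triM_apply (Ψ : V → ℝ) (h : Hom0 Ψ) (x x' : V) :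
    triM Ψ h x x' = triL _ (triInt h x) x' := rfl

private theorem triM_apply' (Ψ : V → ℝ) (h : Hom0 Ψ) (x x' : V) :
    triM Ψ h x x' = bi (fun y => Ψ y * (inner ℝ x y / ‖y‖) * (inner ℝ x' y / ‖y‖)) := rfl

private theorem triM_swap (Ψ : V → ℝ) (h : Hom0 Ψ) (x x' : V) :
    triM Ψ h x x' = triM Ψ h x' x := by
  rw [triM_apply, triM_apply, triL_swap Ψ h x]

private theorem triM_rot (Ψ : V → ℝ) (h : Hom0 Ψ) (x x' x'' : V) :
    triM _ (triInt h x) x' x'' = triM _ (triInt h x') x x'' := by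
  rw [triM_apply', triM_apply']
  unfold bi
  refine integral_congr_ae (Filter.Eventually.of_forall fun y => ?_)
  show Ψ y * (inner ℝ x y / ‖y‖) * (inner ℝ x' y / ‖y‖) * (inner ℝ x'' y / ‖y‖) =
    Ψ y * (inner ℝ x' y / ‖y‖) * (inner ℝ x y / ‖y‖) * (inner ℝ x'' y / ‖y‖)
  ring

private noncomputable def triN (Ψ : V → ℝ) (h : Hom0 Ψ) : V →ₗ[ℝ] V →ₗ[ℝ] V →ₗ[ℝ] ℝ where
  toFun x := triM _ (triInt h x)
  map_add' x x' := by
    refine LinearMap.ext fun z => LinearMap.ext fun w => ?_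
    rw [LinearMap.add_apply, LinearMap.add_apply, triM_rot Ψ h (x + x'), triM_rot Ψ h x,
      triM_rot Ψ h x', map_add, LinearMap.add_apply]
  map_smul' a x := by
    refine LinearMap.ext fun z => LinearMap.ext fun w => ?_
    rw [LinearMap.smul_apply, LinearMap.smul_apply, triM_rot Ψ h (a • x), triM_rot Ψ h x,
      map_smul, LinearMap.smul_apply]
    rfl

private theorem triN_apply (Ψ : V → ℝ) (h : Hom0 Ψ) (x x' x'' : V) :
    triN Ψ h x x' x'' =
      bi (fun y => Ψ y * (inner ℝ x y / ‖y‖) * (inner ℝ x' y / ‖y‖) * (inner ℝ x'' y / ‖y‖)) :=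
  rfl

private theorem triN_eq (f : V → ℝ) (h : Hom0 (fun y : V => f y / ‖y‖)) (x x' x'' : V) :
    triN _ h x x' x'' = tri f x x' x'' := by
  rw [triN_apply]
  unfold tri bi
  refine integral_congr_ae (Filter.Eventually.of_forall fun y => ?_)
  show f y / ‖y‖ * (inner ℝ x y / ‖y‖) * (inner ℝ x' y / ‖y‖) * (inner ℝ x'' y / ‖y‖) =
    f y / ‖y‖ * (inner ℝ x y / ‖y‖ * (inner ℝ x' y / ‖y‖) * (inner ℝ x'' y / ‖y‖))
  ring

private theorem triHom (h : Reg C f F) (x x' x'' : V) :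
    Hom0 (fun y : V => f y / ‖y‖ *
      (inner ℝ x y / ‖y‖ * (inner ℝ x' y / ‖y‖) * (inner ℝ x'' y / ‖y‖))) :=
  h.hom0_f.mul (((hom0_inner x).mul (hom0_inner x')).mul (hom0_inner x''))

private theorem tri_sq (U : V ≃ₗᵢ[ℝ] V) (y : V) :
    ∑ i, (inner ℝ (U (e i)) y : ℝ) ^ 2 = ‖y‖ ^ 2 := by
  have h1 : ∀ i, (inner ℝ (U (e i)) y : ℝ) = (U.symm y) i := by
    intro i
    have h2 : (inner ℝ (U (e i)) y : ℝ) = inner ℝ (U (e i)) (U (U.symm y)) := by
      rw [LinearIsometryEquiv.apply_symm_apply]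
    rw [h2, LinearIsometryEquiv.inner_map_map]
    unfold e
    rw [EuclideanSpace.inner_single_left]
    simp
  have h3 : ‖y‖ ^ 2 = ‖U.symm y‖ ^ 2 := by rw [LinearIsometryEquiv.norm_map]
  rw [h3, EuclideanSpace.real_norm_sq_eq]
  exact Finset.sum_congr rfl fun i _ => by rw [h1]

theorem tri_swap (f : V → ℝ) (x x' x'' : V) : tri f x x' x'' = tri f x' x x'' := by
  unfold tri bi
  refine integral_congr_ae (Filter.Eventually.of_forall fun y => ?_)
  show f y / ‖y‖ * (inner ℝ x y / ‖y‖ * (inner ℝ x' y / ‖y‖) * (inner ℝ x'' y / ‖y‖)) =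
    f y / ‖y‖ * (inner ℝ x' y / ‖y‖ * (inner ℝ x y / ‖y‖) * (inner ℝ x'' y / ‖y‖))
  ring

theorem tri_swap' (f : V → ℝ) (x x' x'' : V) : tri f x x' x'' = tri f x x'' x' := by
  unfold tri bi
  refine integral_congr_ae (Filter.Eventually.of_forall fun y => ?_)
  show f y / ‖y‖ * (inner ℝ x y / ‖y‖ * (inner ℝ x' y / ‖y‖) * (inner ℝ x'' y / ‖y‖)) =
    f y / ‖y‖ * (inner ℝ x y / ‖y‖ * (inner ℝ x'' y / ‖y‖) * (inner ℝ x' y / ‖y‖))
  ring

theorem tri_lin (h : Reg C f F) :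
    ∃ T : V →ₗ[ℝ] V →ₗ[ℝ] V →ₗ[ℝ] ℝ, ∀ x x' x'', T x x' x'' = tri f x x' x'' := by
  exact ⟨triN _ h.hom0_f, fun x x' x'' => triN_eq f h.hom0_f x x' x''⟩

theorem tri_trace (h : Reg C f F)
    (hcen : ∀ x : V, bi (fun y => f y / ‖y‖ * (inner ℝ x y / ‖y‖)) = 0)
    (U : V ≃ₗᵢ[ℝ] V) (v : V) : ∑ i, tri f (U (e i)) (U (e i)) v = 0 := by
  have h1 : ∑ i, tri f (U (e i)) (U (e i)) v =
      bi (fun y => ∑ i, f y / ‖y‖ *
        (inner ℝ (U (e i)) y / ‖y‖ * (inner ℝ (U (e i)) y / ‖y‖) * (inner ℝ v y / ‖y‖))) := by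
    unfold tri bi
    exact (integral_finsetSum _ fun i _ => (triHom h (U (e i)) (U (e i)) v).intBall).symm
  rw [h1, ← hcen v]
  unfold bi
  refine integral_congr_ae (Filter.Eventually.of_forall fun y => ?_)
  show ∑ i, f y / ‖y‖ *
        (inner ℝ (U (e i)) y / ‖y‖ * (inner ℝ (U (e i)) y / ‖y‖) * (inner ℝ v y / ‖y‖)) =
    f y / ‖y‖ * (inner ℝ v y / ‖y‖)
  rw [← Finset.mul_sum, ← Finset.sum_mul]
  by_cases hy : ‖y‖ = 0
  · rw [hy]
    simp
  · have h2 : ∑ i, (inner ℝ (U (e i)) y : ℝ) / ‖y‖ * (inner ℝ (U (e i)) y / ‖y‖) = 1 := by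
      have h3 : ∀ i, (inner ℝ (U (e i)) y : ℝ) / ‖y‖ * (inner ℝ (U (e i)) y / ‖y‖) =
          (inner ℝ (U (e i)) y : ℝ) ^ 2 / ‖y‖ ^ 2 := by
        intro i
        rw [div_mul_div_comm, sq, sq]
      rw [Finset.sum_congr rfl fun i _ => h3 i, ← Finset.sum_div, tri_sq,
        div_self (pow_ne_zero 2 hy)]
    rw [h2, one_mul]

end Pool.Agent.Lib.MP_e62723_gt.TE
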