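import Pool.Agent.Lib.MP_e62723_gt.TE.Rot
import Pool.Agent.Lib.MP_e62723_gt.TE.Tri
import Pool.Agent.Lib.MP_e62723_gt.TE.Fra

/-!
# JOB Nor: reduction to the normal form

Let `(f₁, F₁)` be the centred pair of `Reg.exists_center` (odd, even, same `fderiv`). As in
`Reg.J_le` (`TD/Main.lean`, `e1`), `bi (f₁ tr A₁) = bi (f tr A)`: by `Reg.ibpB` both sides only
depend on `fderiv`. Let `T` be the trilinear form of `f₁` (`tri_lin`; symmetric by `tri_swap`,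
`tri_swap'`), `U` the isometry of `exists_frame`, `f' y = f₁ (U y)`, `F' y = U.symm (F₁ (U y))`
(`reg_rot`, `ftr_rot`; odd, even: `U (-y) = -U y`; centred by `bi_rot`:
`⟪x, y⟫ = ⟪U x, U y⟫`). By `tri_rot`, with `t i j k = tri f' (e i) (e j) (e k)`:
`t 2 2 0 = 0`, `t 2 2 1 = 0`, `t 2 0 1 = 0`; and by `tri_trace` (for `f'`, which is centred, and the
identity isometry) `t 0 0 v + t 1 1 v + t 2 2 v = 0` for `v = 0, 1, 2`:
`t 1 1 0 = -t 0 0 0`, `t 0 0 1 = -t 1 1 1`, `t 0 0 2 + t 1 1 2 = -t 2 2 2`.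
`⟪e i, y⟫ = y i`; so the moments of `Nf` are the `t i j k` (for all `y`, also `y = 0`:
`y 0 ^ 3 / ‖y‖ ^ 3 = (y 0 / ‖y‖) ^ 3` by `div_pow`). With `κ = kappa 3 > 0`
(`kappa_three` of `TD/Main.lean`) take
`c = 35/(2κ) t 0 0 0`, `d = -35/(2κ) t 1 1 1`, `a = 35/(4κ) t 2 2 2`,
`b = 3 (35/(2κ) t 0 0 2 + a)`.
-/

open MeasureTheory Set

namespace Pool.Agent.Lib.MP_e62723_gt.TE

open Pool.Agent.Lib.MP_e62723_gt.TD

variable {f : V → ℝ} {F : V → V}

private theorem nor_mom (g : V → ℝ) (i j k : Fin 3) :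
    bi (fun y => g y / ‖y‖ * (y i * y j * y k / ‖y‖ ^ 3)) = tri g (e i) (e j) (e k) := by
  have hin : ∀ (l : Fin 3) (y : V), inner ℝ (e l) y = y l := by
    intro l y
    unfold e
    rw [EuclideanSpace.inner_single_left]
    simp
  unfold tri bi
  refine integral_congr_ae (Filter.Eventually.of_forall fun y => ?_)
  show g y / ‖y‖ * (y i * y j * y k / ‖y‖ ^ 3) =
    g y / ‖y‖ * (inner ℝ (e i) y / ‖y‖ * (inner ℝ (e j) y / ‖y‖) * (inner ℝ (e k) y / ‖y‖))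
  rw [hin, hin, hin]
  ring

private theorem nor_mom' (g : V → ℝ) (i j k : Fin 3) (q : V → ℝ)
    (hq : ∀ y : V, q y = y i * y j * y k) {s : ℝ} (hs : tri g (e i) (e j) (e k) = s) :
    bi (fun y => g y / ‖y‖ * (q y / ‖y‖ ^ 3)) = s := by
  have h1 : (fun y => g y / ‖y‖ * (q y / ‖y‖ ^ 3)) =
      fun y : V => g y / ‖y‖ * (y i * y j * y k / ‖y‖ ^ 3) := by
    funext y
    rw [hq]
  rw [h1, nor_mom, hs]

theorem exists_normal (h : Reg 1 f F) (hodd : ∀ y, f (-y) = -f y) (hev : ∀ y, F (-y) = F y) :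
    ∃ (f' : V → ℝ) (F' : V → V) (a b c d : ℝ), Reg 1 f' F' ∧ (∀ y, f' (-y) = -f' y) ∧
      (∀ y, F' (-y) = F' y) ∧
      bi (fun y => f' y * tr (fderiv ℝ F' y)) = bi (fun y => f y * tr (fderiv ℝ F y)) ∧
      (∀ x : V, bi (fun y => f' y / ‖y‖ * (inner ℝ x y / ‖y‖)) = 0) ∧ Nf f' a b c d := by
  obtain ⟨f₁, F₁, h₁, hodd₁, hev₁, hA, hcen⟩ := h.exists_center hodd hev
  have e1 : bi (fun y => f₁ y * tr (fderiv ℝ F₁ y)) = bi (fun y => f y * tr (fderiv ℝ F y)) := by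
    rw [← h.ibpB, ← h₁.ibpB]
    simp only [hA]
  obtain ⟨T, hT⟩ := tri_lin h₁
  obtain ⟨U, hU1, hU2, hU3⟩ := exists_frame T
    (fun x y z => by rw [hT, hT, tri_swap]) (fun x y z => by rw [hT, hT, tri_swap'])
  rw [hT, ← tri_rot] at hU1 hU2 hU3
  obtain ⟨f', hf'⟩ : ∃ f' : V → ℝ, f' = fun y => f₁ (U y) := ⟨_, rfl⟩
  obtain ⟨F', hF'⟩ : ∃ F' : V → V, F' = fun y => U.symm (F₁ (U y)) := ⟨_, rfl⟩
  have h' : Reg 1 f' F' := by
    rw [hf', hF']
    exact reg_rot h₁ U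
  rw [← hf'] at hU1 hU2 hU3
  have hcen' : ∀ x : V, bi (fun y => f' y / ‖y‖ * (inner ℝ x y / ‖y‖)) = 0 := by
    intro x
    have h2 := bi_rot U (fun y => f₁ y / ‖y‖ * (inner ℝ (U x) y / ‖y‖))
    rw [hcen (U x)] at h2
    rw [← h2, hf']
    unfold bi
    refine integral_congr_ae (Filter.Eventually.of_forall fun y => ?_)
    show f₁ (U y) / ‖y‖ * (inner ℝ x y / ‖y‖) =
      f₁ (U y) / ‖U y‖ * (inner ℝ (U x) (U y) / ‖U y‖)
    rw [LinearIsometryEquiv.norm_map, LinearIsometryEquiv.inner_map_map]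
  have htr : ∀ v : V, tri f' (e 0) (e 0) v + tri f' (e 1) (e 1) v + tri f' (e 2) (e 2) v = 0 := by
    intro v
    have h2 := tri_trace h' hcen' (LinearIsometryEquiv.refl ℝ V) v
    rw [Fin.sum_univ_three] at h2
    exact h2
  have hK : 0 < kappa 3 := by
    rw [kappa_three]
    positivity
  obtain ⟨c, hc⟩ : ∃ c : ℝ, 2 / 35 * kappa 3 * c = tri f' (e 0) (e 0) (e 0) :=
    ⟨35 / (2 * kappa 3) * tri f' (e 0) (e 0) (e 0), by field_simp⟩
  obtain ⟨d, hd⟩ : ∃ d : ℝ, 2 / 35 * kappa 3 * d = -tri f' (e 1) (e 1) (e 1) :=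
    ⟨-(35 / (2 * kappa 3) * tri f' (e 1) (e 1) (e 1)), by field_simp⟩
  obtain ⟨a, ha⟩ : ∃ a : ℝ, 2 / 35 * kappa 3 * a = tri f' (e 2) (e 2) (e 2) / 2 :=
    ⟨35 / (4 * kappa 3) * tri f' (e 2) (e 2) (e 2), by field_simp; ring⟩
  obtain ⟨b, hb⟩ : ∃ b : ℝ, 2 / 35 * kappa 3 * b =
      3 * (tri f' (e 0) (e 0) (e 2) + tri f' (e 2) (e 2) (e 2) / 2) :=
    ⟨3 * (35 / (2 * kappa 3)) * (tri f' (e 0) (e 0) (e 2) + tri f' (e 2) (e 2) (e 2) / 2), by
      field_simp⟩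
  have ht0 := htr (e 0)
  have ht1 := htr (e 1)
  have ht2 := htr (e 2)
  refine ⟨f', F', a, b, c, d, h', ?_, ?_, ?_, hcen', ?_⟩
  · intro y
    rw [hf']
    show f₁ (U (-y)) = -f₁ (U y)
    rw [map_neg, hodd₁]
  · intro y
    rw [hF']
    show U.symm (F₁ (U (-y))) = U.symm (F₁ (U y))
    rw [map_neg, hev₁]
  · rw [hf', hF', ← e1]
    exact ftr_rot h₁ U
  · constructor
    · exact nor_mom' f' 0 0 0 (fun y => y 0 ^ 3) (fun y => by ring) (by linarith)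
    · exact nor_mom' f' 0 0 1 (fun y => y 0 ^ 2 * y 1) (fun y => by ring) (by linarith)
    · exact nor_mom' f' 1 1 0 (fun y => y 0 * y 1 ^ 2) (fun y => by ring) (by linarith)
    · exact nor_mom' f' 1 1 1 (fun y => y 1 ^ 3) (fun y => by ring) (by linarith)
    · exact nor_mom' f' 0 0 2 (fun y => y 0 ^ 2 * y 2) (fun y => by ring) (by linarith)
    · exact nor_mom' f' 2 0 1 (fun y => y 0 * y 1 * y 2) (fun y => by ring) (by linarith)
    · exact nor_mom' f' 1 1 2 (fun y => y 1 ^ 2 * y 2) (fun y => by ring) (by linarith)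
    · exact nor_mom' f' 2 2 0 (fun y => y 0 * y 2 ^ 2) (fun y => by ring) (by linarith)
    · exact nor_mom' f' 2 2 1 (fun y => y 1 * y 2 ^ 2) (fun y => by ring) (by linarith)
    · exact nor_mom' f' 2 2 2 (fun y => y 2 ^ 3) (fun y => by ring) (by linarith)

end Pool.Agent.Lib.MP_e62723_gt.TE
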