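import Pool.Agent.Lib.MP_e62723_gt.TE.Thi
import Pool.Agent.Lib.MP_e62723_gt.TE.Nor

/-!
# `vol K ≥ (3/4) κ₃` for every body `K` of constant width `2` in `ℝ³` (helper48, helper25)
-/

open MeasureTheory Set

namespace Pool.Agent.Lib.MP_e62723_gt.TE

open Pool.Agent.Lib.MP_e62723_gt.TD

variable {f : V → ℝ} {F : V → V} {a b c d : ℝ}

/-- `⟨f tr A⟩` is at least `-(1/6) κ₃`, for a centred odd function in normal form. -/
theorem J_le_normal (h : Reg 1 f F) (hodd : ∀ y, f (-y) = -f y)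
    (hcen : ∀ x : V, bi (fun y => f y / ‖y‖ * (inner ℝ x y / ‖y‖)) = 0)
    (k : Nf f a b c d) :
    -(1 / 6 * kappa 3) ≤ bi (fun y => f y * tr (fderiv ℝ F y)) := by
  obtain ⟨D, hD⟩ := reg_g a b c d
  have hr := reg_sub h hD
  have hal := al_le h k
  obtain ⟨κ, hκ⟩ : ∃ κ, κ = kappa 3 := ⟨_, rfl⟩
  have hκ0 : 0 ≤ κ := by
    rw [hκ]
    exact ENNReal.toReal_nonneg
  obtain ⟨α, hα⟩ : ∃ α, α = al a b c d := ⟨_, rfl⟩
  obtain ⟨t, ht⟩ : ∃ t, t = bi (fun y => f y * tr (fderiv ℝ F y)) := ⟨_, rfl⟩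
  obtain ⟨G, hG⟩ : ∃ G, G = bi (fun y => (‖y‖ * tr (fderiv ℝ F y)) ^ 2) := ⟨_, rfl⟩
  obtain ⟨ar, har⟩ : ∃ ar, ar = bi (fun y => ((f y - gf a b c d y) / ‖y‖) ^ 2) := ⟨_, rfl⟩
  obtain ⟨br, hbr⟩ : ∃ br, br = bi (fun y => ‖F y - gF a b c d y‖ ^ 2) := ⟨_, rfl⟩
  -- `31 a_r ≤ b_r`
  have e1 : 31 * ar ≤ br := by
    rw [har, hbr]
    have h1 := hr.sph_gap 1 (fun x j hj => prj_orth h hodd hcen k x j hj)
    norm_num at h1
    exact h1
  -- `⟨r tr A_r⟩ = 3 a_r - b_r`
  obtain ⟨tr', htr'⟩ : ∃ tr', tr' = bi (fun y => (f y - gf a b c d y) *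
      tr (fderiv ℝ (fun z => F z - gF a b c d z) y)) := ⟨_, rfl⟩
  have e2 : tr' = 3 * ar - br := by
    rw [htr', har, hbr]
    exact hr.ibpA
  -- `⟨r tr A_r⟩ = ⟨f tr A⟩ + 10 α κ`
  have i1 := hom0_gtr h h
  have i2 := hom0_gtr h hD
  have i3 := hom0_gtr hD h
  have i4 := hom0_gtr hD hD
  have e3 : tr' = t + 10 * (κ * α) := by
    have h1 : tr' = bi (fun y => f y * tr (fderiv ℝ F y) +
        ((-1) * (gf a b c d y * tr (fderiv ℝ F y)) +
          ((-1) * (f y * tr (fderiv ℝ (gF a b c d) y)) +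
            gf a b c d y * tr (fderiv ℝ (gF a b c d) y)))) := by
      rw [htr']
      unfold bi
      refine integral_congr_ae (ae_restrict_of_ae ?_)
      filter_upwards [ae_sub h hD] with y hy
      rw [hy, tr_sub]
      ring
    rw [h1, bi_add i1 ((i2.smul _).add ((i3.smul _).add i4)),
      bi_add (i2.smul _) ((i3.smul _).add i4), bi_add (i3.smul _) i4, bi_smul, bi_smul,
      tr_symm h hD, bi_ftr h k, bi_gtr, ← ht, ← hκ, ← hα]
    ring
  -- `G_r = G - 100 α κ`
  obtain ⟨Gr, hGr⟩ : ∃ Gr, Gr = bi (fun y => (‖y‖ *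
      tr (fderiv ℝ (fun z => F z - gF a b c d z) y)) ^ 2) := ⟨_, rfl⟩
  have e4 : Gr = G - 100 * (κ * α) := by
    have h1 : Gr = bi (fun y => (‖y‖ * tr (fderiv ℝ F y)) ^ 2 +
        ((-2) * (‖y‖ * tr (fderiv ℝ F y) * (‖y‖ * tr (fderiv ℝ (gF a b c d) y))) +
          (‖y‖ * tr (fderiv ℝ (gF a b c d) y)) ^ 2)) := by
      rw [hGr]
      unfold bi
      refine integral_congr_ae (ae_restrict_of_ae ?_)
      filter_upwards [ae_sub h hD] with y hy
      rw [hy, tr_sub]
      ring
    have h2 : bi (fun y => (‖y‖ * tr (fderiv ℝ (gF a b c d) y)) ^ 2) =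
        100 * (kappa 3 * al a b c d) := by
      have h3 := bi_trtr hD (Nf_g a b c d)
      rw [← h3]
      unfold bi
      refine integral_congr_ae (Filter.Eventually.of_forall fun y => ?_)
      simp only
      ring
    rw [h1, bi_add (h.hom0_tr.pow 2) (((h.hom0_tr.mul hD.hom0_tr).smul _).add
      (hD.hom0_tr.pow 2)), bi_add ((h.hom0_tr.mul hD.hom0_tr).smul _) (hD.hom0_tr.pow 2),
      bi_smul, bi_trtr h k, h2, ← hG, ← hκ, ← hα]
    ring
  -- Cauchy–Schwarz
  have e5 : tr' ^ 2 ≤ ar * Gr := by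
    have hcs := bi_cs hr.hom0_f hr.hom0_tr
    rw [← har, ← hGr] at hcs
    have h1 : bi (fun y => (f y - gf a b c d y) / ‖y‖ *
        (‖y‖ * tr (fderiv ℝ (fun z => F z - gF a b c d z) y))) = tr' := by
      rw [htr']
      unfold bi
      refine integral_congr_ae (Filter.Eventually.of_forall fun y => ?_)
      simp only
      rcases eq_or_ne y 0 with hy | hy
      · rw [hy, h.f_zero, hD.f_zero]
        simp
      · have : ‖y‖ ≠ 0 := norm_ne_zero_iff.2 hy
        field_simp
    rw [h1] at hcs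
    exact hcs
  -- `G - t ≤ 2 κ`
  have e6 : G - t ≤ 2 * κ := by
    have hle : bi (fun y => ‖y‖ ^ 2 * hs (fderiv ℝ F y)) ≤ bi (fun _ => 2) := by
      refine bi_mono h.hom0_hs (Hom0.const 2) fun y => ?_
      rcases eq_or_ne y 0 with hy | hy
      · rw [hy]
        simp
      · have := h.hs_le hy
        linarith
    rw [bi_const] at hle
    have e7 : bi (fun y => ‖y‖ ^ 2 * (tr (fderiv ℝ F y) ^ 2 - hs (fderiv ℝ F y))) +
        bi (fun y => ‖y‖ ^ 2 * hs (fderiv ℝ F y)) = G := by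
      have h0 : Hom0 (fun y => ‖y‖ ^ 2 * (tr (fderiv ℝ F y) ^ 2 - hs (fderiv ℝ F y))) := by
        have := (h.hom0_tr.pow 2).sub h.hom0_hs
        have e : (fun y => ‖y‖ ^ 2 * (tr (fderiv ℝ F y) ^ 2 - hs (fderiv ℝ F y))) =
            fun y => (‖y‖ * tr (fderiv ℝ F y)) ^ 2 - ‖y‖ ^ 2 * hs (fderiv ℝ F y) := by
          funext y
          ring
        rw [e]
        exact this
      rw [← bi_add h0 h.hom0_hs, hG]
      unfold bi
      refine integral_congr_ae (Filter.Eventually.of_forall fun y => ?_)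
      simp only
      ring
    rw [h.ibpB, ← ht] at e7
    rw [hκ]
    linarith
  have ha0 : 0 ≤ ar := by
    rw [har]
    exact bi_nonneg fun y => sq_nonneg _
  have hG0 : 0 ≤ Gr := by
    rw [hGr]
    exact bi_nonneg fun y => sq_nonneg _
  rw [← hα] at hal
  rw [← ht, ← hκ]
  have hακ : κ * α ≤ 98 / 6250 * κ := by
    have h1 : α ≤ 98 / 6250 := by
      norm_num at hal ⊢
      linarith
    calc κ * α ≤ κ * (98 / 6250) := mul_le_mul_of_nonneg_left h1 hκ0
      _ = _ := mul_comm _ _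
  by_contra hcon
  push Not at hcon
  have hJ : 0 < -tr' := by linarith
  have h10 : 28 * ar ≤ -tr' := by linarith
  have h11 : 28 * (-tr') ≤ Gr := by
    have h12 : 28 * (-tr') ^ 2 ≤ (-tr') * Gr := by
      calc 28 * (-tr') ^ 2 = 28 * tr' ^ 2 := by ring
        _ ≤ 28 * (ar * Gr) := by linarith
        _ = (28 * ar) * Gr := by ring
        _ ≤ (-tr') * Gr := mul_le_mul_of_nonneg_right h10 hG0
    have h13 : (-tr') * (28 * (-tr')) ≤ (-tr') * Gr := by nlinarith
    exact le_of_mul_le_mul_left h13 hJ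
  linarith

theorem J_le (h : Reg 1 f F) (hodd : ∀ y, f (-y) = -f y) (hev : ∀ y, F (-y) = F y) :
    -(1 / 6 * kappa 3) ≤ bi (fun y => f y * tr (fderiv ℝ F y)) := by
  obtain ⟨f', F', a, b, c, d, h', hodd', -, he, hcen, k⟩ := exists_normal h hodd hev
  rw [← he]
  exact J_le_normal h' hodd' hcen k

theorem body_ge {K : Set V} (hK : IsConvexBody K) (hw : HasConstantWidth K 2) :
    3 / 4 * kappa 3 ≤ (volume K).toReal := by
  obtain ⟨p, hp⟩ := hK.interior_nonempty
  -- translate `p` to the origin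
  set K' : Set V := (fun x => x - p) '' K with hK'
  have hvol : volume K' = volume K := by
    rw [hK']
    have : (fun x : V => x - p) '' K = (fun x : V => x + p) ⁻¹' K := by
      ext z
      constructor
      · rintro ⟨x, hx, rfl⟩
        simpa using hx
      · intro hz
        exact ⟨z + p, hz, by simp⟩
    rw [this]
    exact measure_preimage_add_right volume p K
  have hhomeo : (fun x : V => x - p) = (Homeomorph.subRight p) := rfl
  have hc : IsCompact K' := hK.compact.image (by fun_prop)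
  have hconv : Convex ℝ K' := by
    have : K' = (fun x : V => (-p) + x) '' K := by
      rw [hK']
      refine image_congr fun x _ => ?_
      rw [sub_eq_add_neg, add_comm]
    rw [this]
    exact hK.convex.translate (-p)
  have hint : (0 : V) ∈ interior K' := by
    rw [hK', hhomeo, ← Homeomorph.image_interior]
    exact ⟨p, hp, by simp⟩
  have hbody : IsConvexBody K' := ⟨hc, hconv, ⟨0, hint⟩⟩
  have hsupp : ∀ u : V, suppFun K' u = suppFun K u - inner ℝ p u := by
    intro u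
    have hle : ∀ x ∈ K, inner ℝ x u ≤ suppFun K u := fun x hx => Asy.inner_le_suppFun hK hx u
    obtain ⟨x, hx, hxe⟩ := Asy.exists_suppFun_eq hK u
    obtain ⟨z, hz, hze⟩ := Asy.exists_suppFun_eq hbody u
    have h1 : suppFun K u - inner ℝ p u ≤ suppFun K' u := by
      have := Asy.inner_le_suppFun hbody (mem_image_of_mem _ hx : (fun x => x - p) x ∈ K') u
      simp only [inner_sub_left] at this
      linarith
    have h2 : suppFun K' u ≤ suppFun K u - inner ℝ p u := by
      obtain ⟨w, hw', rfl⟩ := hz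
      have := hle w hw'
      rw [← hze]
      simp only [inner_sub_left]
      linarith
    exact le_antisymm h2 h1
  have hw' : HasConstantWidth K' 2 := by
    intro u hu
    have := hw u hu
    rw [hsupp, hsupp, inner_neg_right]
    linarith
  obtain ⟨f, F, h, hodd, hev, hKF, hsup⟩ := exists_reg hbody hw'
  have hpos : ∀ u : V, ‖u‖ = 1 → 0 < 1 + f u := by
    intro u hu
    obtain ⟨ε, hε, hball⟩ := Metric.mem_nhds_iff.1 (mem_interior_iff_mem_nhds.1 hint)
    have hmem : (ε / 2) • u ∈ K' := by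
      apply hball
      rw [mem_ball_zero_iff, norm_smul, hu, mul_one, Real.norm_of_nonneg (by positivity)]
      linarith
    have := hsup u hu _ hmem
    rw [inner_smul_left, real_inner_self_eq_norm_sq, hu] at this
    simp only [conj_trivial, one_pow, mul_one] at this
    linarith
  have h1 := h.vol_main hodd hev hc hconv (interior_subset hint) hKF hsup hpos
  have h2 := J_le h hodd hev
  rw [hvol] at h1
  linarith

theorem mW_ge : 3 / 4 * kappa 3 ≤ mW 3 := by
  obtain ⟨K, hK, hw⟩ := Asy.exists_body 3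
  refine le_csInf ⟨_, K, hK, hw, rfl⟩ ?_
  rintro v ⟨L, hL, hLw, rfl⟩
  exact body_ge hL hLw

end Pool.Agent.Lib.MP_e62723_gt.TE
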