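import Pool.Agent.Lib.MP_e62723_gt.TE.Defs

/-!
# JOB Mon: the integrals of monomials over the unit ball

`hom0_mon`: `|y i| ≤ ‖y‖`, homogeneous of degree zero, measurable.
`gauss_mon`: under `gam 3 = stdGaussian (E 3)` the coordinates are independent standard Gaussians:
`map_pi_eq_stdGaussian` (the image of `Measure.pi (fun _ => gaussianReal 0 1)` under
`WithLp.toLp 2` is `stdGaussian`), `integral_fintype_prod_eq_prod` (product functions,
`Fin.prod_univ_three`), and the one dimensional moments `∫ t^n d gaussianReal 0 1 = mu n`: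
`mu 0 = 1`, `mu 1 = 0`, `∫ t^(n+2) = (n+1) ∫ t^n` (integration by parts; or from the function
`r ↦ r^n e^{-r²/2}` and `gi_step` for even `n` and oddness for odd `n`; or from Mathlib's moments
of the real Gaussian distribution).
`mon`: `gam_pow (hom0_mon i j k) (i + j + k)`:
`∫ y0^i y1^j y2^k dγ = gc * gi (i+j+k+2) * bi (...)` (a.e., for `y ≠ 0`,
`(y0^i y1^j y2^k / ‖y‖^n) * ‖y‖^n = y0^i y1^j y2^k`), `gam_pow (Hom0.const 1) 0` gives
`1 = gc * gi 2 * kappa 3`, and `gi (n + 2) = nu n * gi 2` for even `n` by `gi_step` (induction).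
For odd `n = i+j+k` one of `i`, `j`, `k` is odd, so `mu i * (mu j * mu k) = 0`, and the integral
vanishes, as it is `gc * gi (n + 2) * bi (...) = ∏ mu = 0` by `gauss_mon`.
-/

open MeasureTheory Set ProbabilityTheory

namespace Pool.Agent.Lib.MP_e62723_gt.TE

open Pool.Agent.Lib.MP_e62723_gt.TD Pool.Agent.Lib.MP_e62723_gt.Asy

private theorem mon_abs (i j k : ℕ) (y : V) :
    |y 0 ^ i * y 1 ^ j * y 2 ^ k| ≤ ‖y‖ ^ (i + j + k) := by
  have h : ∀ l : Fin 3, |y l| ≤ ‖y‖ := fun l => PiLp.norm_apply_le y l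
  rw [abs_mul, abs_mul, abs_pow, abs_pow, abs_pow, pow_add, pow_add]
  have h0 := pow_le_pow_left₀ (abs_nonneg _) (h 0) i
  have h1 := pow_le_pow_left₀ (abs_nonneg _) (h 1) j
  have h2 := pow_le_pow_left₀ (abs_nonneg _) (h 2) k
  exact mul_le_mul (mul_le_mul h0 h1 (by positivity) (by positivity)) h2 (by positivity)
    (by positivity)

theorem hom0_mon (i j k : ℕ) :
    Hom0 (fun y : V => y 0 ^ i * y 1 ^ j * y 2 ^ k / ‖y‖ ^ (i + j + k)) := by
  refine ⟨?_, ?_, 1, ?_⟩
  · fun_prop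
  · intro t y ht
    simp only [PiLp.smul_apply, smul_eq_mul]
    rw [norm_smul, Real.norm_eq_abs, abs_of_pos ht, mul_pow, mul_pow, mul_pow, mul_pow]
    have h1 : t ^ i * y 0 ^ i * (t ^ j * y 1 ^ j) * (t ^ k * y 2 ^ k) =
        t ^ (i + j + k) * (y 0 ^ i * y 1 ^ j * y 2 ^ k) := by
      rw [pow_add, pow_add]
      ring
    rw [h1, mul_div_mul_left _ _ (pow_ne_zero _ ht.ne')]
  · intro y
    rw [abs_div, abs_of_nonneg (pow_nonneg (norm_nonneg y) _)]
    exact div_le_one_of_le₀ (mon_abs i j k y) (by positivity)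

private theorem mon_mu_odd : ∀ n : ℕ, mu (2 * n + 1) = 0
  | 0 => rfl
  | n + 1 => by
    have h : 2 * (n + 1) + 1 = (2 * n + 1) + 2 := by ring
    rw [h, mu, mon_mu_odd n, mul_zero]

private theorem mon_pdf (n : ℕ) : ∫ t : ℝ, t ^ n ∂(gaussianReal 0 1) =
    (√(2 * Real.pi))⁻¹ * ∫ t : ℝ, t ^ n * Real.exp (-(t ^ 2 / 2)) := by
  rw [integral_gaussianReal_eq_integral_smul one_ne_zero, ← integral_const_mul]
  refine integral_congr_ae (Filter.Eventually.of_forall fun t => ?_)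
  simp only [gaussianPDFReal, smul_eq_mul, NNReal.coe_one, mul_one, sub_zero]
  have h : -t ^ 2 / 2 = -(t ^ 2 / 2) := by ring
  rw [h]
  ring

private theorem mon_even (n : ℕ) (hn : Even n) : ∫ t : ℝ, t ^ n ∂(gaussianReal 0 1) =
    (√(2 * Real.pi))⁻¹ * (2 * gi n) := by
  rw [mon_pdf]
  congr 1
  unfold gi
  rw [← integral_comp_abs (f := fun r => r ^ n * Real.exp (-(r ^ 2 / 2)))]
  refine integral_congr_ae (Filter.Eventually.of_forall fun t => ?_)
  simp only [sq_abs, hn.pow_abs]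

private theorem mon_moment : ∀ n : ℕ, ∫ t : ℝ, t ^ n ∂(gaussianReal 0 1) = (mu n : ℝ)
  | 0 => by simp [mu]
  | 1 => by
    rw [mon_pdf]
    have h1 : ∫ t : ℝ, t ^ 1 * Real.exp (-(t ^ 2 / 2)) = 0 := by
      have h2 := integral_neg_eq_self (fun t : ℝ => t ^ 1 * Real.exp (-(t ^ 2 / 2))) volume
      have h3 : ∀ t : ℝ, (-t) ^ 1 * Real.exp (-((-t) ^ 2 / 2)) =
          -(t ^ 1 * Real.exp (-(t ^ 2 / 2))) := by
        intro t
        rw [neg_sq]
        ring
      simp only [h3] at h2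
      rw [integral_neg] at h2
      linarith
    rw [h1, mul_zero, mu, Nat.cast_zero]
  | n + 2 => by
    rcases Nat.even_or_odd n with hn | hn
    · have h1 := mon_moment n
      rw [mon_even n hn] at h1
      rw [mon_even (n + 2) (by rw [Nat.even_add]; simp [hn]), gi_step, mu]
      push_cast
      rw [← h1]
      ring
    · have h1 : Odd (n + 2) := by
        rw [Nat.odd_add]
        simp [hn]
      obtain ⟨m, hm⟩ := h1
      rw [hm, mon_mu_odd, Nat.cast_zero, mon_pdf]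
      have h1 : ∫ t : ℝ, t ^ (2 * m + 1) * Real.exp (-(t ^ 2 / 2)) = 0 := by
        have h2 := integral_neg_eq_self (fun t : ℝ => t ^ (2 * m + 1) * Real.exp (-(t ^ 2 / 2)))
          volume
        have h3 : ∀ t : ℝ, (-t) ^ (2 * m + 1) * Real.exp (-((-t) ^ 2 / 2)) =
            -(t ^ (2 * m + 1) * Real.exp (-(t ^ 2 / 2))) := by
          intro t
          rw [neg_sq, Odd.neg_pow ⟨m, rfl⟩]
          ring
        simp only [h3] at h2
        rw [integral_neg] at h2
        linarith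
      rw [h1, mul_zero]

theorem gauss_mon (i j k : ℕ) :
    ∫ y : V, y 0 ^ i * y 1 ^ j * y 2 ^ k ∂(gam 3) = ((mu i * (mu j * mu k) : ℕ) : ℝ) := by
  have h1 : gam 3 = (Measure.pi (fun _ : Fin 3 => gaussianReal 0 1)).map (WithLp.toLp 2) :=
    map_pi_eq_stdGaussian.symm
  rw [h1, integral_map (by fun_prop) (by fun_prop)]
  have h2 : ∀ x : Fin 3 → ℝ, (WithLp.toLp 2 x : V) 0 ^ i * (WithLp.toLp 2 x : V) 1 ^ j *
      (WithLp.toLp 2 x : V) 2 ^ k = ∏ l : Fin 3, (x l) ^ ((![i, j, k] : Fin 3 → ℕ) l) := by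
    intro x
    rw [Fin.prod_univ_three]
    rfl
  simp only [h2]
  rw [integral_fintype_prod_eq_prod (fun (l : Fin 3) (t : ℝ) => t ^ ((![i, j, k] : Fin 3 → ℕ) l)),
    Fin.prod_univ_three, mon_moment, mon_moment, mon_moment]
  push_cast
  exact mul_assoc _ _ _

theorem nu_pos (n : ℕ) : 0 < nu n := by
  have h : ∀ n, 0 < nu n ∧ 0 < nu (n + 1) := by
    intro n
    induction n with
    | zero => exact ⟨Nat.one_pos, Nat.one_pos⟩
    | succ n ih =>
      refine ⟨ih.2, ?_⟩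
      change 0 < (n + 3) * nu n
      exact Nat.mul_pos (by omega) ih.1
  exact (h n).1

private theorem mon_gi (n : ℕ) : gi (2 * n + 2) = (nu (2 * n) : ℝ) * gi 2 := by
  induction n with
  | zero => simp [nu]
  | succ n ih =>
    have h1 : 2 * (n + 1) + 2 = (2 * n + 2) + 2 := by ring
    have h2 : 2 * (n + 1) = 2 * n + 2 := by ring
    rw [h1, gi_step, ih, h2, nu]
    push_cast
    ring

theorem mon (i j k : ℕ) :
    bi (fun y => y 0 ^ i * y 1 ^ j * y 2 ^ k / ‖y‖ ^ (i + j + k)) * (nu (i + j + k) : ℝ) =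
      kappa 3 * ((mu i * (mu j * mu k) : ℕ) : ℝ) := by
  have h1 := (gam_pow (hom0_mon i j k) (i + j + k)).2
  have h2 : ∀ y : V, y 0 ^ i * y 1 ^ j * y 2 ^ k / ‖y‖ ^ (i + j + k) * ‖y‖ ^ (i + j + k) =
      y 0 ^ i * y 1 ^ j * y 2 ^ k := by
    intro y
    rcases eq_or_ne (‖y‖ ^ (i + j + k)) 0 with h | h
    · have h3 := mon_abs i j k y
      rw [h] at h3 ⊢
      rw [mul_zero]
      exact (abs_nonpos_iff.1 h3).symm
    · exact div_mul_cancel₀ _ h
  simp only [h2] at h1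
  rw [gauss_mon] at h1
  have h3 := (gam_pow (Hom0.const 1) 0).2
  simp only [pow_zero, mul_one] at h3
  have h4 : bi (fun _ => (1 : ℝ)) = kappa 3 := by
    unfold bi kappa
    rw [setIntegral_const, smul_eq_mul, mul_one]
    rfl
  rw [h4, integral_const, smul_eq_mul, mul_one, probReal_univ] at h3
  have hg := gc_pos
  rcases Nat.even_or_odd (i + j + k) with hn | hn
  · obtain ⟨m, hm⟩ := hn
    have hm' : i + j + k = 2 * m := by omega
    rw [h1, hm', mon_gi]
    have h5 : gc * gi (0 + 2) * kappa 3 = 1 := h3.symm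
    rw [zero_add] at h5
    calc bi (fun y => y 0 ^ i * y 1 ^ j * y 2 ^ k / ‖y‖ ^ (2 * m)) * (nu (2 * m) : ℝ) =
        (gc * gi 2 * kappa 3) * (bi (fun y => y 0 ^ i * y 1 ^ j * y 2 ^ k / ‖y‖ ^ (2 * m)) *
          (nu (2 * m) : ℝ)) := by rw [h5, one_mul]
      _ = _ := by ring
  · have h5 : mu i * (mu j * mu k) = 0 := by
      have h6 : Odd i ∨ Odd j ∨ Odd k := by
        by_contra hcon
        push Not at hcon
        obtain ⟨a1, a2, a3⟩ := hcon
        rw [Nat.not_odd_iff_even] at a1 a2 a3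
        exact (Nat.not_even_iff_odd.2 hn) ((a1.add a2).add a3)
      rcases h6 with ⟨m, rfl⟩ | ⟨m, rfl⟩ | ⟨m, rfl⟩
      · rw [mon_mu_odd, zero_mul]
      · rw [mon_mu_odd, zero_mul, mul_zero]
      · rw [mon_mu_odd, mul_zero, mul_zero]
    rw [h5, Nat.cast_zero] at h1
    rw [h5, Nat.cast_zero, mul_zero]
    have h7 : 0 < gc * gi (i + j + k + 2) := mul_pos hg (gi_pos _)
    have h8 : bi (fun y => y 0 ^ i * y 1 ^ j * y 2 ^ k / ‖y‖ ^ (i + j + k)) = 0 := by
      rcases mul_eq_zero.1 h1.symm with h | h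
      · exact absurd h h7.ne'
      · exact h
    rw [h8, zero_mul]

end Pool.Agent.Lib.MP_e62723_gt.TE
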