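import Pool.Agent.Lib.MP_e62723_gt.TE.Defs

/-!
# JOB Pol: the polynomial inequality

Put `A = 20/7 a²`, `B = 4/21 b²`, `R = 8/7 (c² + d²)`, so that `5 al a b c d = A + B + R`. The
difference of the two sides is `G(A, B, R) - λ a b³ (c² - d²)` with `λ = 1956992/8083075` and
`G = 18229441/92378000 A³ - 272534529/461890000 A²B - 202144377/461890000 A²R
 + 1273354539/2309450000 AB² + 748548651/288681250 ABR + 8441913/26243750 AR²
 + 23199753/2309450000 B³ + 821946309/2309450000 B²R + 37189167/1154725000 BR²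
 + 12396389/1154725000 R³`.
`|a b³ (c² - d²)| ≤ |a| |b|³ (c² + d²)` and, as `a² = 7/20 A`, `b² = 21/4 B`, `c² + d² = 7/8 R`,
`λ |a| |b|³ (c² + d²) = λ √(147/80) 147/32 √(AB) B R ≤ 1.508 √(AB) B R ≤ (1.885 A + 0.302 B) B R`
(`√(AB) ≤ (5/2 A + 2/5 B)/2`); in terms of `a, b`: `|a b| ≤ (t a² + b²/t)/2` with
`t = 5/2 · √(21/4 · 20/7) = 5/2 · √15 ≈ 9.68`.
Then `G - (1.885 A + 0.302 B) B R ≥ A (0.197 A² - 0.591 AB - 0.438 AR + 0.551 B² + 0.707 BR
+ 0.321 R²) + (nonnegative terms)` and the quadratic form in the brackets is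
`0.197 (A - 1.5 B - 1.11 R)² + (nonnegative terms)`.
-/

namespace Pool.Agent.Lib.MP_e62723_gt.TE

open Pool.Agent.Lib.MP_e62723_gt.TD

private theorem Pol_core (A B r q : ℝ) (hA : 0 ≤ A) (hB : 0 ≤ B) (hr : 0 ≤ r)
    (hq : q ≤ (242 / 25 * A + 25 / 242 * B) / 2 * B * r) :
    -(195 / 100) * ((5352000 / 1001 * A ^ 2 + 821120 / 1001 * A * B +
    3313920 / 1001 * A * r + 64192 / 3003 * B ^ 2 +
    301568 / 1001 * B * r + 904704 / 1001 * r ^ 2) / 400) *
      (5 * (4 / 7 * A + 4 / 105 * B + 8 / 35 * r)) +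
      94 / 100 * ((70000 / 143 * A ^ 2 - 30560 / 3003 * A * B +
    1071680 / 1001 * A * r + 3856 / 1001 * B ^ 2 +
    44416 / 3003 * B * r + 44416 / 1001 * r ^ 2) / 100) *
      (5 * (4 / 7 * A + 4 / 105 * B + 8 / 35 * r)) +
      59 / 100 * ((10110400000 / 19019 * A ^ 3 + 379712000 / 2717 * A ^ 2 * B +
    7847040000 / 19019 * A ^ 2 * r + 476423680 / 57057 * A * B ^ 2 +
    1542737920 / 19019 * A * B * r +
    3223695360 / 19019 * A * r ^ 2 +
    1024000 / 1463 * q + 6823424 / 57057 * B ^ 3 +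
    15014912 / 5187 * B ^ 2 * r + 34484224 / 1729 * B * r ^ 2 +
    68968448 / 1729 * r ^ 3) / 8000) -
      43 / 100 * ((2790800000 / 46189 * A ^ 3 - 63664000 / 46189 * A ^ 2 * B +
    31679520000 / 323323 * A ^ 2 * r + 1428181120 / 2909907 * A * B ^ 2 +
    388316160 / 29393 * A * B * r +
    15044398080 / 323323 * A * r ^ 2 -
    286464000 / 323323 * q + 3207296 / 138567 * B ^ 3 +
    811679488 / 2909907 * B ^ 2 * r +
    264328192 / 323323 * B * r ^ 2 + 528656384 / 323323 * r ^ 3) / 2000) ≤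
      -(1308 / 1000) * (5 * (4 / 7 * A + 4 / 105 * B + 8 / 35 * r)) ^ 3 := by
  have h1 : 0 ≤ A * (A - 1 / 10 * B - 444 / 1000 * r) ^ 2 := mul_nonneg hA (sq_nonneg _)
  have m1 : 0 ≤ A ^ 3 := by positivity
  have m2 : 0 ≤ A ^ 2 * B := by positivity
  have m3 : 0 ≤ A ^ 2 * r := by positivity
  have m4 : 0 ≤ A * B ^ 2 := by positivity
  have m5 : 0 ≤ A * B * r := by positivity
  have m6 : 0 ≤ A * r ^ 2 := by positivity
  have m7 : 0 ≤ B ^ 3 := by positivity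
  have m8 : 0 ≤ B ^ 2 * r := by positivity
  have m9 : 0 ≤ B * r ^ 2 := by positivity
  have m10 : 0 ≤ r ^ 3 := by positivity
  linarith

private theorem Pol_q (a b c d : ℝ) :
    a * b ^ 3 * (c ^ 2 - d ^ 2) ≤
      (242 / 25 * a ^ 2 + 25 / 242 * b ^ 2) / 2 * b ^ 2 * (c ^ 2 + d ^ 2) := by
  have h1 : 0 ≤ (b * c * (242 / 25 * a - b)) ^ 2 := sq_nonneg _
  have h2 : 0 ≤ (b * d * (242 / 25 * a + b)) ^ 2 := sq_nonneg _
  linarith

theorem pol_ineq (a b c d : ℝ) :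
    -(195 / 100) * (mS2 a b c d / 400) * (5 * al a b c d) +
      94 / 100 * (mD2 a b c d / 100) * (5 * al a b c d) + 59 / 100 * (mS3 a b c d / 8000) -
      43 / 100 * (mSD2 a b c d / 2000) ≤ -(1308 / 1000) * (5 * al a b c d) ^ 3 := by
  have h := Pol_core (a ^ 2) (b ^ 2) (c ^ 2 + d ^ 2) (a * b ^ 3 * (c ^ 2 - d ^ 2)) (by positivity)
    (by positivity) (by positivity) (Pol_q a b c d)
  unfold mS2 mD2 mS3 mSD2 al
  linarith

end Pool.Agent.Lib.MP_e62723_gt.TE
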