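import Pool.Agent.Lib.MP_e62723_gt.TE.Mon
import Pool.Agent.Lib.MP_e62723_gt.TE.HarA

/-!
# JOB Prj: the projection to the cubic harmonics

All quantities of the form `bi (f/‖y‖ * (poly/‖y‖^3))` are linear in the polynomial; for a cubic
monomial they are given by `Nf` (integrability: `Hom0.intBall`, `hom0_mon`).
`prj_al`: `gf y/‖y‖ = P y/‖y‖³`, `P = 2a z³ + (b - 3a) x²z + (-b - 3a) y²z + c x³ - 3c xy²
+ 3d x²y - d y³`; the sum is `2/35 κ (4a² + (b-3a)(b/3-a) + (b+3a)(b/3+a) + 4c² + 4d²)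
= 2/35 κ (10 a² + 2/3 b² + 4 (c² + d²)) = κ al`.
`Nf_g`: the moments of `gf` itself: `bi (P/‖y‖³ * (y 0 ^ 3/‖y‖^3))` etc. is a sum of monomials of
degree six, computed by `mon` (`nu 6 = 105`, `mu 2 = 1`, `mu 4 = 3`, `mu 6 = 15`). For instance
`⟨x⁶⟩ = 15/105`, `⟨x⁴y²⟩ = 3/105`, `⟨x²y²z²⟩ = 1/105` (times `κ`). `al_g` is `prj_al` for `f = gf`.
`prj_orth`: `r = f - gf` is odd, so `j = 0, 2, 4` vanish (`bi_odd`, as in `Reg.sph_gap3`).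
`j = 1`: `f` is centred and `bi (P/‖y‖³ * (⟪x,y⟫/‖y‖)) = 0` (monomials of degree four, `mon`,
`nu 4 = 15`). `j = 3`: expand `⟪x,y⟫³ = (x 0 y 0 + x 1 y 1 + x 2 y 2)³` in the ten cubic monomials
and use `Nf f` and `Nf gf` (same numbers). Integrals of sums: `Hom0.intBall`; the multinomial
expansion by `ring`.
-/

open MeasureTheory Set

namespace Pool.Agent.Lib.MP_e62723_gt.TE

open Pool.Agent.Lib.MP_e62723_gt.TD

variable {C : ℝ} {f : V → ℝ} {F : V → V} {a b c d : ℝ}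

/-- `Ψ` is of degree zero with integral `v` over the ball. -/
private def Prj_L (Ψ : V → ℝ) (v : ℝ) : Prop := Hom0 Ψ ∧ bi Ψ = v

private theorem Prj_add {Ψ Θ : V → ℝ} {v w : ℝ} (h : Prj_L Ψ v) (h' : Prj_L Θ w) :
    Prj_L (fun y => Ψ y + Θ y) (v + w) := by
  refine ⟨h.1.add h'.1, ?_⟩
  rw [← h.2, ← h'.2]
  exact integral_add h.1.intBall h'.1.intBall

private theorem Prj_sub {Ψ Θ : V → ℝ} {v w : ℝ} (h : Prj_L Ψ v) (h' : Prj_L Θ w) :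
    Prj_L (fun y => Ψ y - Θ y) (v - w) := by
  refine ⟨h.1.sub h'.1, ?_⟩
  rw [← h.2, ← h'.2]
  exact integral_sub h.1.intBall h'.1.intBall

private theorem Prj_smul {Ψ : V → ℝ} {v : ℝ} (h : Prj_L Ψ v) (u : ℝ) :
    Prj_L (fun y => u * Ψ y) (u * v) := by
  refine ⟨h.1.smul u, ?_⟩
  rw [← h.2]
  exact integral_const_mul u _

private theorem Prj_bi {Ψ Θ : V → ℝ} {v : ℝ} (h : Prj_L Ψ v) (he : ∀ y, Θ y = Ψ y) :
    bi Θ = v := by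
  rw [← h.2, show Θ = Ψ from funext he]

private theorem Prj_h0 (g : V → ℝ) (i j k : ℕ) (hs : i + j + k = 3)
    (hg : ∀ y : V, g y = y 0 ^ i * y 1 ^ j * y 2 ^ k) : Hom0 (fun y : V => g y / ‖y‖ ^ 3) := by
  have h := hom0_mon i j k
  rw [hs] at h
  have h1 : (fun y : V => g y / ‖y‖ ^ 3) =
      fun y : V => y 0 ^ i * y 1 ^ j * y 2 ^ k / ‖y‖ ^ 3 := by
    funext y
    rw [hg]
  rw [h1]
  exact h

/-- the integral of `f` times a cubic polynomial -/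
private theorem Prj_ten (h : Reg C f F) (k : Nf f a b c d)
    (u0 u1 u2 u3 u4 u5 u6 u7 u8 u9 : ℝ) (Q : V → ℝ)
    (hQ : ∀ y : V, Q y = (u0 * y 0 ^ 3 + u1 * (y 0 ^ 2 * y 1) + u2 * (y 0 * y 1 ^ 2) +
      u3 * y 1 ^ 3 + u4 * (y 0 ^ 2 * y 2) + u5 * (y 0 * y 1 * y 2) + u6 * (y 1 ^ 2 * y 2) +
      u7 * (y 0 * y 2 ^ 2) + u8 * (y 1 * y 2 ^ 2) + u9 * y 2 ^ 3) / ‖y‖ ^ 3) :
    Prj_L (fun y => f y / ‖y‖ * Q y) (2 / 35 * kappa 3 * (u0 * c + u1 * d - u2 * c - u3 * d +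
      u4 * (-a + b / 3) + u6 * (-a - b / 3) + u9 * (2 * a))) := by
  have l0 : Prj_L (fun y => f y / ‖y‖ * (y 0 ^ 3 / ‖y‖ ^ 3)) (2 / 35 * kappa 3 * c) :=
    ⟨h.hom0_f.mul (Prj_h0 (fun y => y 0 ^ 3) 3 0 0 rfl fun y => by ring), k.m300⟩
  have l1 : Prj_L (fun y => f y / ‖y‖ * (y 0 ^ 2 * y 1 / ‖y‖ ^ 3)) (2 / 35 * kappa 3 * d) :=
    ⟨h.hom0_f.mul (Prj_h0 (fun y => y 0 ^ 2 * y 1) 2 1 0 rfl fun y => by ring), k.m210⟩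
  have l2 : Prj_L (fun y => f y / ‖y‖ * (y 0 * y 1 ^ 2 / ‖y‖ ^ 3)) (2 / 35 * kappa 3 * (-c)) :=
    ⟨h.hom0_f.mul (Prj_h0 (fun y => y 0 * y 1 ^ 2) 1 2 0 rfl fun y => by ring), k.m120⟩
  have l3 : Prj_L (fun y => f y / ‖y‖ * (y 1 ^ 3 / ‖y‖ ^ 3)) (2 / 35 * kappa 3 * (-d)) :=
    ⟨h.hom0_f.mul (Prj_h0 (fun y => y 1 ^ 3) 0 3 0 rfl fun y => by ring), k.m030⟩
  have l4 : Prj_L (fun y => f y / ‖y‖ * (y 0 ^ 2 * y 2 / ‖y‖ ^ 3))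
      (2 / 35 * kappa 3 * (-a + b / 3)) :=
    ⟨h.hom0_f.mul (Prj_h0 (fun y => y 0 ^ 2 * y 2) 2 0 1 rfl fun y => by ring), k.m201⟩
  have l5 : Prj_L (fun y => f y / ‖y‖ * (y 0 * y 1 * y 2 / ‖y‖ ^ 3)) 0 :=
    ⟨h.hom0_f.mul (Prj_h0 (fun y => y 0 * y 1 * y 2) 1 1 1 rfl fun y => by ring), k.m111⟩
  have l6 : Prj_L (fun y => f y / ‖y‖ * (y 1 ^ 2 * y 2 / ‖y‖ ^ 3))
      (2 / 35 * kappa 3 * (-a - b / 3)) :=
    ⟨h.hom0_f.mul (Prj_h0 (fun y => y 1 ^ 2 * y 2) 0 2 1 rfl fun y => by ring), k.m021⟩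
  have l7 : Prj_L (fun y => f y / ‖y‖ * (y 0 * y 2 ^ 2 / ‖y‖ ^ 3)) 0 :=
    ⟨h.hom0_f.mul (Prj_h0 (fun y => y 0 * y 2 ^ 2) 1 0 2 rfl fun y => by ring), k.m102⟩
  have l8 : Prj_L (fun y => f y / ‖y‖ * (y 1 * y 2 ^ 2 / ‖y‖ ^ 3)) 0 :=
    ⟨h.hom0_f.mul (Prj_h0 (fun y => y 1 * y 2 ^ 2) 0 1 2 rfl fun y => by ring), k.m012⟩
  have l9 : Prj_L (fun y => f y / ‖y‖ * (y 2 ^ 3 / ‖y‖ ^ 3)) (2 / 35 * kappa 3 * (2 * a)) :=
    ⟨h.hom0_f.mul (Prj_h0 (fun y => y 2 ^ 3) 0 0 3 rfl fun y => by ring), k.m003⟩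
  have hs := Prj_add (Prj_add (Prj_add (Prj_add (Prj_add (Prj_add (Prj_add (Prj_add (Prj_add
    (Prj_smul l0 u0) (Prj_smul l1 u1)) (Prj_smul l2 u2)) (Prj_smul l3 u3)) (Prj_smul l4 u4))
    (Prj_smul l5 u5)) (Prj_smul l6 u6)) (Prj_smul l7 u7)) (Prj_smul l8 u8)) (Prj_smul l9 u9)
  have he : (fun y => f y / ‖y‖ * Q y) = fun y => u0 * (f y / ‖y‖ * (y 0 ^ 3 / ‖y‖ ^ 3)) +
      u1 * (f y / ‖y‖ * (y 0 ^ 2 * y 1 / ‖y‖ ^ 3)) +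
      u2 * (f y / ‖y‖ * (y 0 * y 1 ^ 2 / ‖y‖ ^ 3)) +
      u3 * (f y / ‖y‖ * (y 1 ^ 3 / ‖y‖ ^ 3)) +
      u4 * (f y / ‖y‖ * (y 0 ^ 2 * y 2 / ‖y‖ ^ 3)) +
      u5 * (f y / ‖y‖ * (y 0 * y 1 * y 2 / ‖y‖ ^ 3)) +
      u6 * (f y / ‖y‖ * (y 1 ^ 2 * y 2 / ‖y‖ ^ 3)) +
      u7 * (f y / ‖y‖ * (y 0 * y 2 ^ 2 / ‖y‖ ^ 3)) +
      u8 * (f y / ‖y‖ * (y 1 * y 2 ^ 2 / ‖y‖ ^ 3)) +
      u9 * (f y / ‖y‖ * (y 2 ^ 3 / ‖y‖ ^ 3)) := by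
    funext y
    rw [hQ]
    ring
  rw [he]
  have hv : 2 / 35 * kappa 3 * (u0 * c + u1 * d - u2 * c - u3 * d +
      u4 * (-a + b / 3) + u6 * (-a - b / 3) + u9 * (2 * a)) =
      u0 * (2 / 35 * kappa 3 * c) + u1 * (2 / 35 * kappa 3 * d) +
      u2 * (2 / 35 * kappa 3 * (-c)) + u3 * (2 / 35 * kappa 3 * (-d)) +
      u4 * (2 / 35 * kappa 3 * (-a + b / 3)) + u5 * 0 +
      u6 * (2 / 35 * kappa 3 * (-a - b / 3)) + u7 * 0 + u8 * 0 +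
      u9 * (2 / 35 * kappa 3 * (2 * a)) := by
    ring
  rw [hv]
  exact hs

private theorem Prj_g0 (a b c d : ℝ) (y : V) : gf a b c d y / ‖y‖ =
    (c * y 0 ^ 3 + 3 * d * (y 0 ^ 2 * y 1) + -3 * c * (y 0 * y 1 ^ 2) +
      -d * y 1 ^ 3 + (-3 * a + b) * (y 0 ^ 2 * y 2) + 0 * (y 0 * y 1 * y 2) +
      (-3 * a - b) * (y 1 ^ 2 * y 2) + 0 * (y 0 * y 2 ^ 2) + 0 * (y 1 * y 2 ^ 2) +
      2 * a * y 2 ^ 3) / ‖y‖ ^ 3 := by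
  unfold gf gP cP
  rw [div_div, ← pow_succ]
  ring

theorem prj_al (h : Reg C f F) (k : Nf f a b c d) :
    bi (fun y => f y / ‖y‖ * (gf a b c d y / ‖y‖)) = kappa 3 * al a b c d := by
  refine Prj_bi (Prj_ten h k c (3 * d) (-3 * c) (-d) (-3 * a + b) 0 (-3 * a - b) 0 0 (2 * a)
    (fun y => gf a b c d y / ‖y‖) (Prj_g0 a b c d)) (fun y => rfl) |>.trans ?_
  unfold al
  ring

private theorem Prj_mon (i j k n : ℕ) (hn : i + j + k = n) (v : ℝ)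
    (hv : ((mu i * (mu j * mu k) : ℕ) : ℝ) = v * (nu n : ℝ)) :
    Prj_L (fun y : V => y 0 ^ i * y 1 ^ j * y 2 ^ k / ‖y‖ ^ n) (kappa 3 * v) := by
  subst hn
  refine ⟨hom0_mon i j k, ?_⟩
  have h1 := mon i j k
  have h2 : (0 : ℝ) < (nu (i + j + k) : ℝ) := by exact_mod_cast nu_pos (i + j + k)
  rw [hv, ← mul_assoc] at h1
  exact mul_right_cancel₀ h2.ne' h1

/-- the moments of `gf` -/
private theorem Prj_gm (a b c d : ℝ) (p q r n : ℕ) (hn : p + q + r = n)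
    (v0 v1 v2 v3 v4 v5 v6 : ℝ)
    (h0 : ((mu (p + 3) * (mu q * mu r) : ℕ) : ℝ) = v0 * (nu (n + 3) : ℝ))
    (h1 : ((mu (p + 2) * (mu (q + 1) * mu r) : ℕ) : ℝ) = v1 * (nu (n + 3) : ℝ))
    (h2 : ((mu (p + 1) * (mu (q + 2) * mu r) : ℕ) : ℝ) = v2 * (nu (n + 3) : ℝ))
    (h3 : ((mu p * (mu (q + 3) * mu r) : ℕ) : ℝ) = v3 * (nu (n + 3) : ℝ))
    (h4 : ((mu (p + 2) * (mu q * mu (r + 1)) : ℕ) : ℝ) = v4 * (nu (n + 3) : ℝ))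
    (h5 : ((mu p * (mu (q + 2) * mu (r + 1)) : ℕ) : ℝ) = v5 * (nu (n + 3) : ℝ))
    (h6 : ((mu p * (mu q * mu (r + 3)) : ℕ) : ℝ) = v6 * (nu (n + 3) : ℝ)) :
    Prj_L (fun y : V => gf a b c d y / ‖y‖ * (y 0 ^ p * y 1 ^ q * y 2 ^ r / ‖y‖ ^ n))
      (kappa 3 * (c * v0 + 3 * d * v1 - 3 * c * v2 - d * v3 + (-3 * a + b) * v4 +
        (-3 * a - b) * v5 + 2 * a * v6)) := by
  have l0 := Prj_mon (p + 3) q r (n + 3) (by omega) v0 h0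
  have l1 := Prj_mon (p + 2) (q + 1) r (n + 3) (by omega) v1 h1
  have l2 := Prj_mon (p + 1) (q + 2) r (n + 3) (by omega) v2 h2
  have l3 := Prj_mon p (q + 3) r (n + 3) (by omega) v3 h3
  have l4 := Prj_mon (p + 2) q (r + 1) (n + 3) (by omega) v4 h4
  have l5 := Prj_mon p (q + 2) (r + 1) (n + 3) (by omega) v5 h5
  have l6 := Prj_mon p q (r + 3) (n + 3) (by omega) v6 h6
  have hs := Prj_add (Prj_add (Prj_add (Prj_add (Prj_add (Prj_add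
    (Prj_smul l0 c) (Prj_smul l1 (3 * d))) (Prj_smul l2 (-3 * c))) (Prj_smul l3 (-d)))
    (Prj_smul l4 (-3 * a + b))) (Prj_smul l5 (-3 * a - b))) (Prj_smul l6 (2 * a))
  have he : (fun y : V => gf a b c d y / ‖y‖ * (y 0 ^ p * y 1 ^ q * y 2 ^ r / ‖y‖ ^ n)) =
      fun y : V => c * (y 0 ^ (p + 3) * y 1 ^ q * y 2 ^ r / ‖y‖ ^ (n + 3)) +
      3 * d * (y 0 ^ (p + 2) * y 1 ^ (q + 1) * y 2 ^ r / ‖y‖ ^ (n + 3)) +
      -3 * c * (y 0 ^ (p + 1) * y 1 ^ (q + 2) * y 2 ^ r / ‖y‖ ^ (n + 3)) +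
      -d * (y 0 ^ p * y 1 ^ (q + 3) * y 2 ^ r / ‖y‖ ^ (n + 3)) +
      (-3 * a + b) * (y 0 ^ (p + 2) * y 1 ^ q * y 2 ^ (r + 1) / ‖y‖ ^ (n + 3)) +
      (-3 * a - b) * (y 0 ^ p * y 1 ^ (q + 2) * y 2 ^ (r + 1) / ‖y‖ ^ (n + 3)) +
      2 * a * (y 0 ^ p * y 1 ^ q * y 2 ^ (r + 3) / ‖y‖ ^ (n + 3)) := by
    funext y
    rw [Prj_g0]
    ring
  rw [he]
  have hv : kappa 3 * (c * v0 + 3 * d * v1 - 3 * c * v2 - d * v3 + (-3 * a + b) * v4 +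
        (-3 * a - b) * v5 + 2 * a * v6) =
      c * (kappa 3 * v0) + 3 * d * (kappa 3 * v1) + -3 * c * (kappa 3 * v2) +
      -d * (kappa 3 * v3) + (-3 * a + b) * (kappa 3 * v4) + (-3 * a - b) * (kappa 3 * v5) +
      2 * a * (kappa 3 * v6) := by
    ring
  rw [hv]
  exact hs

theorem Nf_g (a b c d : ℝ) : Nf (gf a b c d) a b c d := by
  constructor
  · refine (Prj_bi (Prj_gm a b c d 3 0 0 3 rfl (15 / 105) 0 (3 / 105) 0 0 0 0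
      (by norm_num [mu, nu]) (by norm_num [mu, nu]) (by norm_num [mu, nu]) (by norm_num [mu, nu])
      (by norm_num [mu, nu]) (by norm_num [mu, nu]) (by norm_num [mu, nu])) (fun y => ?_)).trans ?_
    · rw [show y 0 ^ 3 * y 1 ^ 0 * y 2 ^ 0 = y 0 ^ 3 by ring]
    · ring
  · refine (Prj_bi (Prj_gm a b c d 2 1 0 3 rfl 0 (3 / 105) 0 (3 / 105) 0 0 0
      (by norm_num [mu, nu]) (by norm_num [mu, nu]) (by norm_num [mu, nu]) (by norm_num [mu, nu])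
      (by norm_num [mu, nu]) (by norm_num [mu, nu]) (by norm_num [mu, nu])) (fun y => ?_)).trans ?_
    · rw [show y 0 ^ 2 * y 1 ^ 1 * y 2 ^ 0 = y 0 ^ 2 * y 1 by ring]
    · ring
  · refine (Prj_bi (Prj_gm a b c d 1 2 0 3 rfl (3 / 105) 0 (3 / 105) 0 0 0 0
      (by norm_num [mu, nu]) (by norm_num [mu, nu]) (by norm_num [mu, nu]) (by norm_num [mu, nu])
      (by norm_num [mu, nu]) (by norm_num [mu, nu]) (by norm_num [mu, nu])) (fun y => ?_)).trans ?_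
    · rw [show y 0 ^ 1 * y 1 ^ 2 * y 2 ^ 0 = y 0 * y 1 ^ 2 by ring]
    · ring
  · refine (Prj_bi (Prj_gm a b c d 0 3 0 3 rfl 0 (3 / 105) 0 (15 / 105) 0 0 0
      (by norm_num [mu, nu]) (by norm_num [mu, nu]) (by norm_num [mu, nu]) (by norm_num [mu, nu])
      (by norm_num [mu, nu]) (by norm_num [mu, nu]) (by norm_num [mu, nu])) (fun y => ?_)).trans ?_
    · rw [show y 0 ^ 0 * y 1 ^ 3 * y 2 ^ 0 = y 1 ^ 3 by ring]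
    · ring
  · refine (Prj_bi (Prj_gm a b c d 2 0 1 3 rfl 0 0 0 0 (3 / 105) (1 / 105) (3 / 105)
      (by norm_num [mu, nu]) (by norm_num [mu, nu]) (by norm_num [mu, nu]) (by norm_num [mu, nu])
      (by norm_num [mu, nu]) (by norm_num [mu, nu]) (by norm_num [mu, nu])) (fun y => ?_)).trans ?_
    · rw [show y 0 ^ 2 * y 1 ^ 0 * y 2 ^ 1 = y 0 ^ 2 * y 2 by ring]
    · ring
  · refine (Prj_bi (Prj_gm a b c d 1 1 1 3 rfl 0 0 0 0 0 0 0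
      (by norm_num [mu, nu]) (by norm_num [mu, nu]) (by norm_num [mu, nu]) (by norm_num [mu, nu])
      (by norm_num [mu, nu]) (by norm_num [mu, nu]) (by norm_num [mu, nu])) (fun y => ?_)).trans ?_
    · rw [show y 0 ^ 1 * y 1 ^ 1 * y 2 ^ 1 = y 0 * y 1 * y 2 by ring]
    · ring
  · refine (Prj_bi (Prj_gm a b c d 0 2 1 3 rfl 0 0 0 0 (1 / 105) (3 / 105) (3 / 105)
      (by norm_num [mu, nu]) (by norm_num [mu, nu]) (by norm_num [mu, nu]) (by norm_num [mu, nu])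
      (by norm_num [mu, nu]) (by norm_num [mu, nu]) (by norm_num [mu, nu])) (fun y => ?_)).trans ?_
    · rw [show y 0 ^ 0 * y 1 ^ 2 * y 2 ^ 1 = y 1 ^ 2 * y 2 by ring]
    · ring
  · refine (Prj_bi (Prj_gm a b c d 1 0 2 3 rfl (3 / 105) 0 (1 / 105) 0 0 0 0
      (by norm_num [mu, nu]) (by norm_num [mu, nu]) (by norm_num [mu, nu]) (by norm_num [mu, nu])
      (by norm_num [mu, nu]) (by norm_num [mu, nu]) (by norm_num [mu, nu])) (fun y => ?_)).trans ?_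
    · rw [show y 0 ^ 1 * y 1 ^ 0 * y 2 ^ 2 = y 0 * y 2 ^ 2 by ring]
    · ring
  · refine (Prj_bi (Prj_gm a b c d 0 1 2 3 rfl 0 (1 / 105) 0 (3 / 105) 0 0 0
      (by norm_num [mu, nu]) (by norm_num [mu, nu]) (by norm_num [mu, nu]) (by norm_num [mu, nu])
      (by norm_num [mu, nu]) (by norm_num [mu, nu]) (by norm_num [mu, nu])) (fun y => ?_)).trans ?_
    · rw [show y 0 ^ 0 * y 1 ^ 1 * y 2 ^ 2 = y 1 * y 2 ^ 2 by ring]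
    · ring
  · refine (Prj_bi (Prj_gm a b c d 0 0 3 3 rfl 0 0 0 0 (3 / 105) (3 / 105) (15 / 105)
      (by norm_num [mu, nu]) (by norm_num [mu, nu]) (by norm_num [mu, nu]) (by norm_num [mu, nu])
      (by norm_num [mu, nu]) (by norm_num [mu, nu]) (by norm_num [mu, nu])) (fun y => ?_)).trans ?_
    · rw [show y 0 ^ 0 * y 1 ^ 0 * y 2 ^ 3 = y 2 ^ 3 by ring]
    · ring

theorem al_g (a b c d : ℝ) :
    bi (fun y => (gf a b c d y / ‖y‖) ^ 2) = kappa 3 * al a b c d := by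
  obtain ⟨C, hC⟩ := reg_g a b c d
  rw [← prj_al hC (Nf_g a b c d)]
  congr 1
  funext y
  rw [sq]

theorem prj_orth (h : Reg C f F) (hodd : ∀ y, f (-y) = -f y)
    (hcen : ∀ x : V, bi (fun y => f y / ‖y‖ * (inner ℝ x y / ‖y‖)) = 0) (k : Nf f a b c d)
    (x : V) (j : ℕ) (hj : j < 5) :
    bi (fun y => (f y - gf a b c d y) / ‖y‖ * (inner ℝ x y / ‖y‖) ^ j) = 0 := by
  obtain ⟨C', hC'⟩ := reg_g a b c d
  have hev : ∀ i : ℕ, bi (fun y => (f y - gf a b c d y) / ‖y‖ * (inner ℝ x y / ‖y‖) ^ (2 * i)) =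
      0 := by
    intro i
    refine bi_odd fun y => ?_
    have h1 : (inner ℝ x (-y) / ‖-y‖) ^ (2 * i) = (inner ℝ x y / ‖y‖) ^ (2 * i) := by
      rw [pow_mul, pow_mul, inner_neg_right, norm_neg, neg_div, neg_sq]
    rw [h1, hodd, gf_odd, norm_neg]
    ring
  have hin : ∀ y : V, inner ℝ x y = x 0 * y 0 + x 1 * y 1 + x 2 * y 2 := by
    intro y
    rw [PiLp.inner_apply, Fin.sum_univ_three]
    simp only [RCLike.inner_apply, conj_trivial]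
    ring
  have hj' : j = 0 ∨ j = 1 ∨ j = 2 ∨ j = 3 ∨ j = 4 := by omega
  rcases hj' with rfl | rfl | rfl | rfl | rfl
  · exact hev 0
  · have l0 : Prj_L (fun y => f y / ‖y‖ * (inner ℝ x y / ‖y‖)) 0 :=
      ⟨h.hom0_f.mul (hom0_inner x), hcen x⟩
    have m0 := Prj_gm a b c d 1 0 0 1 rfl (3 / 15) 0 (1 / 15) 0 0 0 0
      (by norm_num [mu, nu]) (by norm_num [mu, nu]) (by norm_num [mu, nu]) (by norm_num [mu, nu])
      (by norm_num [mu, nu]) (by norm_num [mu, nu]) (by norm_num [mu, nu])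
    have m1 := Prj_gm a b c d 0 1 0 1 rfl 0 (1 / 15) 0 (3 / 15) 0 0 0
      (by norm_num [mu, nu]) (by norm_num [mu, nu]) (by norm_num [mu, nu]) (by norm_num [mu, nu])
      (by norm_num [mu, nu]) (by norm_num [mu, nu]) (by norm_num [mu, nu])
    have m2 := Prj_gm a b c d 0 0 1 1 rfl 0 0 0 0 (1 / 15) (1 / 15) (3 / 15)
      (by norm_num [mu, nu]) (by norm_num [mu, nu]) (by norm_num [mu, nu]) (by norm_num [mu, nu])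
      (by norm_num [mu, nu]) (by norm_num [mu, nu]) (by norm_num [mu, nu])
    have hs := Prj_sub l0 (Prj_add (Prj_add (Prj_smul m0 (x 0)) (Prj_smul m1 (x 1)))
      (Prj_smul m2 (x 2)))
    refine (Prj_bi hs (fun y => ?_)).trans ?_
    · show (f y - gf a b c d y) / ‖y‖ * (inner ℝ x y / ‖y‖) ^ 1 = f y / ‖y‖ * (inner ℝ x y / ‖y‖) -
        (x 0 * (gf a b c d y / ‖y‖ * (y 0 ^ 1 * y 1 ^ 0 * y 2 ^ 0 / ‖y‖ ^ 1)) +
          x 1 * (gf a b c d y / ‖y‖ * (y 0 ^ 0 * y 1 ^ 1 * y 2 ^ 0 / ‖y‖ ^ 1)) +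
          x 2 * (gf a b c d y / ‖y‖ * (y 0 ^ 0 * y 1 ^ 0 * y 2 ^ 1 / ‖y‖ ^ 1)))
      rw [hin]
      ring
    · ring
  · exact hev 1
  · have hQ : ∀ y : V, (inner ℝ x y / ‖y‖) ^ 3 = (x 0 ^ 3 * y 0 ^ 3 +
        3 * x 0 ^ 2 * x 1 * (y 0 ^ 2 * y 1) + 3 * x 0 * x 1 ^ 2 * (y 0 * y 1 ^ 2) +
        x 1 ^ 3 * y 1 ^ 3 + 3 * x 0 ^ 2 * x 2 * (y 0 ^ 2 * y 2) +
        6 * x 0 * x 1 * x 2 * (y 0 * y 1 * y 2) + 3 * x 1 ^ 2 * x 2 * (y 1 ^ 2 * y 2) +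
        3 * x 0 * x 2 ^ 2 * (y 0 * y 2 ^ 2) + 3 * x 1 * x 2 ^ 2 * (y 1 * y 2 ^ 2) +
        x 2 ^ 3 * y 2 ^ 3) / ‖y‖ ^ 3 := by
      intro y
      rw [hin]
      ring
    have l0 := Prj_ten h k _ _ _ _ _ _ _ _ _ _ (fun y => (inner ℝ x y / ‖y‖) ^ 3) hQ
    have l1 := Prj_ten hC' (Nf_g a b c d) _ _ _ _ _ _ _ _ _ _
      (fun y => (inner ℝ x y / ‖y‖) ^ 3) hQ
    refine (Prj_bi (Prj_sub l0 l1) (fun y => ?_)).trans (sub_self _)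
    show (f y - gf a b c d y) / ‖y‖ * (inner ℝ x y / ‖y‖) ^ 3 =
      f y / ‖y‖ * (inner ℝ x y / ‖y‖) ^ 3 - gf a b c d y / ‖y‖ * (inner ℝ x y / ‖y‖) ^ 3
    ring
  · exact hev 2

end Pool.Agent.Lib.MP_e62723_gt.TE
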