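import Pool.Agent.Lib.MP_e62723_gt.TE.Mon

/-!
# Integrals of polynomials over the unit ball, by computation (helper48)

Integer polynomials in `a, b, c, d, x, y, z`, grouped by the exponents of `a, b, c, d`. `parO P Q []`
computes the integral of the product of two polynomials which are homogeneous in `x, y, z`.
-/

open MeasureTheory Set

namespace Pool.Agent.Lib.MP_e62723_gt.TE

open Pool.Agent.Lib.MP_e62723_gt.TD

/-- Exponents of `x, y, z`. -/
abbrev M3 : Type := ℕ × ℕ × ℕ

/-- Exponents of `a, b, c, d`. -/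
abbrev M4 : Type := ℕ × ℕ × ℕ × ℕ

/-- Polynomials in `x, y, z`. -/
abbrev IP : Type := List (M3 × ℤ)

/-- Polynomials in `a, b, c, d` with coefficients polynomials in `x, y, z`. -/
abbrev OP : Type := List (M4 × IP)

/-- Polynomials in `a, b, c, d`. -/
abbrev CP : Type := List (M4 × ℤ)

def eq3 (m n : M3) : Bool :=
  Nat.beq m.1 n.1 && (Nat.beq m.2.1 n.2.1 && Nat.beq m.2.2 n.2.2)

def eq4 (m n : M4) : Bool :=
  Nat.beq m.1 n.1 && (Nat.beq m.2.1 n.2.1 && (Nat.beq m.2.2.1 n.2.2.1 &&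
    Nat.beq m.2.2.2 n.2.2.2))

def add3 (m n : M3) : M3 := (m.1 + n.1, m.2.1 + n.2.1, m.2.2 + n.2.2)

def add4 (m n : M4) : M4 := (m.1 + n.1, m.2.1 + n.2.1, m.2.2.1 + n.2.2.1, m.2.2.2 + n.2.2.2)

def insI (m : M3) (c : ℤ) : IP → IP
  | [] => [(m, c)]
  | (n, d) :: l => bif eq3 m n then (n, c + d) :: l else (n, d) :: insI m c l

def mulT (m : M3) (c : ℤ) : IP → IP → IP
  | [], acc => acc
  | (n, d) :: q, acc => mulT m c q (insI (add3 m n) (c * d) acc)

def mulI : IP → IP → IP → IP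
  | [], _, acc => acc
  | (m, c) :: p, q, acc => mulI p q (mulT m c q acc)

def accO (κ : M4) (p q : IP) : OP → OP
  | [] => [(κ, mulI p q [])]
  | (k, r) :: l => bif eq4 κ k then (k, mulI p q r) :: l else (k, r) :: accO κ p q l

def mulTO (κ : M4) (p : IP) : OP → OP → OP
  | [], acc => acc
  | (k, q) :: l, acc => mulTO κ p l (accO (add4 κ k) p q acc)

def mulO : OP → OP → OP → OP
  | [], _, acc => acc
  | (κ, p) :: P, Q, acc => mulO P Q (mulTO κ p Q acc)

def muP (m : M3) : ℕ := mu m.1 * (mu m.2.1 * mu m.2.2)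

def parT (m : M3) (c : ℤ) : IP → ℤ → ℤ
  | [], acc => acc
  | (n, d) :: q, acc => parT m c q (acc + c * d * (muP (add3 m n) : ℤ))

def parI : IP → IP → ℤ → ℤ
  | [], _, acc => acc
  | (m, c) :: p, q, acc => parI p q (parT m c q acc)

def accC (κ : M4) (c : ℤ) : CP → CP
  | [] => [(κ, c)]
  | (k, r) :: l => bif eq4 κ k then (k, c + r) :: l else (k, r) :: accC κ c l

def parTO (κ : M4) (p : IP) : OP → CP → CP
  | [], acc => acc
  | (k, q) :: l, acc => parTO κ p l (accC (add4 κ k) (parI p q 0) acc)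

def parO : OP → OP → CP → CP
  | [], _, acc => acc
  | (κ, p) :: P, Q, acc => parO P Q (parTO κ p Q acc)

/-- All monomials have degree `n`. -/
def degI (n : ℕ) : IP → Bool
  | [] => true
  | (m, _) :: l => Nat.beq (m.1 + m.2.1 + m.2.2) n && degI n l

/-- All monomials have degree `n` in `x, y, z`. -/
def degO (n : ℕ) : OP → Bool
  | [] => true
  | (_, p) :: l => degI n p && degO n l

noncomputable def ev3 (x y z : ℝ) (m : M3) : ℝ := x ^ m.1 * y ^ m.2.1 * z ^ m.2.2

noncomputable def ev4 (a b c d : ℝ) (m : M4) : ℝ :=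
  a ^ m.1 * b ^ m.2.1 * c ^ m.2.2.1 * d ^ m.2.2.2

noncomputable def evI (x y z : ℝ) : IP → ℝ
  | [] => 0
  | (m, c) :: l => (c : ℝ) * ev3 x y z m + evI x y z l

noncomputable def evO (a b c d x y z : ℝ) : OP → ℝ
  | [] => 0
  | (k, p) :: l => ev4 a b c d k * evI x y z p + evO a b c d x y z l

noncomputable def evC (a b c d : ℝ) : CP → ℝ
  | [] => 0
  | (k, r) :: l => (r : ℝ) * ev4 a b c d k + evC a b c d l

private theorem eq3_eq {m n : M3} (h : eq3 m n = true) : m = n := by
  obtain ⟨i, j, k⟩ := m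
  obtain ⟨i', j', k'⟩ := n
  simp only [eq3, Bool.and_eq_true, Nat.beq_eq] at h
  obtain ⟨h1, h2, h3⟩ := h
  rw [h1, h2, h3]

private theorem eq4_eq {m n : M4} (h : eq4 m n = true) : m = n := by
  obtain ⟨i, j, k, l⟩ := m
  obtain ⟨i', j', k', l'⟩ := n
  simp only [eq4, Bool.and_eq_true, Nat.beq_eq] at h
  obtain ⟨h1, h2, h3, h4⟩ := h
  rw [h1, h2, h3, h4]

private theorem ev3_add (x y z : ℝ) (m n : M3) :
    ev3 x y z (add3 m n) = ev3 x y z m * ev3 x y z n := by
  unfold ev3 add3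
  simp only [pow_add]
  ring

private theorem ev4_add (a b c d : ℝ) (m n : M4) :
    ev4 a b c d (add4 m n) = ev4 a b c d m * ev4 a b c d n := by
  unfold ev4 add4
  simp only [pow_add]
  ring

private theorem evI_ins (x y z : ℝ) (m : M3) (c : ℤ) (l : IP) :
    evI x y z (insI m c l) = (c : ℝ) * ev3 x y z m + evI x y z l := by
  induction l with
  | nil => simp [insI, evI]
  | cons t l ih =>
    obtain ⟨n, d⟩ := t
    simp only [insI]
    rcases h : eq3 m n with _ | _
    · simp only [cond_false, evI, ih]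
      ring
    · have := eq3_eq h
      subst this
      simp only [cond_true, evI]
      push_cast
      ring

private theorem evI_mulT (x y z : ℝ) (m : M3) (c : ℤ) (q acc : IP) :
    evI x y z (mulT m c q acc) = (c : ℝ) * ev3 x y z m * evI x y z q + evI x y z acc := by
  induction q generalizing acc with
  | nil => simp [mulT, evI]
  | cons t q ih =>
    obtain ⟨n, d⟩ := t
    simp only [mulT, ih, evI_ins, evI, ev3_add]
    push_cast
    ring

private theorem evI_mulI (x y z : ℝ) (p q acc : IP) :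
    evI x y z (mulI p q acc) = evI x y z p * evI x y z q + evI x y z acc := by
  induction p generalizing acc with
  | nil => simp [mulI, evI]
  | cons t p ih =>
    obtain ⟨m, c⟩ := t
    simp only [mulI, ih, evI_mulT, evI]
    ring

private theorem evO_acc (a b c d x y z : ℝ) (κ : M4) (p q : IP) (l : OP) :
    evO a b c d x y z (accO κ p q l) =
      ev4 a b c d κ * (evI x y z p * evI x y z q) + evO a b c d x y z l := by
  induction l with
  | nil => simp [accO, evO, evI_mulI, evI]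
  | cons t l ih =>
    obtain ⟨k, r⟩ := t
    simp only [accO]
    rcases h : eq4 κ k with _ | _
    · simp only [cond_false, evO, ih]
      ring
    · have := eq4_eq h
      subst this
      simp only [cond_true, evO, evI_mulI]
      ring

private theorem evO_mulTO (a b c d x y z : ℝ) (κ : M4) (p : IP) (l acc : OP) :
    evO a b c d x y z (mulTO κ p l acc) =
      ev4 a b c d κ * evI x y z p * evO a b c d x y z l + evO a b c d x y z acc := by
  induction l generalizing acc with
  | nil => simp [mulTO, evO]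
  | cons t l ih =>
    obtain ⟨k, q⟩ := t
    simp only [mulTO, ih, evO_acc, evO, ev4_add]
    ring

theorem evO_mulO (a b c d x y z : ℝ) (P Q acc : OP) :
    evO a b c d x y z (mulO P Q acc) =
      evO a b c d x y z P * evO a b c d x y z Q + evO a b c d x y z acc := by
  induction P generalizing acc with
  | nil => simp [mulO, evO]
  | cons t P ih =>
    obtain ⟨κ, p⟩ := t
    simp only [mulO, ih, evO_mulTO, evO]
    ring

private theorem evC_acc (a b c d : ℝ) (κ : M4) (r : ℤ) (l : CP) :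
    evC a b c d (accC κ r l) = (r : ℝ) * ev4 a b c d κ + evC a b c d l := by
  induction l with
  | nil => simp [accC, evC]
  | cons t l ih =>
    obtain ⟨k, r'⟩ := t
    simp only [accC]
    rcases h : eq4 κ k with _ | _
    · simp only [cond_false, evC, ih]
      ring
    · have := eq4_eq h
      subst this
      simp only [cond_true, evC]
      push_cast
      ring

/-! ### Integration -/

private theorem hom0_3 {n : ℕ} {m : M3} (hm : m.1 + m.2.1 + m.2.2 = n) :
    Hom0 (fun y : V => ev3 (y 0) (y 1) (y 2) m / ‖y‖ ^ n) := by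
  rw [← hm]
  exact hom0_mon m.1 m.2.1 m.2.2

private theorem hom0_I {n : ℕ} {p : IP} (hp : degI n p = true) :
    Hom0 (fun y : V => evI (y 0) (y 1) (y 2) p / ‖y‖ ^ n) := by
  induction p with
  | nil =>
    have : (fun y : V => evI (y 0) (y 1) (y 2) [] / ‖y‖ ^ n) = fun _ => 0 := by
      funext y
      simp [evI]
    rw [this]
    exact Hom0.const 0
  | cons t p ih =>
    obtain ⟨m, c⟩ := t
    simp only [degI, Bool.and_eq_true, Nat.beq_eq] at hp
    have h1 := ((hom0_3 hp.1).smul (c : ℝ)).add (ih hp.2)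
    have : (fun y : V => evI (y 0) (y 1) (y 2) ((m, c) :: p) / ‖y‖ ^ n) =
        fun y => (c : ℝ) * (ev3 (y 0) (y 1) (y 2) m / ‖y‖ ^ n) +
          evI (y 0) (y 1) (y 2) p / ‖y‖ ^ n := by
      funext y
      simp only [evI]
      ring
    rw [this]
    exact h1

theorem hom0_O (a b c d : ℝ) {n : ℕ} {P : OP} (hP : degO n P = true) :
    Hom0 (fun y : V => evO a b c d (y 0) (y 1) (y 2) P / ‖y‖ ^ n) := by
  induction P with
  | nil =>
    have : (fun y : V => evO a b c d (y 0) (y 1) (y 2) [] / ‖y‖ ^ n) = fun _ => 0 := by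
      funext y
      simp [evO]
    rw [this]
    exact Hom0.const 0
  | cons t P ih =>
    obtain ⟨κ, p⟩ := t
    simp only [degO, Bool.and_eq_true] at hP
    have h1 := ((hom0_I hP.1).smul (ev4 a b c d κ)).add (ih hP.2)
    have : (fun y : V => evO a b c d (y 0) (y 1) (y 2) ((κ, p) :: P) / ‖y‖ ^ n) =
        fun y => ev4 a b c d κ * (evI (y 0) (y 1) (y 2) p / ‖y‖ ^ n) +
          evO a b c d (y 0) (y 1) (y 2) P / ‖y‖ ^ n := by
      funext y
      simp only [evO]
      ring
    rw [this]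
    exact h1

private theorem bi_33 {n n' : ℕ} {m m' : M3} (hm : m.1 + m.2.1 + m.2.2 = n)
    (hm' : m'.1 + m'.2.1 + m'.2.2 = n') :
    bi (fun y => ev3 (y 0) (y 1) (y 2) m / ‖y‖ ^ n * (ev3 (y 0) (y 1) (y 2) m' / ‖y‖ ^ n')) *
      (nu (n + n') : ℝ) = kappa 3 * (muP (add3 m m') : ℝ) := by
  have h := mon (m.1 + m'.1) (m.2.1 + m'.2.1) (m.2.2 + m'.2.2)
  have e1 : m.1 + m'.1 + (m.2.1 + m'.2.1) + (m.2.2 + m'.2.2) = n + n' := by
    rw [← hm, ← hm']
    ring
  rw [e1] at h
  have e2 : (fun y : V => ev3 (y 0) (y 1) (y 2) m / ‖y‖ ^ n *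
      (ev3 (y 0) (y 1) (y 2) m' / ‖y‖ ^ n')) = fun y : V => y 0 ^ (m.1 + m'.1) *
        y 1 ^ (m.2.1 + m'.2.1) * y 2 ^ (m.2.2 + m'.2.2) / ‖y‖ ^ (n + n') := by
    funext y
    unfold ev3
    rw [div_mul_div_comm, ← pow_add, pow_add, pow_add, pow_add]
    congr 1
    ring
  rw [e2, h]
  rfl

private theorem bi_zero_mul {Ψ : V → ℝ} : bi (fun y => Ψ y * 0) = 0 := by
  simp [bi]

private theorem bi_3I {n n' : ℕ} {m : M3} (hm : m.1 + m.2.1 + m.2.2 = n) {q : IP}
    (hq : degI n' q = true) (c acc : ℤ) :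
    (c : ℝ) * bi (fun y => ev3 (y 0) (y 1) (y 2) m / ‖y‖ ^ n *
      (evI (y 0) (y 1) (y 2) q / ‖y‖ ^ n')) * (nu (n + n') : ℝ) =
        kappa 3 * ((parT m c q acc : ℝ) - acc) := by
  induction q generalizing acc with
  | nil => simp [parT, evI, bi]
  | cons t q ih =>
    obtain ⟨m', d⟩ := t
    simp only [degI, Bool.and_eq_true, Nat.beq_eq] at hq
    have e1 : (fun y : V => ev3 (y 0) (y 1) (y 2) m / ‖y‖ ^ n *
        (evI (y 0) (y 1) (y 2) ((m', d) :: q) / ‖y‖ ^ n')) = fun y : V =>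
          (d : ℝ) * (ev3 (y 0) (y 1) (y 2) m / ‖y‖ ^ n *
            (ev3 (y 0) (y 1) (y 2) m' / ‖y‖ ^ n')) + ev3 (y 0) (y 1) (y 2) m / ‖y‖ ^ n *
              (evI (y 0) (y 1) (y 2) q / ‖y‖ ^ n') := by
      funext y
      simp only [evI]
      ring
    rw [e1, bi_add (((hom0_3 hm).mul (hom0_3 hq.1)).smul _) ((hom0_3 hm).mul (hom0_I hq.2)),
      bi_smul]
    have h1 := bi_33 hm hq.1
    have h2 := ih hq.2 (acc + c * d * (muP (add3 m m') : ℤ))
    simp only [parT]
    push_cast at h2 ⊢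
    linear_combination (c : ℝ) * d * h1 + h2

private theorem bi_II {n n' : ℕ} {p q : IP} (hp : degI n p = true) (hq : degI n' q = true)
    (acc : ℤ) :
    bi (fun y => evI (y 0) (y 1) (y 2) p / ‖y‖ ^ n * (evI (y 0) (y 1) (y 2) q / ‖y‖ ^ n')) *
      (nu (n + n') : ℝ) = kappa 3 * ((parI p q acc : ℝ) - acc) := by
  induction p generalizing acc with
  | nil => simp [parI, evI, bi]
  | cons t p ih =>
    obtain ⟨m, c⟩ := t
    simp only [degI, Bool.and_eq_true, Nat.beq_eq] at hp
    have e1 : (fun y : V => evI (y 0) (y 1) (y 2) ((m, c) :: p) / ‖y‖ ^ n *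
        (evI (y 0) (y 1) (y 2) q / ‖y‖ ^ n')) = fun y : V =>
          (c : ℝ) * (ev3 (y 0) (y 1) (y 2) m / ‖y‖ ^ n *
            (evI (y 0) (y 1) (y 2) q / ‖y‖ ^ n')) + evI (y 0) (y 1) (y 2) p / ‖y‖ ^ n *
              (evI (y 0) (y 1) (y 2) q / ‖y‖ ^ n') := by
      funext y
      simp only [evI]
      ring
    rw [e1, bi_add (((hom0_3 hp.1).mul (hom0_I hq)).smul _) ((hom0_I hp.2).mul (hom0_I hq)),
      bi_smul]
    have h1 := bi_3I hp.1 hq c acc
    have h2 := ih hp.2 (parT m c q acc)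
    simp only [parI]
    linear_combination h1 + h2

private theorem bi_IO (a b c d : ℝ) {n n' : ℕ} {p : IP} {Q : OP} (hp : degI n p = true)
    (hQ : degO n' Q = true) (κ : M4) (acc : CP) :
    ev4 a b c d κ * bi (fun y => evI (y 0) (y 1) (y 2) p / ‖y‖ ^ n *
      (evO a b c d (y 0) (y 1) (y 2) Q / ‖y‖ ^ n')) * (nu (n + n') : ℝ) =
        kappa 3 * (evC a b c d (parTO κ p Q acc) - evC a b c d acc) := by
  induction Q generalizing acc with
  | nil => simp [parTO, evO, bi]
  | cons t Q ih =>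
    obtain ⟨k, q⟩ := t
    simp only [degO, Bool.and_eq_true] at hQ
    have e1 : (fun y : V => evI (y 0) (y 1) (y 2) p / ‖y‖ ^ n *
        (evO a b c d (y 0) (y 1) (y 2) ((k, q) :: Q) / ‖y‖ ^ n')) = fun y : V =>
          ev4 a b c d k * (evI (y 0) (y 1) (y 2) p / ‖y‖ ^ n *
            (evI (y 0) (y 1) (y 2) q / ‖y‖ ^ n')) + evI (y 0) (y 1) (y 2) p / ‖y‖ ^ n *
              (evO a b c d (y 0) (y 1) (y 2) Q / ‖y‖ ^ n') := by
      funext y
      simp only [evO]
      ring
    rw [e1, bi_add (((hom0_I hp).mul (hom0_I hQ.1)).smul _)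
      ((hom0_I hp).mul (hom0_O a b c d hQ.2)), bi_smul]
    have h1 := bi_II hp hQ.1 0
    have h2 := ih hQ.2 (accC (add4 κ k) (parI p q 0) acc)
    simp only [parTO]
    rw [evC_acc, ev4_add] at h2
    push_cast at h1
    linear_combination ev4 a b c d κ * ev4 a b c d k * h1 + h2

/-- The integral of a product of two polynomials, homogeneous in `x, y, z`. -/
theorem bi_OO' (a b c d : ℝ) {n n' : ℕ} {P Q : OP} (hP : degO n P = true)
    (hQ : degO n' Q = true) (acc : CP) :
    bi (fun y => evO a b c d (y 0) (y 1) (y 2) P / ‖y‖ ^ n *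
      (evO a b c d (y 0) (y 1) (y 2) Q / ‖y‖ ^ n')) * (nu (n + n') : ℝ) =
        kappa 3 * (evC a b c d (parO P Q acc) - evC a b c d acc) := by
  induction P generalizing acc with
  | nil => simp [parO, evO, bi]
  | cons t P ih =>
    obtain ⟨κ, p⟩ := t
    simp only [degO, Bool.and_eq_true] at hP
    have e1 : (fun y : V => evO a b c d (y 0) (y 1) (y 2) ((κ, p) :: P) / ‖y‖ ^ n *
        (evO a b c d (y 0) (y 1) (y 2) Q / ‖y‖ ^ n')) = fun y : V =>
          ev4 a b c d κ * (evI (y 0) (y 1) (y 2) p / ‖y‖ ^ n *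
            (evO a b c d (y 0) (y 1) (y 2) Q / ‖y‖ ^ n')) +
              evO a b c d (y 0) (y 1) (y 2) P / ‖y‖ ^ n *
                (evO a b c d (y 0) (y 1) (y 2) Q / ‖y‖ ^ n') := by
      funext y
      simp only [evO]
      ring
    rw [e1, bi_add (((hom0_I hP.1).mul (hom0_O a b c d hQ)).smul _)
      ((hom0_O a b c d hP.2).mul (hom0_O a b c d hQ)), bi_smul]
    have h1 := bi_IO a b c d hP.1 hQ κ acc
    have h2 := ih hP.2 (parTO κ p Q acc)
    simp only [parO]
    linear_combination h1 + h2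

theorem bi_OO (a b c d : ℝ) {n n' : ℕ} {P Q : OP} (hP : degO n P = true)
    (hQ : degO n' Q = true) {R : CP} (hR : parO P Q [] = R) :
    bi (fun y => evO a b c d (y 0) (y 1) (y 2) P / ‖y‖ ^ n *
      (evO a b c d (y 0) (y 1) (y 2) Q / ‖y‖ ^ n')) * (nu (n + n') : ℝ) =
        kappa 3 * evC a b c d R := by
  rw [bi_OO' a b c d hP hQ [], hR]
  simp [evC]

end Pool.Agent.Lib.MP_e62723_gt.TE
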