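import Pool.Agent.Lib.MP_e62723_gt.TE.Defs

/-!
# JOB Rot: invariance under rotations

`bi_rot`: `U` preserves the Lebesgue measure (`LinearIsometryEquiv.measurePreserving`) and the ball
(`‖U y‖ = ‖y‖`): `MeasurePreserving.setIntegral_preimage_emb` or
`MeasurePreserving.integral_comp'` with indicator functions.
`reg_rot`: `U (t • y) = t • U y`; the derivative of `y ↦ f (U y)` is
`innerSL ℝ (F (U y)) ∘ U = innerSL ℝ (U.symm (F (U y)))` (`⟪z, U v⟫ = ⟪U.symm z, v⟫`);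
`U y ≠ 0` for `y ≠ 0`; norms are preserved.
`ftr_rot`: by `Reg.ibpA` both sides are `3 ⟨(f/‖y‖)²⟩ - ⟨‖F‖²⟩` (`bi_rot`, `‖U.symm z‖ = ‖z‖`).
`tri_rot`: `bi_rot` and `⟪x, y⟫ = ⟪U x, U y⟫`.
-/

open MeasureTheory Set

namespace Pool.Agent.Lib.MP_e62723_gt.TE

open Pool.Agent.Lib.MP_e62723_gt.TD

variable {C : ℝ} {f : V → ℝ} {F : V → V}

theorem bi_rot (U : V ≃ₗᵢ[ℝ] V) (Ψ : V → ℝ) : bi (fun y => Ψ (U y)) = bi Ψ := by
  have hmp : MeasurePreserving (U : V → V) volume volume := U.measurePreserving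
  have h1 := hmp.setIntegral_preimage_emb U.toHomeomorph.measurableEmbedding Ψ (Metric.ball 0 1)
  have h2 : (U : V → V) ⁻¹' Metric.ball (0 : V) 1 = Metric.ball 0 1 := by
    ext y
    rw [mem_preimage, Metric.mem_ball, Metric.mem_ball, dist_zero_right, dist_zero_right,
      U.norm_map]
  rw [h2] at h1
  exact h1

theorem reg_rot (h : Reg C f F) (U : V ≃ₗᵢ[ℝ] V) :
    Reg C (fun y => f (U y)) (fun y => U.symm (F (U y))) := by
  refine ⟨h.nonneg, fun t y ht => ?_, fun t y ht => ?_, fun y hy => ?_, fun u v hu hv => ?_⟩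
  · show f (U (t • y)) = t * f (U y)
    rw [map_smul]
    exact h.hom t _ ht
  · show U.symm (F (U (t • y))) = U.symm (F (U y))
    rw [map_smul, h.homF t _ ht]
  · have h0 : U y ≠ 0 := by
      intro h0
      apply hy
      rw [← norm_eq_zero, ← U.norm_map, h0, norm_zero]
    have h1 := (h.grad (U y) h0).comp y U.toContinuousLinearEquiv.hasFDerivAt
    have h2 : (innerSL ℝ (F (U y))).comp (U.toContinuousLinearEquiv : V →L[ℝ] V) =
        innerSL ℝ (U.symm (F (U y))) := by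
      ext v
      show inner ℝ (F (U y)) (U v) = inner ℝ (U.symm (F (U y))) v
      rw [← U.inner_map_map (U.symm (F (U y))) v, U.apply_symm_apply]
    rw [← h2]
    exact h1
  · show ‖U.symm (F (U u)) - U.symm (F (U v))‖ ≤ C * ‖u - v‖
    rw [← map_sub, U.symm.norm_map, ← U.norm_map (u - v), map_sub]
    exact h.lip _ _ (by rw [U.norm_map, hu]) (by rw [U.norm_map, hv])

theorem ftr_rot (h : Reg C f F) (U : V ≃ₗᵢ[ℝ] V) :
    bi (fun y => f (U y) * tr (fderiv ℝ (fun z => U.symm (F (U z))) y)) =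
      bi (fun y => f y * tr (fderiv ℝ F y)) := by
  have h1 := (reg_rot h U).ibpA
  have h2 := h.ibpA
  have h3 : bi (fun y => (f (U y) / ‖y‖) ^ 2) = bi (fun y => (f y / ‖y‖) ^ 2) := by
    rw [← bi_rot U (fun y => (f y / ‖y‖) ^ 2)]
    congr 1
    funext y
    rw [U.norm_map]
  have h4 : bi (fun y => ‖U.symm (F (U y))‖ ^ 2) = bi (fun y => ‖F y‖ ^ 2) := by
    rw [← bi_rot U (fun y => ‖F y‖ ^ 2)]
    congr 1
    funext y
    rw [U.symm.norm_map]
  rw [h2]
  refine Eq.trans h1 ?_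
  rw [h3, h4]

theorem tri_rot (f : V → ℝ) (U : V ≃ₗᵢ[ℝ] V) (x x' x'' : V) :
    tri (fun y => f (U y)) x x' x'' = tri f (U x) (U x') (U x'') := by
  have h1 := bi_rot U (fun y => f y / ‖y‖ * (inner ℝ (U x) y / ‖y‖ * (inner ℝ (U x') y / ‖y‖) *
    (inner ℝ (U x'') y / ‖y‖)))
  unfold tri
  rw [← h1]
  congr 1
  funext y
  rw [U.norm_map, U.inner_map_map, U.inner_map_map, U.inner_map_map]

end Pool.Agent.Lib.MP_e62723_gt.TE
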