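import Pool.Agent.Lib.MP_e62723_gt.TE.Comp
import Pool.Agent.Lib.MP_e62723_gt.TE.HarB
import Pool.Agent.Lib.MP_e62723_gt.TE.Lin
import Pool.Agent.Lib.MP_e62723_gt.TE.Cer
import Pool.Agent.Lib.MP_e62723_gt.TE.Pol
import Pool.Agent.Lib.MP_e62723_gt.TE.Add
import Pool.Agent.Lib.MP_e62723_gt.TE.Prj

/-!
# The bound of the cubic part (helper48)
-/

open MeasureTheory Set

namespace Pool.Agent.Lib.MP_e62723_gt.TE

open Pool.Agent.Lib.MP_e62723_gt.TD

variable {f : V → ℝ} {F : V → V} {a b c d : ℝ}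

/-- `⟨g tr A⟩` for `g = gf`. -/
theorem bi_gtr (a b c d : ℝ) :
    bi (fun y => gf a b c d y * tr (fderiv ℝ (gF a b c d) y)) = -10 * (kappa 3 * al a b c d) := by
  rw [← al_g, ← bi_smul]
  unfold bi
  refine integral_congr_ae (Filter.Eventually.of_forall fun y => ?_)
  simp only
  rcases eq_or_ne y 0 with hy | hy
  · subst hy
    simp [gf]
  · have h0 : ‖y‖ ≠ 0 := norm_ne_zero_iff.2 hy
    rw [tr_g a b c d hy]
    unfold gf
    field_simp

/-- `⟨f tr A_g⟩`. -/
theorem bi_ftr {C : ℝ} (h : Reg C f F) (k : Nf f a b c d) :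
    bi (fun y => f y * tr (fderiv ℝ (gF a b c d) y)) = -10 * (kappa 3 * al a b c d) := by
  rw [← prj_al h k, ← bi_smul]
  unfold bi
  refine integral_congr_ae (Filter.Eventually.of_forall fun y => ?_)
  simp only
  rcases eq_or_ne y 0 with hy | hy
  · subst hy
    rw [h.f_zero]
    simp
  · have h0 : ‖y‖ ≠ 0 := norm_ne_zero_iff.2 hy
    rw [tr_g a b c d hy]
    unfold gf
    field_simp

/-- `⟨‖y‖² tr A tr A_g⟩`. -/
theorem bi_trtr {C : ℝ} (h : Reg C f F) (k : Nf f a b c d) :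
    bi (fun y => ‖y‖ * tr (fderiv ℝ F y) * (‖y‖ * tr (fderiv ℝ (gF a b c d) y))) =
      100 * (kappa 3 * al a b c d) := by
  obtain ⟨D, hD⟩ := reg_g a b c d
  have h1 : bi (fun y => gf a b c d y * tr (fderiv ℝ F y)) = -10 * (kappa 3 * al a b c d) := by
    rw [tr_symm h hD]
    exact bi_ftr h k
  have h2 : 100 * (kappa 3 * al a b c d) =
      -10 * bi (fun y => gf a b c d y * tr (fderiv ℝ F y)) := by
    rw [h1]
    ring
  rw [h2, ← bi_smul]
  unfold bi
  refine integral_congr_ae (Filter.Eventually.of_forall fun y => ?_)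
  simp only
  rcases eq_or_ne y 0 with hy | hy
  · subst hy
    simp [gf]
  · have h0 : ‖y‖ ≠ 0 := norm_ne_zero_iff.2 hy
    rw [tr_g a b c d hy]
    unfold gf
    field_simp

/-- `⟨‖y‖² ⟨A, A_g⟩⟩ = 110 ⟨P²⟩`. -/
theorem bi_ip {C : ℝ} (h : Reg C f F) (k : Nf f a b c d) :
    bi (fun y => ‖y‖ ^ 2 * ip (fderiv ℝ F y) (fderiv ℝ (gF a b c d) y)) =
      110 * (kappa 3 * al a b c d) := by
  obtain ⟨D, hD⟩ := reg_g a b c d
  have h1 := ibpY h hD
  have h2 := bi_ftr h k
  have h3 := bi_trtr h k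
  have i1 : Hom0 (fun y => ‖y‖ * tr (fderiv ℝ F y) * (‖y‖ * tr (fderiv ℝ (gF a b c d) y))) :=
    h.hom0_tr.mul hD.hom0_tr
  have i2 := hom0_ip h hD
  have h4 : bi (fun y => ‖y‖ ^ 2 * (tr (fderiv ℝ F y) * tr (fderiv ℝ (gF a b c d) y) -
      ip (fderiv ℝ F y) (fderiv ℝ (gF a b c d) y))) =
      bi (fun y => ‖y‖ * tr (fderiv ℝ F y) * (‖y‖ * tr (fderiv ℝ (gF a b c d) y))) -
        bi (fun y => ‖y‖ ^ 2 * ip (fderiv ℝ F y) (fderiv ℝ (gF a b c d) y)) := by
    unfold bi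
    rw [← integral_sub i1.intBall i2.intBall]
    refine integral_congr_ae (Filter.Eventually.of_forall fun y => ?_)
    simp only
    ring
  rw [h4, h2, h3] at h1
  linarith

/-- The bound of the cubic part: `5 ⟨P²⟩ ≤ (7/25)²`. -/
theorem al_le (h : Reg 1 f F) (k : Nf f a b c d) : 5 * al a b c d ≤ (7 / 25) ^ 2 := by
  obtain ⟨D, hD⟩ := reg_g a b c d
  obtain ⟨q, hq⟩ : ∃ q : ℝ, q = 5 * al a b c d := ⟨_, rfl⟩
  have hk : 0 < kappa 3 := by
    rw [kappa_three]
    have := Real.pi_pos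
    positivity
  rw [← hq]
  by_contra hcon
  push Not at hcon
  have hq0 : 0 < q := lt_trans (by norm_num) hcon
  obtain ⟨δ, hδ⟩ : ∃ δ : ℝ, δ = √q := ⟨_, rfl⟩
  have hδ0 : 0 < δ := by
    rw [hδ]
    exact Real.sqrt_pos.2 hq0
  have hδ2 : δ ^ 2 = q := by
    rw [hδ]
    exact Real.sq_sqrt hq0.le
  have hδl : 7 / 25 < δ := by
    rw [hδ]
    exact Real.lt_sqrt_of_sq_lt hcon
  -- the pointwise inequality
  obtain ⟨s, hsd⟩ : ∃ s : V → ℝ, s = fun y => gS a b c d y / ‖y‖ ^ 6 := ⟨_, rfl⟩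
  obtain ⟨t, htd⟩ : ∃ t : V → ℝ, t = fun y => gD a b c d y / ‖y‖ ^ 6 := ⟨_, rfl⟩
  have his : Hom0 s := by
    rw [hsd]
    exact hom0_S a b c d
  have hit : Hom0 t := by
    rw [htd]
    exact hom0_D a b c d
  have hpt : ∀ y : V, ‖y‖ ^ 2 * ip (fderiv ℝ F y) (fderiv ℝ (gF a b c d) y) ≤
      2 * δ * (89 / 100) + (2 * δ * (318 / 100 * (1 / (20 * q))) * s y +
        (-(2 * δ * (195 / 100 * (1 / (400 * q ^ 2)))) * s y ^ 2 +
          (2 * δ * (94 / 100 * (1 / (100 * q ^ 2))) * t y ^ 2 +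
            (2 * δ * (59 / 100 * (1 / (8000 * q ^ 3))) * s y ^ 3 +
              -(2 * δ * (43 / 100 * (1 / (2000 * q ^ 3)))) * (s y * t y ^ 2))))) := by
    intro y
    rcases eq_or_ne y 0 with hy | hy
    · subst hy
      have e1 : s 0 = 0 := by
        rw [hsd]
        simp
      have e2 : t 0 = 0 := by
        rw [htd]
        simp
      rw [e1, e2]
      simp only [norm_zero]
      have : 0 ≤ 2 * δ * (89 / 100) := by positivity
      linarith
    · have hn : 0 < ‖y‖ := norm_pos_iff.2 hy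
      have h1 := ip_le (L := fderiv ℝ F y) (M := fderiv ℝ (gF a b c d) y)
        (fun v w => hD.A_symm hy v w) (C := 1 / ‖y‖) (fun v => by
          have := h.A_norm hy v
          calc _ ≤ 1 * ‖v‖ / ‖y‖ := this
            _ = 1 / ‖y‖ * ‖v‖ := by ring) hy (hD.A_self hy)
      have h2 := e2_le (M := fderiv ℝ (gF a b c d) y) (fun v w => hD.A_symm hy v w) hy
        (hD.A_self hy)
      have h3 : ‖y‖ ^ 2 * hs (fderiv ℝ (gF a b c d) y) = s y := by
        rw [hs_g a b c d hy, hsd]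
      have h4 : ‖y‖ ^ 2 * e2 (fderiv ℝ (gF a b c d) y) = t y := by
        rw [e2_g a b c d hy, htd]
      have h5 : ‖y‖ ^ 2 * (1 / ‖y‖ * √(hs (fderiv ℝ (gF a b c d) y) +
          2 * |e2 (fderiv ℝ (gF a b c d) y)|)) = √(s y + 2 * |t y|) := by
        have h6 : s y + 2 * |t y| = ‖y‖ ^ 2 * (hs (fderiv ℝ (gF a b c d) y) +
            2 * |e2 (fderiv ℝ (gF a b c d) y)|) := by
          rw [← h3, ← h4, abs_mul, abs_of_nonneg (sq_nonneg ‖y‖)]
          ring
        rw [h6, Real.sqrt_mul (sq_nonneg _), Real.sqrt_sq hn.le]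
        field_simp
      have h6 : |t y / (10 * q)| ≤ s y / (20 * q) := by
        rw [abs_div, abs_of_pos (by positivity : 0 < 10 * q), ← h3, ← h4, abs_mul,
          abs_of_nonneg (sq_nonneg ‖y‖), div_le_div_iff₀ (by positivity) (by positivity)]
        have h7 := mul_le_mul_of_nonneg_left h2 (by positivity : 0 ≤ ‖y‖ ^ 2 * (10 * q))
        linarith
      have h7 := cert h6
      have h8 : √(s y + 2 * |t y|) = 2 * δ * √(5 * (s y / (20 * q) + |t y / (10 * q)|)) := by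
        have h9 : s y + 2 * |t y| = (2 * δ) ^ 2 * (5 * (s y / (20 * q) + |t y / (10 * q)|)) := by
          rw [abs_div, abs_of_pos (by positivity : 0 < 10 * q), mul_pow, hδ2]
          field_simp
          ring
        rw [h9, Real.sqrt_mul (sq_nonneg _), Real.sqrt_sq (by positivity)]
      have h9 : ‖y‖ ^ 2 * ip (fderiv ℝ F y) (fderiv ℝ (gF a b c d) y) ≤
          2 * δ * √(5 * (s y / (20 * q) + |t y / (10 * q)|)) := by
        rw [← h8, ← h5]
        exact mul_le_mul_of_nonneg_left h1 (sq_nonneg _)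
      have h10 := mul_le_mul_of_nonneg_left h7 (by positivity : 0 ≤ 2 * δ)
      have h11 := h9.trans h10
      refine h11.trans (le_of_eq ?_)
      field_simp
      ring
  -- integrate
  have hint := bi_mono (hom0_ip h hD) (Hom0.add (Hom0.const _) (Hom0.add (his.smul _)
    (Hom0.add ((his.pow 2).smul _) (Hom0.add ((hit.pow 2).smul _)
      (Hom0.add ((his.pow 3).smul _) ((his.mul (hit.pow 2)).smul _)))))) hpt
  rw [bi_ip h k, bi_add (Hom0.const _) (Hom0.add (his.smul _)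
    (Hom0.add ((his.pow 2).smul _) (Hom0.add ((hit.pow 2).smul _)
      (Hom0.add ((his.pow 3).smul _) ((his.mul (hit.pow 2)).smul _))))),
    bi_add (his.smul _) (Hom0.add ((his.pow 2).smul _) (Hom0.add ((hit.pow 2).smul _)
      (Hom0.add ((his.pow 3).smul _) ((his.mul (hit.pow 2)).smul _)))),
    bi_add ((his.pow 2).smul _) (Hom0.add ((hit.pow 2).smul _)
      (Hom0.add ((his.pow 3).smul _) ((his.mul (hit.pow 2)).smul _))),
    bi_add ((hit.pow 2).smul _) (Hom0.add ((his.pow 3).smul _) ((his.mul (hit.pow 2)).smul _)),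
    bi_add ((his.pow 3).smul _) ((his.mul (hit.pow 2)).smul _), bi_const, bi_smul, bi_smul,
    bi_smul, bi_smul, bi_smul] at hint
  have hb1 : bi s = kappa 3 * (22 * q) := by
    rw [hsd, bi_S, hq]
    ring
  have hb2 : bi (fun y => s y ^ 2) = kappa 3 * mS2 a b c d := by
    rw [hsd]
    exact bi_S2 a b c d
  have hb3 : bi (fun y => t y ^ 2) = kappa 3 * mD2 a b c d := by
    rw [htd]
    exact bi_D2 a b c d
  have hb4 : bi (fun y => s y ^ 3) = kappa 3 * mS3 a b c d := by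
    rw [hsd]
    exact bi_S3 a b c d
  have hb5 : bi (fun y => s y * t y ^ 2) = kappa 3 * mSD2 a b c d := by
    rw [hsd, htd]
    exact bi_SD2 a b c d
  rw [hb1, hb2, hb3, hb4, hb5] at hint
  have hpol := pol_ineq a b c d
  rw [← hq] at hpol
  -- `22 q ≤ 2 δ (3.08)`
  have e1 : 110 * (kappa 3 * al a b c d) = kappa 3 * (22 * q) := by
    rw [hq]
    ring
  have e2 : 2 * δ * (89 / 100) * kappa 3 +
      (2 * δ * (318 / 100 * (1 / (20 * q))) * (kappa 3 * (22 * q)) +
        (-(2 * δ * (195 / 100 * (1 / (400 * q ^ 2)))) * (kappa 3 * mS2 a b c d) +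
          (2 * δ * (94 / 100 * (1 / (100 * q ^ 2))) * (kappa 3 * mD2 a b c d) +
            (2 * δ * (59 / 100 * (1 / (8000 * q ^ 3))) * (kappa 3 * mS3 a b c d) +
              -(2 * δ * (43 / 100 * (1 / (2000 * q ^ 3)))) * (kappa 3 * mSD2 a b c d))))) =
      kappa 3 * (2 * δ * (4388 / 1000 + (-(195 / 100) * (mS2 a b c d / 400) * q +
        94 / 100 * (mD2 a b c d / 100) * q + 59 / 100 * (mS3 a b c d / 8000) -
        43 / 100 * (mSD2 a b c d / 2000)) / q ^ 3)) := by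
    field_simp
    ring
  rw [e1, e2] at hint
  have h1 := le_of_mul_le_mul_left hint hk
  have h2 : (-(195 / 100) * (mS2 a b c d / 400) * q +
        94 / 100 * (mD2 a b c d / 100) * q + 59 / 100 * (mS3 a b c d / 8000) -
        43 / 100 * (mSD2 a b c d / 2000)) / q ^ 3 ≤ -(1308 / 1000) := by
    rw [div_le_iff₀ (by positivity)]
    exact hpol
  have h3 : 22 * δ ^ 2 ≤ 2 * δ * (308 / 100) := by
    rw [hδ2]
    refine h1.trans ?_
    refine mul_le_mul_of_nonneg_left ?_ (by positivity)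
    linarith
  nlinarith

end Pool.Agent.Lib.MP_e62723_gt.TE
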